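import Pool.Agent.Helper64.BC.Mat

/-!
# Subalgebras of the 3 by 3 matrices: the radical of the trace form, central idempotents
-/

set_option autoImplicit false

namespace Pool.Agent.Helper64.BC

open Matrix

/-- Cayley–Hamilton for 3 by 3 matrices. -/
theorem cayley (Y : M3) : Y * Y * Y - Y.trace • (Y * Y) +
    ((Y.trace ^ 2 - (Y * Y).trace) / 2) • Y - Y.det • (1 : M3) = 0 := by
  ext i j
  fin_cases i <;> fin_cases j <;>
    simp [Matrix.mul_apply, Fin.sum_univ_three, Matrix.trace_fin_three, Matrix.det_fin_three] <;>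
    ring

theorem cube_eq_zero (Y : M3) (h1 : Y.trace = 0) (h2 : (Y * Y).trace = 0)
    (h3 : (Y * Y * Y).trace = 0) : Y * Y * Y = 0 := by
  have h := cayley Y
  rw [h1, h2] at h
  simp only [zero_smul, sub_zero, ne_eq, OfNat.ofNat_ne_zero, not_false_eq_true, zero_pow,
    zero_div, add_zero] at h
  have h4 : Y * Y * Y = Y.det • (1 : M3) := sub_eq_zero.mp h
  have h5 := congrArg Matrix.trace h4
  rw [h3, Matrix.trace_smul, Matrix.trace_one] at h5
  have h6 : Y.det = 0 := by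
    simp at h5
    exact h5
  rw [h4, h6, zero_smul]

/-- The radical of the trace form of a subalgebra. -/
def rad (B : Subalgebra ℝ M3) : Submodule ℝ M3 where
  carrier := {Y | Y ∈ B ∧ ∀ Z ∈ B, (Y * Z).trace = 0}
  add_mem' := by
    rintro a b ⟨ha, ha'⟩ ⟨hb, hb'⟩
    refine ⟨B.add_mem ha hb, fun Z hZ => ?_⟩
    rw [add_mul, Matrix.trace_add, ha' Z hZ, hb' Z hZ, add_zero]
  zero_mem' := ⟨B.zero_mem, fun Z _ => by rw [zero_mul, Matrix.trace_zero]⟩
  smul_mem' := by
    rintro c a ⟨ha, ha'⟩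
    refine ⟨B.smul_mem ha c, fun Z hZ => ?_⟩
    rw [smul_mul_assoc, Matrix.trace_smul, ha' Z hZ, smul_zero]

theorem mem_rad {B : Subalgebra ℝ M3} {Y : M3} :
    Y ∈ rad B ↔ Y ∈ B ∧ ∀ Z ∈ B, (Y * Z).trace = 0 := Iff.rfl

theorem rad_cube {B : Subalgebra ℝ M3} {Y : M3} (hY : Y ∈ rad B) : Y * Y * Y = 0 := by
  obtain ⟨h, h'⟩ := hY
  refine cube_eq_zero Y ?_ (h' Y h) ?_
  · have := h' 1 B.one_mem
    rwa [mul_one] at this
  · rw [mul_assoc]
    exact h' _ (B.mul_mem h h)

theorem rad_mul_left {B : Subalgebra ℝ M3} {Y Z : M3} (hZ : Z ∈ B) (hY : Y ∈ rad B) :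
    Z * Y ∈ rad B := by
  refine ⟨B.mul_mem hZ hY.1, fun W hW => ?_⟩
  rw [mul_assoc, Matrix.trace_mul_comm, mul_assoc]
  exact hY.2 _ (B.mul_mem hW hZ)

theorem rad_mul_right {B : Subalgebra ℝ M3} {Y Z : M3} (hZ : Z ∈ B) (hY : Y ∈ rad B) :
    Y * Z ∈ rad B := by
  refine ⟨B.mul_mem hY.1 hZ, fun W hW => ?_⟩
  rw [mul_assoc]
  exact hY.2 _ (B.mul_mem hZ hW)

attribute [local instance 100] LieRing.ofAssociativeRing

/-- Engel's theorem for spaces of nilpotent 3 by 3 matrices. -/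
theorem engel (n : Submodule ℝ M3) (hb : ∀ Y ∈ n, ∀ Z ∈ n, Y * Z - Z * Y ∈ n)
    (hn : ∀ Y ∈ n, Y * Y * Y = 0) : ∃ v : Fin 3 → ℝ, v ≠ 0 ∧ ∀ Y ∈ n, Y *ᵥ v = 0 := by
  let L : LieSubalgebra ℝ M3 :=
    { n with
      lie_mem' := by
        intro a b ha hb'
        rw [LieRing.of_associative_ring_bracket]
        exact hb a ha b hb' }
  have hnil : LieModule.IsNilpotent L (Fin 3 → ℝ) := by
    rw [LieModule.isNilpotent_iff_forall (R := ℝ)]
    intro x
    refine ⟨3, LinearMap.ext fun v => ?_⟩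
    have h1 : ((LieModule.toEnd ℝ L (Fin 3 → ℝ)) x ^ 3) v = ((x : M3) * (x : M3) * (x : M3)) *ᵥ v := by
      rw [pow_succ, pow_succ, pow_one]
      change ⁅x, ⁅x, ⁅x, v⁆⁆⁆ = _
      simp only [LieSubalgebra.coe_bracket_of_module, Matrix.lie_apply, Matrix.mulVec_mulVec,
        mul_assoc]
    rw [h1, hn x.1 x.2, Matrix.zero_mulVec]
    rfl
  have hne' := LieModule.nontrivial_max_triv_of_isNilpotent ℝ L (Fin 3 → ℝ)
  obtain ⟨⟨v, hv⟩, hne⟩ := exists_ne (0 : LieModule.maxTrivSubmodule ℝ L (Fin 3 → ℝ))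
  refine ⟨v, fun h => hne (Subtype.ext h), fun Y hY => ?_⟩
  rw [LieModule.mem_maxTrivSubmodule] at hv
  exact hv ⟨Y, hY⟩

theorem engel_left (n : Submodule ℝ M3) (hb : ∀ Y ∈ n, ∀ Z ∈ n, Y * Z - Z * Y ∈ n)
    (hn : ∀ Y ∈ n, Y * Y * Y = 0) : ∃ v : Fin 3 → ℝ, v ≠ 0 ∧ ∀ Y ∈ n, v ᵥ* Y = 0 := by
  let n' : Submodule ℝ M3 := n.comap (Matrix.transposeLinearEquiv (Fin 3) (Fin 3) ℝ ℝ).toLinearMap
  have hmem : ∀ Y, Y ∈ n' ↔ Yᵀ ∈ n := fun Y => Iff.rfl
  obtain ⟨v, hv, h⟩ := engel n' (by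
    intro Y hY Z hZ
    rw [hmem] at *
    have h1 := n.neg_mem (hb _ hY _ hZ)
    rw [Matrix.transpose_sub, Matrix.transpose_mul, Matrix.transpose_mul]
    rwa [neg_sub] at h1) (by
    intro Y hY
    have h1 := hn _ ((hmem Y).mp hY)
    have h2 := congrArg Matrix.transpose h1
    simp only [Matrix.transpose_mul, Matrix.transpose_transpose, Matrix.transpose_zero] at h2
    rw [mul_assoc]
    exact h2)
  refine ⟨v, hv, fun Y hY => ?_⟩
  have h1 := h Yᵀ ((hmem _).mpr (by rwa [Matrix.transpose_transpose]))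
  rwa [Matrix.mulVec_transpose] at h1

theorem rad_bracket {B : Subalgebra ℝ M3} : ∀ Y ∈ rad B, ∀ Z ∈ rad B, Y * Z - Z * Y ∈ rad B :=
  fun _ hY _ hZ => (rad B).sub_mem (rad_mul_left hY.1 hZ) (rad_mul_left hZ.1 hY)

/-- The space spanned by the images of the elements of the radical. -/
def img (B : Subalgebra ℝ M3) : Submodule ℝ (Fin 3 → ℝ) :=
  Submodule.span ℝ {w | ∃ Y ∈ rad B, ∃ v, w = Y *ᵥ v}

theorem img_ne_top (B : Subalgebra ℝ M3) : img B ≠ ⊤ := by
  obtain ⟨φ, hφ, h⟩ := engel_left (rad B) rad_bracket (fun Y hY => rad_cube hY)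
  intro htop
  apply hφ
  have key : ∀ w ∈ img B, φ ⬝ᵥ w = 0 := by
    intro w hw
    refine Submodule.span_induction ?_ ?_ ?_ ?_ hw
    · rintro w ⟨Y, hY, v, rfl⟩
      rw [Matrix.dotProduct_mulVec, h Y hY, zero_dotProduct]
    · exact dotProduct_zero _
    · intro x y _ _ hx hy
      rw [dotProduct_add, hx, hy, add_zero]
    · intro c x _ hx
      rw [dotProduct_smul, hx, smul_zero]
  exact dotProduct_self_eq_zero.mp (key φ (by rw [htop]; exact Submodule.mem_top))

theorem img_ne_bot (B : Subalgebra ℝ M3) (h : rad B ≠ ⊥) : img B ≠ ⊥ := by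
  intro hbot
  apply h
  rw [eq_bot_iff]
  intro Y hY
  rw [Submodule.mem_bot]
  have h1 : ∀ v, Y *ᵥ v = 0 := by
    intro v
    have : Y *ᵥ v ∈ img B := Submodule.subset_span ⟨Y, hY, v, rfl⟩
    rwa [hbot, Submodule.mem_bot] at this
  ext i j
  have h2 := congrFun (h1 (Pi.single j 1)) i
  rw [Matrix.mulVec_single_one] at h2
  exact h2

/-- The central idempotents of trace one. -/
def idem (B : Subalgebra ℝ M3) : Set M3 :=
  {e | e ∈ B ∧ (∀ Z ∈ B, e * Z = Z * e) ∧ e * e = e ∧ e.trace = 1}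

theorem idem_trace_zero {e : M3} (he : e * e = e) (h : e.trace = 0) : e = 0 := by
  have h1 : IsIdempotentElem (Matrix.toLin' e) := by
    change Matrix.toLin' e * Matrix.toLin' e = Matrix.toLin' e
    rw [Module.End.mul_eq_comp, ← Matrix.toLin'_mul, he]
  have h2 := (LinearMap.IsIdempotentElem.trace_eq_zero_iff h1).mp (by
    rw [Matrix.trace_toLin'_eq, h])
  exact (map_eq_zero_iff _ (Matrix.toLin' (R := ℝ) (m := Fin 3) (n := Fin 3)).injective).mp h2

theorem idem_trace_nat {e : M3} (he : e * e = e) : ∃ n : ℕ, n ≤ 3 ∧ e.trace = n := by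
  have h1 : IsIdempotentElem (Matrix.toLin' e) := by
    change Matrix.toLin' e * Matrix.toLin' e = Matrix.toLin' e
    rw [Module.End.mul_eq_comp, ← Matrix.toLin'_mul, he]
  refine ⟨Module.finrank ℝ (LinearMap.range (Matrix.toLin' e)), ?_, ?_⟩
  · calc Module.finrank ℝ (LinearMap.range (Matrix.toLin' e)) ≤ Module.finrank ℝ (Fin 3 → ℝ) :=
        Submodule.finrank_le _
      _ = 3 := by simp
  · rw [← Matrix.trace_toLin'_eq]
    exact (LinearMap.IsIdempotentElem.isProj_range _ h1).trace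

/-- A character gives a central idempotent of trace one. -/
theorem idem_of_char (B : Subalgebra ℝ M3) (hr : rad B = ⊥) (hs : ∃ Z ∈ B, ∀ c : ℝ, Z ≠ c • 1)
    (χ : M3 →ₗ[ℝ] ℝ) (h1 : χ 1 = 1) (hm : ∀ Y ∈ B, ∀ Z ∈ B, χ (Y * Z) = χ Y * χ Z) :
    (idem B).Nonempty := by
  -- the element representing the character
  let T : B →ₗ[ℝ] Module.Dual ℝ B :=
    { toFun := fun Y =>
        { toFun := fun Z => ((Y : M3) * Z).trace
          map_add' := fun a b => by
            change ((Y : M3) * ((a : M3) + b)).trace = _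
            rw [mul_add, Matrix.trace_add]
          map_smul' := fun c a => by
            change ((Y : M3) * (c • (a : M3))).trace = _
            rw [mul_smul_comm, Matrix.trace_smul]
            rfl }
      map_add' := fun a b => by
        ext Z
        change (((a : M3) + b) * Z).trace = _
        rw [add_mul, Matrix.trace_add]
        rfl
      map_smul' := fun c a => by
        ext Z
        change ((c • (a : M3)) * Z).trace = _
        rw [smul_mul_assoc, Matrix.trace_smul]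
        rfl }
  have hinj : Function.Injective T := by
    rw [injective_iff_map_eq_zero]
    intro Y hY
    have h2 : (Y : M3) ∈ rad B := ⟨Y.2, fun Z hZ => by
      have := LinearMap.congr_fun hY ⟨Z, hZ⟩
      exact this⟩
    rw [hr, Submodule.mem_bot] at h2
    exact Subtype.ext h2
  have hsurj : Function.Surjective T :=
    (LinearMap.injective_iff_surjective_of_finrank_eq_finrank
      (Subspace.dual_finrank_eq (K := ℝ) (V := B)).symm).mp hinj
  obtain ⟨⟨c, hc⟩, hcT⟩ := hsurj (χ.comp B.val.toLinearMap)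
  have hcχ : ∀ Y ∈ B, (c * Y).trace = χ Y := by
    intro Y hY
    have := LinearMap.congr_fun hcT ⟨Y, hY⟩
    exact this
  -- elements with the same traces are equal
  have hext : ∀ a ∈ B, ∀ b ∈ B, (∀ Z ∈ B, (a * Z).trace = (b * Z).trace) → a = b := by
    intro a ha b hb hab
    have h2 : a - b ∈ rad B := ⟨B.sub_mem ha hb, fun Z hZ => by
      rw [sub_mul, Matrix.trace_sub, hab Z hZ, sub_self]⟩
    rw [hr, Submodule.mem_bot] at h2
    exact sub_eq_zero.mp h2
  have hcY : ∀ Y ∈ B, c * Y = χ Y • c := by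
    intro Y hY
    refine hext _ (B.mul_mem hc hY) _ (B.smul_mem hc _) fun Z hZ => ?_
    rw [mul_assoc, hcχ _ (B.mul_mem hY hZ), hm Y hY Z hZ, smul_mul_assoc, Matrix.trace_smul,
      hcχ Z hZ]
    rfl
  have hYc : ∀ Y ∈ B, Y * c = χ Y • c := by
    intro Y hY
    refine hext _ (B.mul_mem hY hc) _ (B.smul_mem hc _) fun Z hZ => ?_
    rw [mul_assoc, Matrix.trace_mul_comm, mul_assoc, hcχ _ (B.mul_mem hZ hY), hm Z hZ Y hY,
      smul_mul_assoc, Matrix.trace_smul, hcχ Z hZ, mul_comm]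
    rfl
  have htc : c.trace = 1 := by
    have := hcχ 1 B.one_mem
    rw [mul_one, h1] at this
    exact this
  have hc2 : c * c = χ c • c := hcY c hc
  have hχc : χ c ≠ 0 := by
    intro h0
    rw [h0, zero_smul] at hc2
    have h3 : (c * c * c).trace = 0 := by rw [hc2, zero_mul, Matrix.trace_zero]
    have h4 : c ∈ rad B := ⟨hc, fun Z hZ => by
      have h5 : (c * Z) * (c * Z) = 0 := by
        rw [hcY Z hZ, smul_mul_smul_comm, hc2, smul_zero]
      rw [hcχ Z hZ]
      have h6 := hcχ (c * Z) (B.mul_mem hc hZ)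
      rw [← mul_assoc, hc2, zero_mul, Matrix.trace_zero, hm c hc Z hZ, h0, zero_mul] at h6
      -- use the trace of `c * Z = χ Z • c` and multiplicativity on powers
      have h7 : IsNilpotent (c * Z) := ⟨2, by rw [pow_two, h5]⟩
      have h8 := (Matrix.isNilpotent_trace_of_isNilpotent h7).eq_zero
      rw [hcχ Z hZ] at h8
      exact h8⟩
    rw [hr, Submodule.mem_bot] at h4
    rw [h4, Matrix.trace_zero] at htc
    exact zero_ne_one htc
  set e : M3 := (χ c)⁻¹ • c with he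
  have heB : e ∈ B := B.smul_mem hc _
  have hee : e * e = e := by
    rw [he, smul_mul_smul_comm, hc2, smul_smul, mul_assoc, inv_mul_cancel₀ hχc, mul_one]
  have hcomm : ∀ Z ∈ B, e * Z = Z * e := by
    intro Z hZ
    rw [he, smul_mul_assoc, mul_smul_comm, hcY Z hZ, hYc Z hZ]
  have heY : ∀ Z ∈ B, e * Z = χ Z • e := by
    intro Z hZ
    rw [he, smul_mul_assoc, hcY Z hZ, smul_comm]
  have hte : e.trace = (χ c)⁻¹ := by
    rw [he, Matrix.trace_smul, htc]
    simp
  obtain ⟨n, hn, hn'⟩ := idem_trace_nat hee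
  have hn0 : n ≠ 0 := by
    rintro rfl
    rw [hn'] at hte
    simp at hte
    exact hχc hte.symm
  have hone : (1 - e) * (1 - e) = 1 - e := by
    rw [mul_sub, mul_one, sub_mul, one_mul, hee, sub_self, sub_zero]
  have htone : (1 - e).trace = 3 - n := by
    rw [Matrix.trace_sub, Matrix.trace_one, hn']
    simp
  have hcase : n = 1 ∨ n = 2 ∨ n = 3 := by omega
  rcases hcase with rfl | rfl | rfl
  · exact ⟨e, heB, hcomm, hee, by rw [hn']; simp⟩
  · refine ⟨1 - e, B.sub_mem B.one_mem heB, fun Z hZ => ?_, hone, ?_⟩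
    · rw [sub_mul, mul_sub, one_mul, mul_one, hcomm Z hZ]
    · rw [htone]
      norm_num
  · exfalso
    have h0 : 1 - e = 0 := idem_trace_zero hone (by rw [htone]; norm_num)
    have h1' : e = 1 := (sub_eq_zero.mp h0).symm
    obtain ⟨Z, hZ, hZ'⟩ := hs
    refine hZ' (χ Z) ?_
    have := heY Z hZ
    rw [h1', one_mul] at this
    exact this

/-- A common eigenvector gives a central idempotent of trace one. -/
theorem idem_of_right (B : Subalgebra ℝ M3) (hr : rad B = ⊥) (hs : ∃ Z ∈ B, ∀ c : ℝ, Z ≠ c • 1)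
    (v : Fin 3 → ℝ) (hv : v ≠ 0) (h : ∀ Z ∈ B, ∃ c : ℝ, Z *ᵥ v = c • v) : (idem B).Nonempty := by
  obtain ⟨i, hi⟩ := Function.ne_iff.mp hv
  have hi' : v i ≠ 0 := hi
  let χ : M3 →ₗ[ℝ] ℝ :=
    { toFun := fun Z => (Z *ᵥ v) i / v i
      map_add' := fun a b => by rw [Matrix.add_mulVec, Pi.add_apply, add_div]
      map_smul' := fun c a => by
        rw [Matrix.smul_mulVec, Pi.smul_apply, smul_eq_mul, mul_div_assoc]
        rfl }
  have hχ : ∀ Z ∈ B, Z *ᵥ v = χ Z • v := by
    intro Z hZ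
    obtain ⟨c, hc⟩ := h Z hZ
    have : χ Z = c := by
      change (Z *ᵥ v) i / v i = c
      rw [hc, Pi.smul_apply, smul_eq_mul, mul_div_cancel_right₀ _ hi']
    rw [this, hc]
  refine idem_of_char B hr hs χ ?_ ?_
  · change ((1 : M3) *ᵥ v) i / v i = 1
    rw [Matrix.one_mulVec, div_self hi']
  · intro Y hY Z hZ
    have h1 := hχ (Y * Z) (B.mul_mem hY hZ)
    rw [← Matrix.mulVec_mulVec, hχ Z hZ, Matrix.mulVec_smul, hχ Y hY, smul_smul] at h1
    have h2 := congrFun h1 i
    simp only [Pi.smul_apply, smul_eq_mul] at h2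
    have h3 := mul_right_cancel₀ hi' h2
    rw [← h3, mul_comm]

theorem idem_of_left (B : Subalgebra ℝ M3) (hr : rad B = ⊥) (hs : ∃ Z ∈ B, ∀ c : ℝ, Z ≠ c • 1)
    (v : Fin 3 → ℝ) (hv : v ≠ 0) (h : ∀ Z ∈ B, ∃ c : ℝ, v ᵥ* Z = c • v) : (idem B).Nonempty := by
  obtain ⟨i, hi⟩ := Function.ne_iff.mp hv
  have hi' : v i ≠ 0 := hi
  let χ : M3 →ₗ[ℝ] ℝ :=
    { toFun := fun Z => (v ᵥ* Z) i / v i
      map_add' := fun a b => by rw [Matrix.vecMul_add, Pi.add_apply, add_div]
      map_smul' := fun c a => by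
        rw [Matrix.vecMul_smul, Pi.smul_apply, smul_eq_mul, mul_div_assoc]
        rfl }
  have hχ : ∀ Z ∈ B, v ᵥ* Z = χ Z • v := by
    intro Z hZ
    obtain ⟨c, hc⟩ := h Z hZ
    have : χ Z = c := by
      change (v ᵥ* Z) i / v i = c
      rw [hc, Pi.smul_apply, smul_eq_mul, mul_div_cancel_right₀ _ hi']
    rw [this, hc]
  refine idem_of_char B hr hs χ ?_ ?_
  · change (v ᵥ* (1 : M3)) i / v i = 1
    rw [Matrix.vecMul_one, div_self hi']
  · intro Y hY Z hZ
    have h1 := hχ (Y * Z) (B.mul_mem hY hZ)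
    rw [← Matrix.vecMul_vecMul, hχ Y hY, Matrix.smul_vecMul, hχ Z hZ, smul_smul] at h1
    have h2 := congrFun h1 i
    simp only [Pi.smul_apply, smul_eq_mul] at h2
    exact (mul_right_cancel₀ hi' h2).symm

/-- Two different central idempotents of trace one are orthogonal. -/
theorem idem_orth {B : Subalgebra ℝ M3} {e e' : M3} (he : e ∈ idem B) (he' : e' ∈ idem B)
    (hne : e ≠ e') : e * e' = 0 := by
  obtain ⟨h1, h2, h3, h4⟩ := he
  obtain ⟨h1', h2', h3', h4'⟩ := he'
  have hc : e * e' = e' * e := h2 e' h1'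
  have hp : (e * e') * (e * e') = e * e' := by
    calc (e * e') * (e * e') = e * (e' * e) * e' := by noncomm_ring
      _ = e * (e * e') * e' := by rw [← hc]
      _ = (e * e) * (e' * e') := by noncomm_ring
      _ = e * e' := by rw [h3, h3']
  obtain ⟨n, _, hn⟩ := idem_trace_nat hp
  have hq : (e - e * e') * (e - e * e') = e - e * e' := by
    have a1 : e * (e * e') = e * e' := by rw [← mul_assoc, h3]
    have a2 : (e * e') * e = e * e' := by rw [mul_assoc, ← hc, a1]
    rw [mul_sub, sub_mul, sub_mul, h3, a1, a2, hp]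
    abel
  have hq' : (e' - e * e') * (e' - e * e') = e' - e * e' := by
    have a1 : e' * (e * e') = e * e' := by rw [hc, ← mul_assoc, h3']
    have a2 : (e * e') * e' = e * e' := by rw [mul_assoc, h3']
    rw [mul_sub, sub_mul, sub_mul, h3', a1, a2, hp]
    abel
  obtain ⟨m, _, hm⟩ := idem_trace_nat hq
  rw [Matrix.trace_sub, h4, hn] at hm
  have hnm : n = 0 ∨ n = 1 := by
    have h5 : (1 : ℝ) = m + n := by linarith
    have h6 : 1 = m + n := by exact_mod_cast h5
    omega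
  rcases hnm with rfl | rfl
  · exact idem_trace_zero hp (by rw [hn]; simp)
  · exfalso
    have h5 : e - e * e' = 0 := idem_trace_zero hq (by rw [Matrix.trace_sub, h4, hn]; simp)
    have h6 : e' - e * e' = 0 := idem_trace_zero hq' (by rw [Matrix.trace_sub, h4', hn]; simp)
    exact hne ((sub_eq_zero.mp h5).trans (sub_eq_zero.mp h6).symm)

end Pool.Agent.Helper64.BC
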