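import Pool.Agent.Helper64.BC.Alg

/-!
# Irreducible Lie algebras of complex 3 by 3 matrices containing a regular diagonal matrix
-/

set_option autoImplicit false

namespace Pool.Agent.Helper64.BC

open Matrix

/-- Complex 3 by 3 matrices. -/
abbrev C3 := Matrix (Fin 3) (Fin 3) ℂ

/-- Components of an element for the eigenvalues of an endomorphism. -/
theorem mem_of_sum {V : Type*} [AddCommGroup V] [Module ℂ V] (f : V →ₗ[ℂ] V) (S : Submodule ℂ V)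
    (hS : ∀ z ∈ S, f z ∈ S) {ι : Type*} [DecidableEq ι] (s : Finset ι) (lam : ι → ℂ) :
    Set.InjOn lam s → ∀ z : ι → V, (∀ k ∈ s, f (z k) = lam k • z k) → ∑ k ∈ s, z k ∈ S →
      ∀ k ∈ s, z k ∈ S := by
  induction s using Finset.induction_on with
  | empty => intro _ z _ _ k hk; simp at hk
  | insert k0 s hk0 ih =>
    intro hl z hz hsum
    have h1 : ∑ k ∈ s, (lam k - lam k0) • z k ∈ S := by
      have h2 : ∑ k ∈ s, (lam k - lam k0) • z k =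
          f (∑ k ∈ insert k0 s, z k) - lam k0 • ∑ k ∈ insert k0 s, z k := by
        rw [map_sum, Finset.smul_sum, ← Finset.sum_sub_distrib, Finset.sum_insert hk0,
          hz k0 (Finset.mem_insert_self _ _), sub_self, zero_add]
        refine Finset.sum_congr rfl fun k hk => ?_
        rw [hz k (Finset.mem_insert_of_mem hk), sub_smul]
      rw [h2]
      exact S.sub_mem (hS _ hsum) (S.smul_mem _ hsum)
    have h3 := ih (hl.mono (by intro x hx; exact Finset.mem_insert_of_mem hx))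
      (fun k => (lam k - lam k0) • z k)
      (fun k hk => by rw [map_smul, hz k (Finset.mem_insert_of_mem hk), smul_comm]) h1
    have h4 : ∀ k ∈ s, z k ∈ S := by
      intro k hk
      have hne : lam k - lam k0 ≠ 0 := by
        intro h0
        have := hl (Finset.mem_insert_of_mem hk) (Finset.mem_insert_self _ _) (sub_eq_zero.mp h0)
        exact hk0 (this ▸ hk)
      have h5 := S.smul_mem (lam k - lam k0)⁻¹ (h3 k hk)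
      rwa [smul_smul, inv_mul_cancel₀ hne, one_smul] at h5
    intro k hk
    rcases Finset.mem_insert.mp hk with rfl | hk
    · rw [Finset.sum_insert hk0] at hsum
      have h5 := S.sub_mem hsum (S.sum_mem h4)
      rwa [add_sub_cancel_right] at h5
    · exact h4 k hk

/-- The commutator with `D`. -/
def adm (D : C3) : C3 →ₗ[ℂ] C3 where
  toFun := fun Z => D * Z - Z * D
  map_add' := fun a b => by rw [mul_add, add_mul]; abel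
  map_smul' := fun c a => by
    rw [mul_smul_comm, smul_mul_assoc, ← smul_sub]
    rfl

theorem adm_apply (D Z : C3) : adm D Z = D * Z - Z * D := rfl

theorem extract1 (S : Submodule ℂ C3) (hb : ∀ Y ∈ S, ∀ Z ∈ S, Y * Z - Z * Y ∈ S) (a b c : ℂ)
    (ha : a ≠ 0) (hb0 : b ≠ 0) (hc : c ≠ 0) (hab : a ≠ b) (hbc : b ≠ c) (hac : a ≠ c)
    (hsum : a + b + c = 0) (hD : !![a, 0, 0; 0, b, 0; 0, 0, c] ∈ S) (Z : C3) (hZ : Z ∈ S) :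
    !![0, Z 0 1, 0; 0, 0, 0; 0, 0, 0] ∈ S ∧ !![0, 0, Z 0 2; 0, 0, 0; 0, 0, 0] ∈ S ∧
    !![0, 0, 0; Z 1 0, 0, 0; 0, 0, 0] ∈ S ∧ !![0, 0, 0; 0, 0, Z 1 2; 0, 0, 0] ∈ S ∧
    !![0, 0, 0; 0, 0, 0; Z 2 0, 0, 0] ∈ S ∧ !![0, 0, 0; 0, 0, 0; 0, Z 2 1, 0] ∈ S := by
  let z : Fin 7 → C3 := ![!![0, Z 0 1, 0; 0, 0, 0; 0, 0, 0], !![0, 0, Z 0 2; 0, 0, 0; 0, 0, 0],
    !![0, 0, 0; Z 1 0, 0, 0; 0, 0, 0], !![0, 0, 0; 0, 0, Z 1 2; 0, 0, 0],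
    !![0, 0, 0; 0, 0, 0; Z 2 0, 0, 0], !![0, 0, 0; 0, 0, 0; 0, Z 2 1, 0],
    !![Z 0 0, 0, 0; 0, Z 1 1, 0; 0, 0, Z 2 2]]
  let lam : Fin 7 → ℂ := ![a - b, a - c, b - a, b - c, c - a, c - b, 0]
  have hinj : Function.Injective lam := by
    intro i j hij
    fin_cases i <;> fin_cases j <;> simp [lam] at hij ⊢ <;> grind
  have key := mem_of_sum (adm !![a, 0, 0; 0, b, 0; 0, 0, c]) S
    (fun Y hY => by rw [adm_apply]; exact hb _ hD _ hY) Finset.univ lam hinj.injOn z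
    (by
      intro k _
      rw [adm_apply]
      fin_cases k <;> ext i j <;> fin_cases i <;> fin_cases j <;>
        simp [z, lam, Matrix.mul_apply, Fin.sum_univ_three] <;> ring)
    (by
      have : ∑ k ∈ Finset.univ, z k = Z := by
        ext i j
        fin_cases i <;> fin_cases j <;> simp [z, Fin.sum_univ_succ]
      rw [this]
      exact hZ)
  exact ⟨key 0 (Finset.mem_univ _), key 1 (Finset.mem_univ _), key 2 (Finset.mem_univ _),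
    key 3 (Finset.mem_univ _), key 4 (Finset.mem_univ _), key 5 (Finset.mem_univ _)⟩

/-- No coordinate subspace is invariant. -/
structure NoCoord (S : Submodule ℂ C3) : Prop where
  c0 : ∃ Z ∈ S, Z 1 0 ≠ 0 ∨ Z 2 0 ≠ 0
  c1 : ∃ Z ∈ S, Z 0 1 ≠ 0 ∨ Z 2 1 ≠ 0
  c2 : ∃ Z ∈ S, Z 0 2 ≠ 0 ∨ Z 1 2 ≠ 0
  r0 : ∃ Z ∈ S, Z 0 1 ≠ 0 ∨ Z 0 2 ≠ 0
  r1 : ∃ Z ∈ S, Z 1 0 ≠ 0 ∨ Z 1 2 ≠ 0
  r2 : ∃ Z ∈ S, Z 2 0 ≠ 0 ∨ Z 2 1 ≠ 0

theorem smul_inv_mem {S : Submodule ℂ C3} {c : ℂ} (hc : c ≠ 0) {Y Z : C3} (h : Y ∈ S)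
    (he : Y = c • Z) : Z ∈ S := by
  have := S.smul_mem c⁻¹ h
  rwa [he, smul_smul, inv_mul_cancel₀ hc, one_smul] at this

theorem prop6 (p01 p02 p10 p12 p20 p21 : Prop) (k1 : p01 → p12 → p02) (k2 : p02 → p21 → p01)
    (k3 : p10 → p02 → p12) (k4 : p12 → p20 → p10) (k5 : p20 → p01 → p21) (k6 : p21 → p10 → p20)
    (m0 : p10 ∨ p20) (m1 : p01 ∨ p21) (m2 : p02 ∨ p12) (m3 : p01 ∨ p02) (m4 : p10 ∨ p12)
    (m5 : p20 ∨ p21) : p01 ∧ p02 ∧ p10 ∧ p12 ∧ p20 ∧ p21 := by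
  grind

/-- The regular case: all elementary matrices are in the Lie algebra. -/
theorem case1 (S : Submodule ℂ C3) (hb : ∀ Y ∈ S, ∀ Z ∈ S, Y * Z - Z * Y ∈ S) (a b c : ℂ)
    (ha : a ≠ 0) (hb0 : b ≠ 0) (hc : c ≠ 0) (hab : a ≠ b) (hbc : b ≠ c) (hac : a ≠ c)
    (hsum : a + b + c = 0) (hD : !![a, 0, 0; 0, b, 0; 0, 0, c] ∈ S) (hN : NoCoord S) :
    !![0, 1, 0; 0, 0, 0; 0, 0, 0] ∈ S ∧ !![0, 0, 1; 0, 0, 0; 0, 0, 0] ∈ S ∧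
    !![0, 0, 0; 1, 0, 0; 0, 0, 0] ∈ S ∧ !![0, 0, 0; 0, 0, 1; 0, 0, 0] ∈ S ∧
    !![0, 0, 0; 0, 0, 0; 1, 0, 0] ∈ S ∧ !![0, 0, 0; 0, 0, 0; 0, 1, 0] ∈ S := by
  have hx := fun Z hZ => extract1 S hb a b c ha hb0 hc hab hbc hac hsum hD Z hZ
  have h01 : ∀ Z ∈ S, Z 0 1 ≠ 0 → (!![0, 1, 0; 0, 0, 0; 0, 0, 0] : C3) ∈ S := fun Z hZ h =>
    smul_inv_mem h (hx Z hZ).1 (by ext i j; fin_cases i <;> fin_cases j <;> simp)
  have h02 : ∀ Z ∈ S, Z 0 2 ≠ 0 → (!![0, 0, 1; 0, 0, 0; 0, 0, 0] : C3) ∈ S := fun Z hZ h =>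
    smul_inv_mem h (hx Z hZ).2.1 (by ext i j; fin_cases i <;> fin_cases j <;> simp)
  have h10 : ∀ Z ∈ S, Z 1 0 ≠ 0 → (!![0, 0, 0; 1, 0, 0; 0, 0, 0] : C3) ∈ S := fun Z hZ h =>
    smul_inv_mem h (hx Z hZ).2.2.1 (by ext i j; fin_cases i <;> fin_cases j <;> simp)
  have h12 : ∀ Z ∈ S, Z 1 2 ≠ 0 → (!![0, 0, 0; 0, 0, 1; 0, 0, 0] : C3) ∈ S := fun Z hZ h =>
    smul_inv_mem h (hx Z hZ).2.2.2.1 (by ext i j; fin_cases i <;> fin_cases j <;> simp)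
  have h20 : ∀ Z ∈ S, Z 2 0 ≠ 0 → (!![0, 0, 0; 0, 0, 0; 1, 0, 0] : C3) ∈ S := fun Z hZ h =>
    smul_inv_mem h (hx Z hZ).2.2.2.2.1 (by ext i j; fin_cases i <;> fin_cases j <;> simp)
  have h21 : ∀ Z ∈ S, Z 2 1 ≠ 0 → (!![0, 0, 0; 0, 0, 0; 0, 1, 0] : C3) ∈ S := fun Z hZ h =>
    smul_inv_mem h (hx Z hZ).2.2.2.2.2 (by ext i j; fin_cases i <;> fin_cases j <;> simp)
  have k1 : (!![0, 1, 0; 0, 0, 0; 0, 0, 0] : C3) ∈ S → (!![0, 0, 0; 0, 0, 1; 0, 0, 0] : C3) ∈ S → (!![0, 0, 1; 0, 0, 0; 0, 0, 0] : C3) ∈ S := fun h h' => by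
    have := hb _ h _ h'
    have he : (!![0, 1, 0; 0, 0, 0; 0, 0, 0] : C3) * (!![0, 0, 0; 0, 0, 1; 0, 0, 0] : C3) - (!![0, 0, 0; 0, 0, 1; 0, 0, 0] : C3) * (!![0, 1, 0; 0, 0, 0; 0, 0, 0] : C3) = (!![0, 0, 1; 0, 0, 0; 0, 0, 0] : C3) := by
      ext i j; fin_cases i <;> fin_cases j <;> simp
    rwa [he] at this
  have k2 : (!![0, 0, 1; 0, 0, 0; 0, 0, 0] : C3) ∈ S → (!![0, 0, 0; 0, 0, 0; 0, 1, 0] : C3) ∈ S → (!![0, 1, 0; 0, 0, 0; 0, 0, 0] : C3) ∈ S := fun h h' => by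
    have := hb _ h _ h'
    have he : (!![0, 0, 1; 0, 0, 0; 0, 0, 0] : C3) * (!![0, 0, 0; 0, 0, 0; 0, 1, 0] : C3) - (!![0, 0, 0; 0, 0, 0; 0, 1, 0] : C3) * (!![0, 0, 1; 0, 0, 0; 0, 0, 0] : C3) = (!![0, 1, 0; 0, 0, 0; 0, 0, 0] : C3) := by
      ext i j; fin_cases i <;> fin_cases j <;> simp
    rwa [he] at this
  have k3 : (!![0, 0, 0; 1, 0, 0; 0, 0, 0] : C3) ∈ S → (!![0, 0, 1; 0, 0, 0; 0, 0, 0] : C3) ∈ S → (!![0, 0, 0; 0, 0, 1; 0, 0, 0] : C3) ∈ S := fun h h' => by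
    have := hb _ h _ h'
    have he : (!![0, 0, 0; 1, 0, 0; 0, 0, 0] : C3) * (!![0, 0, 1; 0, 0, 0; 0, 0, 0] : C3) - (!![0, 0, 1; 0, 0, 0; 0, 0, 0] : C3) * (!![0, 0, 0; 1, 0, 0; 0, 0, 0] : C3) = (!![0, 0, 0; 0, 0, 1; 0, 0, 0] : C3) := by
      ext i j; fin_cases i <;> fin_cases j <;> simp
    rwa [he] at this
  have k4 : (!![0, 0, 0; 0, 0, 1; 0, 0, 0] : C3) ∈ S → (!![0, 0, 0; 0, 0, 0; 1, 0, 0] : C3) ∈ S → (!![0, 0, 0; 1, 0, 0; 0, 0, 0] : C3) ∈ S := fun h h' => by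
    have := hb _ h _ h'
    have he : (!![0, 0, 0; 0, 0, 1; 0, 0, 0] : C3) * (!![0, 0, 0; 0, 0, 0; 1, 0, 0] : C3) - (!![0, 0, 0; 0, 0, 0; 1, 0, 0] : C3) * (!![0, 0, 0; 0, 0, 1; 0, 0, 0] : C3) = (!![0, 0, 0; 1, 0, 0; 0, 0, 0] : C3) := by
      ext i j; fin_cases i <;> fin_cases j <;> simp
    rwa [he] at this
  have k5 : (!![0, 0, 0; 0, 0, 0; 1, 0, 0] : C3) ∈ S → (!![0, 1, 0; 0, 0, 0; 0, 0, 0] : C3) ∈ S → (!![0, 0, 0; 0, 0, 0; 0, 1, 0] : C3) ∈ S := fun h h' => by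
    have := hb _ h _ h'
    have he : (!![0, 0, 0; 0, 0, 0; 1, 0, 0] : C3) * (!![0, 1, 0; 0, 0, 0; 0, 0, 0] : C3) - (!![0, 1, 0; 0, 0, 0; 0, 0, 0] : C3) * (!![0, 0, 0; 0, 0, 0; 1, 0, 0] : C3) = (!![0, 0, 0; 0, 0, 0; 0, 1, 0] : C3) := by
      ext i j; fin_cases i <;> fin_cases j <;> simp
    rwa [he] at this
  have k6 : (!![0, 0, 0; 0, 0, 0; 0, 1, 0] : C3) ∈ S → (!![0, 0, 0; 1, 0, 0; 0, 0, 0] : C3) ∈ S → (!![0, 0, 0; 0, 0, 0; 1, 0, 0] : C3) ∈ S := fun h h' => by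
    have := hb _ h _ h'
    have he : (!![0, 0, 0; 0, 0, 0; 0, 1, 0] : C3) * (!![0, 0, 0; 1, 0, 0; 0, 0, 0] : C3) - (!![0, 0, 0; 1, 0, 0; 0, 0, 0] : C3) * (!![0, 0, 0; 0, 0, 0; 0, 1, 0] : C3) = (!![0, 0, 0; 0, 0, 0; 1, 0, 0] : C3) := by
      ext i j; fin_cases i <;> fin_cases j <;> simp
    rwa [he] at this
  obtain ⟨Z0, hZ0, hz0⟩ := hN.c0
  obtain ⟨Z1, hZ1, hz1⟩ := hN.c1
  obtain ⟨Z2, hZ2, hz2⟩ := hN.c2
  obtain ⟨Z3, hZ3, hz3⟩ := hN.r0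
  obtain ⟨Z4, hZ4, hz4⟩ := hN.r1
  obtain ⟨Z5, hZ5, hz5⟩ := hN.r2
  have m0 : (!![0, 0, 0; 1, 0, 0; 0, 0, 0] : C3) ∈ S ∨ (!![0, 0, 0; 0, 0, 0; 1, 0, 0] : C3) ∈ S := hz0.imp (h10 Z0 hZ0) (h20 Z0 hZ0)
  have m1 : (!![0, 1, 0; 0, 0, 0; 0, 0, 0] : C3) ∈ S ∨ (!![0, 0, 0; 0, 0, 0; 0, 1, 0] : C3) ∈ S := hz1.imp (h01 Z1 hZ1) (h21 Z1 hZ1)
  have m2 : (!![0, 0, 1; 0, 0, 0; 0, 0, 0] : C3) ∈ S ∨ (!![0, 0, 0; 0, 0, 1; 0, 0, 0] : C3) ∈ S := hz2.imp (h02 Z2 hZ2) (h12 Z2 hZ2)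
  have m3 : (!![0, 1, 0; 0, 0, 0; 0, 0, 0] : C3) ∈ S ∨ (!![0, 0, 1; 0, 0, 0; 0, 0, 0] : C3) ∈ S := hz3.imp (h01 Z3 hZ3) (h02 Z3 hZ3)
  have m4 : (!![0, 0, 0; 1, 0, 0; 0, 0, 0] : C3) ∈ S ∨ (!![0, 0, 0; 0, 0, 1; 0, 0, 0] : C3) ∈ S := hz4.imp (h10 Z4 hZ4) (h12 Z4 hZ4)
  have m5 : (!![0, 0, 0; 0, 0, 0; 1, 0, 0] : C3) ∈ S ∨ (!![0, 0, 0; 0, 0, 0; 0, 1, 0] : C3) ∈ S := hz5.imp (h20 Z5 hZ5) (h21 Z5 hZ5)
  exact prop6 _ _ _ _ _ _ k1 k2 k3 k4 k5 k6 m0 m1 m2 m3 m4 m5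

/-- Components for the matrix `diag (1, 0, -1)`. -/
theorem extract2 (S : Submodule ℂ C3) (hb : ∀ Y ∈ S, ∀ Z ∈ S, Y * Z - Z * Y ∈ S)
    (hD : !![1, 0, 0; 0, 0, 0; 0, 0, -1] ∈ S) (Z : C3) (hZ : Z ∈ S) :
    !![0, Z 0 1, 0; 0, 0, Z 1 2; 0, 0, 0] ∈ S ∧ !![0, 0, 0; Z 1 0, 0, 0; 0, Z 2 1, 0] ∈ S ∧
    !![0, 0, Z 0 2; 0, 0, 0; 0, 0, 0] ∈ S ∧ !![0, 0, 0; 0, 0, 0; Z 2 0, 0, 0] ∈ S := by
  let z : Fin 5 → C3 := ![!![0, Z 0 1, 0; 0, 0, Z 1 2; 0, 0, 0],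
    !![0, 0, 0; Z 1 0, 0, 0; 0, Z 2 1, 0],
    !![0, 0, Z 0 2; 0, 0, 0; 0, 0, 0], !![0, 0, 0; 0, 0, 0; Z 2 0, 0, 0],
    !![Z 0 0, 0, 0; 0, Z 1 1, 0; 0, 0, Z 2 2]]
  let lam : Fin 5 → ℂ := ![1, -1, 2, -2, 0]
  have hinj : Function.Injective lam := by
    intro i j hij
    fin_cases i <;> fin_cases j <;> simp [lam] at hij ⊢ <;> norm_num at hij
  have key := mem_of_sum (adm !![1, 0, 0; 0, 0, 0; 0, 0, -1]) S
    (fun Y hY => by rw [adm_apply]; exact hb _ hD _ hY) Finset.univ lam hinj.injOn z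
    (by
      intro k _
      rw [adm_apply]
      fin_cases k <;> ext i j <;> fin_cases i <;> fin_cases j <;>
        simp [z, lam] <;> ring)
    (by
      have : ∑ k ∈ Finset.univ, z k = Z := by
        ext i j
        fin_cases i <;> fin_cases j <;> simp [z, Fin.sum_univ_succ]
      rw [this]
      exact hZ)
  exact ⟨key 0 (Finset.mem_univ _), key 1 (Finset.mem_univ _), key 2 (Finset.mem_univ _),
    key 3 (Finset.mem_univ _)⟩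

/-- The singular case: an invariant form. -/
theorem case2 (S : Submodule ℂ C3) (hb : ∀ Y ∈ S, ∀ Z ∈ S, Y * Z - Z * Y ∈ S)
    (htr : ∀ Z ∈ S, Z.trace = 0)
    (ht : ∀ X ∈ S, ∀ Y ∈ S, ∀ Z ∈ S, (X * Y * Z).trace + (X * Z * Y).trace = 0)
    (hD : !![1, 0, 0; 0, 0, 0; 0, 0, -1] ∈ S) (hN : NoCoord S) :
    ∃ Q : C3, Q ≠ 0 ∧ ∀ Z ∈ S, Zᵀ * Q + Q * Z = 0 := by
  have hx := fun Z hZ => extract2 S hb hD Z hZ
  -- relations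
  have R1 : ∀ α β α' β' : ℂ, !![0, α, 0; 0, 0, β; 0, 0, 0] ∈ S →
      !![0, 0, 0; α', 0, 0; 0, β', 0] ∈ S → α * α' = β * β' := by
    intro α β α' β' h h'
    have h1 := ht _ hD _ h _ h'
    simp [Matrix.trace_fin_three] at h1
    linear_combination h1
  have R4p : !![0, 0, 1; 0, 0, 0; 0, 0, 0] ∈ S → ∀ α' β' : ℂ,
      !![0, 0, 0; α', 0, 0; 0, β', 0] ∈ S → !![0, β', 0; 0, 0, -α'; 0, 0, 0] ∈ S := by
    intro h α' β' h'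
    have h1 := hb _ h _ h'
    have he : (!![0, 0, 1; 0, 0, 0; 0, 0, 0] : C3) * !![0, 0, 0; α', 0, 0; 0, β', 0] -
        !![0, 0, 0; α', 0, 0; 0, β', 0] * !![0, 0, 1; 0, 0, 0; 0, 0, 0] =
        !![0, β', 0; 0, 0, -α'; 0, 0, 0] := by
      ext i j; fin_cases i <;> fin_cases j <;> simp
    rwa [he] at h1
  have R4m : !![0, 0, 0; 0, 0, 0; 1, 0, 0] ∈ S → ∀ α β : ℂ,
      !![0, α, 0; 0, 0, β; 0, 0, 0] ∈ S → !![0, 0, 0; -β, 0, 0; 0, α, 0] ∈ S := by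
    intro h α β h'
    have h1 := hb _ h _ h'
    have he : (!![0, 0, 0; 0, 0, 0; 1, 0, 0] : C3) * !![0, α, 0; 0, 0, β; 0, 0, 0] -
        !![0, α, 0; 0, 0, β; 0, 0, 0] * !![0, 0, 0; 0, 0, 0; 1, 0, 0] =
        !![0, 0, 0; -β, 0, 0; 0, α, 0] := by
      ext i j; fin_cases i <;> fin_cases j <;> simp
    rwa [he] at h1
  have R5 : ∀ α β γ δ : ℂ, !![0, α, 0; 0, 0, β; 0, 0, 0] ∈ S →
      !![0, γ, 0; 0, 0, δ; 0, 0, 0] ∈ S → !![0, 0, α * δ - γ * β; 0, 0, 0; 0, 0, 0] ∈ S := by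
    intro α β γ δ h h'
    have h1 := hb _ h _ h'
    have he : (!![0, α, 0; 0, 0, β; 0, 0, 0] : C3) * !![0, γ, 0; 0, 0, δ; 0, 0, 0] -
        !![0, γ, 0; 0, 0, δ; 0, 0, 0] * !![0, α, 0; 0, 0, β; 0, 0, 0] =
        !![0, 0, α * δ - γ * β; 0, 0, 0; 0, 0, 0] := by
      ext i j; fin_cases i <;> fin_cases j <;> simp
    rwa [he] at h1
  have hP : ∀ c : ℂ, c ≠ 0 → !![0, 0, c; 0, 0, 0; 0, 0, 0] ∈ S →
      (!![0, 0, 1; 0, 0, 0; 0, 0, 0] : C3) ∈ S := fun c hc h =>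
    smul_inv_mem hc h (by ext i j; fin_cases i <;> fin_cases j <;> simp)
  have hM : ∀ c : ℂ, c ≠ 0 → !![0, 0, 0; 0, 0, 0; c, 0, 0] ∈ S →
      (!![0, 0, 0; 0, 0, 0; 1, 0, 0] : C3) ∈ S := fun c hc h =>
    smul_inv_mem hc h (by ext i j; fin_cases i <;> fin_cases j <;> simp)
  -- `E02` is not in `S`
  have np : (!![0, 0, 1; 0, 0, 0; 0, 0, 0] : C3) ∉ S := by
    intro hp
    have hLex : ∃ α' β' : ℂ, !![0, 0, 0; α', 0, 0; 0, β', 0] ∈ S ∧ (α' ≠ 0 ∨ β' ≠ 0) := by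
      obtain ⟨Z, hZ, hz⟩ := hN.r2
      rcases hz with hz | hz
      · obtain ⟨W, hW, hw⟩ := hN.c1
        rcases hw with hw | hw
        · exact ⟨_, _, R4m (hM _ hz (hx Z hZ).2.2.2) _ _ (hx W hW).1, Or.inr hw⟩
        · exact ⟨_, _, (hx W hW).2.1, Or.inr hw⟩
      · exact ⟨_, _, (hx Z hZ).2.1, Or.inr hz⟩
    obtain ⟨α', β', hL, hne⟩ := hLex
    have hU := R4p hp α' β' hL
    have hab : α' * β' = 0 := by
      have := R1 _ _ _ _ hU hL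
      linear_combination (1 / 2) * this
    rcases hne with hα | hβ
    · have hβ : β' = 0 := (mul_eq_zero.mp hab).resolve_left hα
      subst hβ
      obtain ⟨Z, hZ, hz⟩ := hN.c1
      have h1 := R1 _ _ _ _ (hx Z hZ).1 hL
      have h2 := R1 _ _ _ _ hU (hx Z hZ).2.1
      rcases hz with hz | hz
      · rw [mul_zero] at h1
        exact (mul_ne_zero hz hα) h1
      · rw [zero_mul] at h2
        exact (mul_ne_zero (neg_ne_zero.mpr hα) hz) h2.symm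
    · have hα : α' = 0 := (mul_eq_zero.mp hab).resolve_right hβ
      subst hα
      obtain ⟨Z, hZ, hz⟩ := hN.r1
      have h1 := R1 _ _ _ _ (hx Z hZ).1 hL
      have h2 := R1 _ _ _ _ hU (hx Z hZ).2.1
      rcases hz with hz | hz
      · rw [neg_zero, zero_mul] at h2
        exact (mul_ne_zero hβ hz) h2
      · rw [mul_zero] at h1
        exact (mul_ne_zero hz hβ) h1.symm
  have z02 : ∀ Z ∈ S, Z 0 2 = 0 := by
    intro Z hZ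
    by_contra h
    exact np (hP _ h (hx Z hZ).2.2.1)
  -- `E20` is not in `S`
  have nm : (!![0, 0, 0; 0, 0, 0; 1, 0, 0] : C3) ∉ S := by
    intro hm
    obtain ⟨Z, hZ, hz⟩ := hN.r0
    have hα : Z 0 1 ≠ 0 := hz.resolve_right (fun h => h (z02 Z hZ))
    have hL := R4m hm _ _ (hx Z hZ).1
    have h1 := R1 _ _ _ _ (hx Z hZ).1 hL
    have hβ : Z 1 2 = 0 := by
      have h2 : Z 0 1 * Z 1 2 = 0 := by linear_combination (-1 / 2) * h1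
      exact (mul_eq_zero.mp h2).resolve_left hα
    obtain ⟨W, hW, hw⟩ := hN.c2
    have hw' : W 1 2 ≠ 0 := hw.resolve_left (fun h => h (z02 W hW))
    have h3 := R1 _ _ _ _ (hx W hW).1 hL
    rw [hβ, neg_zero, mul_zero] at h3
    exact (mul_ne_zero hw' hα) h3.symm
  have z20 : ∀ Z ∈ S, Z 2 0 = 0 := by
    intro Z hZ
    by_contra h
    exact nm (hM _ h (hx Z hZ).2.2.2)
  obtain ⟨Z1, hZ1, hz1⟩ := hN.r0
  have hα : Z1 0 1 ≠ 0 := hz1.resolve_right (fun h => h (z02 Z1 hZ1))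
  have hprop : ∀ Z ∈ S, Z1 0 1 * Z 1 2 = Z 0 1 * Z1 1 2 := by
    intro Z hZ
    by_contra h
    exact np (hP _ (sub_ne_zero.mpr h) (R5 _ _ _ _ (hx Z1 hZ1).1 (hx Z hZ).1))
  have hβ : Z1 1 2 ≠ 0 := by
    obtain ⟨Z2, hZ2, hz2⟩ := hN.c2
    have hδ : Z2 1 2 ≠ 0 := hz2.resolve_left (fun h => h (z02 Z2 hZ2))
    intro h0
    have h1 := hprop Z2 hZ2
    rw [h0, mul_zero] at h1
    exact (mul_ne_zero hα hδ) h1
  refine ⟨!![0, 0, Z1 1 2; 0, -Z1 0 1, 0; Z1 1 2, 0, 0], ?_, ?_⟩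
  · intro h
    have := congrFun (congrFun h 0) 2
    simp at this
    exact hβ this
  · intro Z hZ
    have e1 := hprop Z hZ
    have e2 := R1 _ _ _ _ (hx Z1 hZ1).1 (hx Z hZ).2.1
    have e3 := z02 Z hZ
    have e4 := z20 Z hZ
    have e5 : Z 0 0 + Z 2 2 = 0 := by
      have h1 := ht _ hD _ hD _ hZ
      simp only [Matrix.trace_fin_three, Matrix.mul_apply, Fin.sum_univ_three] at h1
      simp at h1
      linear_combination h1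
    have e6 : Z 1 1 = 0 := by
      have h1 := htr Z hZ
      rw [Matrix.trace_fin_three] at h1
      linear_combination h1 - e5
    ext i j
    rw [Matrix.add_apply, Matrix.mul_apply, Matrix.mul_apply, Fin.sum_univ_three,
      Fin.sum_univ_three]
    simp only [Matrix.transpose_apply, Matrix.zero_apply]
    fin_cases i <;> fin_cases j <;> simp [e3, e4, e6] <;>
      first
        | linear_combination e1
        | linear_combination -e1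
        | linear_combination e2
        | linear_combination -e2
        | linear_combination (Z1 1 2) * e5

end Pool.Agent.Helper64.BC
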