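import Pool.Graph.R_pool_sql_team_seeded_3997aac3.Q27.GT.Sec

/-!
# The permanence properties of the Baum–Connes property of `SL_3(ℝ)`-spaces

For `G = SL_3(ℝ)` let `BC A` say that the Baum–Connes assembly map of `G` with coefficients in
`C_0(A)` is an isomorphism, for the second countable locally compact Hausdorff `G`-spaces `A`.
The structure `Permanence` lists properties of `BC`, all of which are known theorems.
-/

set_option autoImplicit false

namespace Pool.Agent.Helper64.BC

open Filter Topology Set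
open scoped Matrix
open Pool.Agent.Q27.GS Pool.Agent.Q27.GT

/-- Real 3 by 3 matrices. -/
abbrev M3 := Matrix (Fin 3) (Fin 3) ℝ

/-- The group `SL_3(ℝ)`. -/
abbrev G3 := Matrix.SpecialLinearGroup (Fin 3) ℝ

/-- Two of three, for a closed invariant subspace and its complement. -/
def Excision {G : Type} [Group G] [TopologicalSpace G] (BC : GSp G → Prop) : Prop :=
  ∀ (Z A W : GSp G) (i : Z.X → A.X) (j : W.X → A.X), IsClosedEmbedding i →
    IsOpenEmbedding j → Equi Z A i → Equi W A j → range j = (range i)ᶜ →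
    (BC Z → BC A → BC W) ∧ (BC Z → BC W → BC A) ∧ (BC A → BC W → BC Z)

/-- `BC` holds for the spaces with a continuous equivariant map to `G ⧸ L`. -/
def Over (BC : GSp G3 → Prop) (L : Subgroup G3) : Prop :=
  ∀ A : GSp G3, (∃ p : A.X → G3 ⧸ L, Continuous p ∧ ∀ (g : G3) (x : A.X), p (g • x) = g • p x) →
    BC A

/-- The stabilizer of the line `ℝ e₀`: a maximal parabolic subgroup. -/
def lineStab : Subgroup G3 where
  carrier := {g | ∃ c : ℝ, (g : M3) *ᵥ Pi.single 0 1 = c • Pi.single 0 1}
  mul_mem' := by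
    rintro a b ⟨c, hc⟩ ⟨d, hd⟩
    refine ⟨c * d, ?_⟩
    rw [Matrix.SpecialLinearGroup.coe_mul, ← Matrix.mulVec_mulVec, hd, Matrix.mulVec_smul, hc,
      smul_smul, mul_comm]
  one_mem' := ⟨1, by
    have h1 : ((1 : G3) : M3) = 1 := rfl
    rw [h1, Matrix.one_mulVec, one_smul]⟩
  inv_mem' := by
    rintro a ⟨c, hc⟩
    have hinv : ((a⁻¹ : G3) : M3) * (a : M3) = 1 := by
      rw [← Matrix.SpecialLinearGroup.coe_mul, inv_mul_cancel]; rfl
    have h1 : ((a⁻¹ : G3) : M3) *ᵥ ((a : M3) *ᵥ Pi.single 0 1) = Pi.single 0 1 := by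
      rw [Matrix.mulVec_mulVec, hinv, Matrix.one_mulVec]
    rw [hc, Matrix.mulVec_smul] at h1
    have hc0 : c ≠ 0 := by
      rintro rfl
      have := congrFun h1 0
      simp at this
    refine ⟨c⁻¹, ?_⟩
    rw [← h1, smul_smul, inv_mul_cancel₀ hc0, one_smul, h1]

/-- The stabilizer of the plane spanned by `e₀` and `e₁`: a maximal parabolic subgroup. -/
def planeStab : Subgroup G3 where
  carrier := {g | ∃ c : ℝ, Pi.single 2 1 ᵥ* (g : M3) = c • Pi.single 2 1}
  mul_mem' := by
    rintro a b ⟨c, hc⟩ ⟨d, hd⟩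
    refine ⟨c * d, ?_⟩
    rw [Matrix.SpecialLinearGroup.coe_mul, ← Matrix.vecMul_vecMul, hc, Matrix.smul_vecMul, hd,
      smul_smul]
  one_mem' := ⟨1, by
    have h1 : ((1 : G3) : M3) = 1 := rfl
    rw [h1, Matrix.vecMul_one, one_smul]⟩
  inv_mem' := by
    rintro a ⟨c, hc⟩
    have hinv : (a : M3) * ((a⁻¹ : G3) : M3) = 1 := by
      rw [← Matrix.SpecialLinearGroup.coe_mul, mul_inv_cancel]; rfl
    have h1 : (Pi.single 2 1 ᵥ* (a : M3)) ᵥ* ((a⁻¹ : G3) : M3) = Pi.single 2 1 := by
      rw [Matrix.vecMul_vecMul, hinv, Matrix.vecMul_one]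
    rw [hc, Matrix.smul_vecMul] at h1
    have hc0 : c ≠ 0 := by
      rintro rfl
      have := congrFun h1 2
      simp at this
    refine ⟨c⁻¹, ?_⟩
    rw [← h1, smul_smul, inv_mul_cancel₀ hc0, one_smul, h1]

/-- The normalizer of the algebra of the diagonal matrices (the group of the monomial matrices). -/
def diagNorm : Subgroup G3 where
  carrier := {g |
    (∀ d : Fin 3 → ℝ, ∃ d', (g : M3) * Matrix.diagonal d = Matrix.diagonal d' * (g : M3)) ∧
    ∀ d : Fin 3 → ℝ, ∃ d',
      ((g⁻¹ : G3) : M3) * Matrix.diagonal d = Matrix.diagonal d' * ((g⁻¹ : G3) : M3)}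
  mul_mem' := by
    rintro a b ⟨h1, h2⟩ ⟨h3, h4⟩
    constructor
    · intro d
      obtain ⟨d', hd'⟩ := h3 d
      obtain ⟨d'', hd''⟩ := h1 d'
      refine ⟨d'', ?_⟩
      rw [Matrix.SpecialLinearGroup.coe_mul, mul_assoc, hd', ← mul_assoc, hd'', mul_assoc]
    · intro d
      obtain ⟨d', hd'⟩ := h2 d
      obtain ⟨d'', hd''⟩ := h4 d'
      refine ⟨d'', ?_⟩
      rw [_root_.mul_inv_rev, Matrix.SpecialLinearGroup.coe_mul, mul_assoc, hd', ← mul_assoc,
        hd'', mul_assoc]
  one_mem' := ⟨fun d => ⟨d, by simp⟩, fun d => ⟨d, by simp⟩⟩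
  inv_mem' := by
    rintro a ⟨h1, h2⟩
    exact ⟨h2, by rw [inv_inv]; exact h1⟩

/-- The elements of `SL_3(ℝ)` which preserve the bilinear form with the matrix `ε`. -/
def formStab (ε : M3) : Subgroup G3 where
  carrier := {g | (g : M3)ᵀ * ε * (g : M3) = ε}
  mul_mem' := by
    intro a b ha hb
    change ((a * b : G3) : M3)ᵀ * ε * ((a * b : G3) : M3) = ε
    rw [Matrix.SpecialLinearGroup.coe_mul, Matrix.transpose_mul]
    calc (b : M3)ᵀ * (a : M3)ᵀ * ε * ((a : M3) * (b : M3))
        = (b : M3)ᵀ * ((a : M3)ᵀ * ε * (a : M3)) * (b : M3) := by noncomm_ring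
      _ = ε := by rw [ha]; exact hb
  one_mem' := by
    change ((1 : G3) : M3)ᵀ * ε * ((1 : G3) : M3) = ε
    have : ((1 : G3) : M3) = 1 := rfl
    rw [this, Matrix.transpose_one, one_mul, mul_one]
  inv_mem' := by
    intro a ha
    have hinv : (a : M3) * ((a⁻¹ : G3) : M3) = 1 := by
      rw [← Matrix.SpecialLinearGroup.coe_mul, mul_inv_cancel]; rfl
    have hinvT : ((a⁻¹ : G3) : M3)ᵀ * (a : M3)ᵀ = 1 := by
      rw [← Matrix.transpose_mul, hinv, Matrix.transpose_one]
    change ((a⁻¹ : G3) : M3)ᵀ * ε * ((a⁻¹ : G3) : M3) = ε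
    have ha' : (a : M3)ᵀ * ε * (a : M3) = ε := ha
    calc ((a⁻¹ : G3) : M3)ᵀ * ε * ((a⁻¹ : G3) : M3)
        = ((a⁻¹ : G3) : M3)ᵀ * ((a : M3)ᵀ * ε * (a : M3)) * ((a⁻¹ : G3) : M3) := by rw [ha']
      _ = (((a⁻¹ : G3) : M3)ᵀ * (a : M3)ᵀ) * ε * ((a : M3) * ((a⁻¹ : G3) : M3)) := by
          noncomm_ring
      _ = ε := by rw [hinv, hinvT, one_mul, mul_one]

/-- The permanence properties of the Baum–Connes property `BC`, for `G = SL_3(ℝ)`.
* `excision`: two of three, for a closed invariant subspace, the whole space and the complement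
  (the five lemma; `G` is exact).
* `trivialAction`: spaces on which `G` acts trivially (the conjecture holds for `G` with trivial
  coefficients, by Lafforgue, and the Künneth formula holds for both sides).
* the other properties: spaces over `G ⧸ L`, which are induced from `L`-spaces, for five closed
  subgroups `L` which satisfy the conjecture with arbitrary coefficients: the two maximal parabolic
  subgroups (extensions of an amenable group by `GL_2(ℝ)`), the normalizer of the diagonal
  matrices (amenable), `SO(3)` (compact) and `SO(1, 2)` (a-T-menable). -/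
structure Permanence (BC : GSp G3 → Prop) : Prop where
  excision : Excision BC
  trivialAction : ∀ A : GSp G3, (∀ (g : G3) (x : A.X), g • x = x) → BC A
  overLineStab : Over BC lineStab
  overPlaneStab : Over BC planeStab
  overDiagNorm : Over BC diagNorm
  overCompact : Over BC (formStab 1)
  overLorentz : Over BC (formStab (Matrix.diagonal ![1, -1, -1]))

/-- The points whose stabilizer is not discrete. -/
def nondiscretePart (A : GSp G3) : Set A.X :=
  {x | ¬ DiscreteTopology (MulAction.stabilizer G3 x)}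

end Pool.Agent.Helper64.BC
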