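import Mathlib

/-!
# Families of subspaces of a finite dimensional space: semicontinuity
-/

set_option autoImplicit false

namespace Pool.Agent.Helper64.BC

open Filter Topology

variable {X : Type*} [TopologicalSpace X] {E : Type*} [NormedAddCommGroup E] [NormedSpace ℝ E]

/-- Upper semicontinuity of a family of subspaces on `s`. -/
def Usc (s : Set X) (W : X → Submodule ℝ E) : Prop :=
  ∀ (u : ℕ → X) (x : X), (∀ n, u n ∈ s) → x ∈ s → Tendsto u atTop (𝓝 x) →
    ∀ (w : ℕ → E) (v : E), (∀ n, w n ∈ W (u n)) → Tendsto w atTop (𝓝 v) → v ∈ W x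

/-- Lower semicontinuity of a family of subspaces on `s`. -/
def Lsc (s : Set X) (W : X → Submodule ℝ E) : Prop :=
  ∀ (u : ℕ → X) (x : X), (∀ n, u n ∈ s) → x ∈ s → Tendsto u atTop (𝓝 x) →
    ∀ v ∈ W x, ∃ w : ℕ → E, (∀ n, w n ∈ W (u n)) ∧ Tendsto w atTop (𝓝 v)

theorem Usc.mono {s t : Set X} {W : X → Submodule ℝ E} (h : Usc s W) (hts : t ⊆ s) : Usc t W :=
  fun u x hu hx hux w v hw hv => h u x (fun n => hts (hu n)) (hts hx) hux w v hw hv

theorem Lsc.mono {s t : Set X} {W : X → Submodule ℝ E} (h : Lsc s W) (hts : t ⊆ s) : Lsc t W :=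
  fun u x hu hx hux v hv => h u x (fun n => hts (hu n)) (hts hx) hux v hv

variable [FiniteDimensional ℝ E]

/-- A sequence of unit vectors has a convergent subsequence. -/
theorem exists_unit_subseq (c : ℕ → E) (hc : ∀ n, ‖c n‖ = 1) :
    ∃ (a : E) (φ : ℕ → ℕ), StrictMono φ ∧ Tendsto (c ∘ φ) atTop (𝓝 a) ∧ ‖a‖ = 1 := by
  have : ProperSpace E := FiniteDimensional.proper ℝ E
  obtain ⟨a, ha, φ, hφ, h⟩ := (isCompact_sphere (0 : E) 1).tendsto_subseq (x := c)
    (fun n => by simp [hc n])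
  exact ⟨a, φ, hφ, h, by simpa using ha⟩

theorem exists_subseq_of_bdd (c : ℕ → E) (R : ℝ) (hc : ∀ n, ‖c n‖ ≤ R) :
    ∃ (a : E) (φ : ℕ → ℕ), StrictMono φ ∧ Tendsto (c ∘ φ) atTop (𝓝 a) := by
  have : ProperSpace E := FiniteDimensional.proper ℝ E
  obtain ⟨a, _, φ, hφ, h⟩ := (isCompact_closedBall (0 : E) R).tendsto_subseq (x := c)
    (fun n => by simpa using hc n)
  exact ⟨a, φ, hφ, h⟩

/-- A complement of the limit space meets the nearby spaces trivially. -/
theorem eventually_disjoint {s : Set X} {W : X → Submodule ℝ E} (h : Usc s W) {u : ℕ → X} {x : X}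
    (hu : ∀ n, u n ∈ s) (hx : x ∈ s) (hux : Tendsto u atTop (𝓝 x)) (C : Submodule ℝ E)
    (hC : Disjoint (W x) C) : ∀ᶠ n in atTop, Disjoint (W (u n)) C := by
  by_contra hcon
  rw [not_eventually] at hcon
  obtain ⟨ψ, hψ, hψ'⟩ := extraction_of_frequently_atTop hcon
  have hex : ∀ n, ∃ c : E, c ∈ W (u (ψ n)) ∧ c ∈ C ∧ ‖c‖ = 1 := by
    intro n
    have h1 := hψ' n
    rw [Submodule.disjoint_def] at h1
    push Not at h1
    obtain ⟨c, hc1, hc2, hc3⟩ := h1
    have hn : ‖c‖ ≠ 0 := norm_ne_zero_iff.mpr hc3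
    refine ⟨‖c‖⁻¹ • c, Submodule.smul_mem _ _ hc1, Submodule.smul_mem _ _ hc2, ?_⟩
    rw [norm_smul, norm_inv, norm_norm, inv_mul_cancel₀ hn]
  choose c hc1 hc2 hc3 using hex
  obtain ⟨a, φ, hφ, ha, ha1⟩ := exists_unit_subseq c hc3
  have haW : a ∈ W x := h (fun n => u (ψ (φ n))) x (fun n => hu _) hx
    (hux.comp ((hψ.comp hφ).tendsto_atTop)) (fun n => c (φ n)) a (fun n => hc1 _) ha
  have haC : a ∈ C := C.closed_of_finiteDimensional.mem_of_tendsto ha
    (Eventually.of_forall fun n => hc2 _)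
  have : a = 0 := by
    have := Submodule.disjoint_def.mp hC a haW haC
    exact this
  rw [this, norm_zero] at ha1
  exact one_ne_zero ha1.symm

/-- The dimension can only jump up in the limit. -/
theorem Usc.finrank {s : Set X} {W : X → Submodule ℝ E} (h : Usc s W) {u : ℕ → X} {x : X}
    (hu : ∀ n, u n ∈ s) (hx : x ∈ s) (hux : Tendsto u atTop (𝓝 x)) (i : ℕ)
    (hi : ∀ n, i ≤ Module.finrank ℝ (W (u n))) : i ≤ Module.finrank ℝ (W x) := by
  obtain ⟨C, hC⟩ := (W x).exists_isCompl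
  have hd := Submodule.finrank_add_eq_of_isCompl hC
  obtain ⟨n, hn⟩ := (eventually_disjoint h hu hx hux C hC.disjoint).exists
  have h1 := Submodule.finrank_add_finrank_le_of_disjoint hn
  have h2 := hi n
  omega

/-- With constant dimension upper semicontinuity implies lower semicontinuity. -/
theorem Usc.lsc {s : Set X} {W : X → Submodule ℝ E} (h : Usc s W) (i : ℕ)
    (hi : ∀ x ∈ s, Module.finrank ℝ (W x) = i) : Lsc s W := by
  intro u x hu hx hux v hv
  obtain ⟨C, hC⟩ := (W x).exists_isCompl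
  have hd := Submodule.finrank_add_eq_of_isCompl hC
  have hdis := eventually_disjoint h hu hx hux C hC.disjoint
  obtain ⟨N, hN⟩ := eventually_atTop.mp hdis
  have hcompl : ∀ n, N ≤ n → IsCompl (W (u n)) C := by
    intro n hn
    refine ⟨hN n hn, ?_⟩
    rw [codisjoint_iff]
    apply Submodule.eq_top_of_finrank_eq
    have h1 := Submodule.finrank_sup_add_finrank_inf_eq (W (u n)) C
    rw [(hN n hn).eq_bot, finrank_bot, add_zero, hi _ (hu n), ← hi x hx, hd] at h1
    exact h1
  have hex : ∀ n, ∃ w c : E, w ∈ W (u n) ∧ (N ≤ n → c ∈ C ∧ w + c = v) := by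
    intro n
    by_cases hn : N ≤ n
    · have h1 : v ∈ W (u n) ⊔ C := by
        rw [(hcompl n hn).sup_eq_top]; exact Submodule.mem_top
      obtain ⟨w, hw, c, hc, hwc⟩ := Submodule.mem_sup.mp h1
      exact ⟨w, c, hw, fun _ => ⟨hc, hwc⟩⟩
    · exact ⟨0, 0, Submodule.zero_mem _, fun hn' => absurd hn' hn⟩
  choose w c hw hwc using hex
  refine ⟨w, hw, ?_⟩
  -- it suffices that the `C`-parts tend to zero
  have key : Tendsto (fun n => c n) atTop (𝓝 0) := by
    rw [tendsto_zero_iff_norm_tendsto_zero]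
    by_contra hcon
    rw [Metric.tendsto_atTop] at hcon
    push Not at hcon
    obtain ⟨ε, hε, hcon⟩ := hcon
    have hfr : ∃ᶠ n in atTop, ε ≤ ‖c n‖ ∧ N ≤ n := by
      rw [frequently_atTop]
      intro a
      obtain ⟨n, hn, hn'⟩ := hcon (max a N)
      refine ⟨n, le_trans (le_max_left _ _) hn, ?_, le_trans (le_max_right _ _) hn⟩
      simpa using hn'
    obtain ⟨ψ, hψ, hψ'⟩ := extraction_of_frequently_atTop hfr
    have hpos : ∀ n, 0 < ‖c (ψ n)‖ := fun n => lt_of_lt_of_le hε (hψ' n).1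
    obtain ⟨a, φ, hφ, ha, ha1⟩ := exists_unit_subseq (fun n => ‖c (ψ n)‖⁻¹ • c (ψ n)) (fun n => by
      rw [norm_smul, norm_inv, norm_norm, inv_mul_cancel₀ (hpos n).ne'])
    -- the numbers `‖c‖⁻¹` are bounded, pass to a further subsequence
    obtain ⟨r, φ', hφ', hr⟩ := exists_subseq_of_bdd (fun n => ‖c (ψ (φ n))‖⁻¹) ε⁻¹ (fun n => by
      rw [norm_inv, norm_norm]
      exact inv_anti₀ hε (hψ' _).1)
    have haC : a ∈ C := C.closed_of_finiteDimensional.mem_of_tendsto ha
      (Eventually.of_forall fun n => Submodule.smul_mem _ _ ((hwc _ (hψ' _).2).1))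
    have ha' : Tendsto (fun n => ‖c (ψ (φ (φ' n)))‖⁻¹ • c (ψ (φ (φ' n)))) atTop (𝓝 a) :=
      ha.comp hφ'.tendsto_atTop
    have hw' : Tendsto (fun n => ‖c (ψ (φ (φ' n)))‖⁻¹ • w (ψ (φ (φ' n)))) atTop
        (𝓝 (r • v - a)) := by
      have h1 : Tendsto (fun n => ‖c (ψ (φ (φ' n)))‖⁻¹ • v - ‖c (ψ (φ (φ' n)))‖⁻¹ •
          c (ψ (φ (φ' n)))) atTop (𝓝 (r • v - a)) := (hr.smul_const v).sub ha'
      refine h1.congr fun n => ?_
      rw [← (hwc _ (hψ' (φ (φ' n))).2).2, smul_add, add_sub_cancel_right]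
    have hmem : r • v - a ∈ W x := h (fun n => u (ψ (φ (φ' n)))) x (fun n => hu _) hx
      (hux.comp (((hψ.comp hφ).comp hφ').tendsto_atTop)) _ _
      (fun n => Submodule.smul_mem _ _ (hw _)) hw'
    have haW : a ∈ W x := by
      have h1 : a = r • v - (r • v - a) := by abel
      rw [h1]
      exact Submodule.sub_mem _ (Submodule.smul_mem _ _ hv) hmem
    have : a = 0 := Submodule.disjoint_def.mp hC.disjoint a haW haC
    rw [this, norm_zero] at ha1
    exact one_ne_zero ha1.symm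
  have h1 : Tendsto (fun n => v - c n) atTop (𝓝 (v - 0)) := tendsto_const_nhds.sub key
  rw [sub_zero] at h1
  refine h1.congr' ?_
  filter_upwards [eventually_ge_atTop N] with n hn
  rw [← (hwc n hn).2, add_sub_cancel_right]

/-- The dimension can only jump down in the limit of a lower semicontinuous family. -/
theorem Lsc.eventually_le {s : Set X} {W : X → Submodule ℝ E} (h : Lsc s W) {u : ℕ → X} {x : X}
    (hu : ∀ n, u n ∈ s) (hx : x ∈ s) (hux : Tendsto u atTop (𝓝 x)) {ι : Type} [Fintype ι]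
    (b : ι → E) (hb : LinearIndependent ℝ b) (hbW : ∀ j, b j ∈ W x) :
    ∃ b' : ℕ → ι → E, (∀ n j, b' n j ∈ W (u n)) ∧ Tendsto b' atTop (𝓝 b) ∧
      ∀ᶠ n in atTop, LinearIndependent ℝ (b' n) := by
  have hex := fun j => h u x hu hx hux (b j) (hbW j)
  choose w hw hw' using hex
  refine ⟨fun n j => w j n, fun n j => hw j n, tendsto_pi_nhds.mpr hw', ?_⟩
  have hopen : IsOpen {f : ι → E | LinearIndependent ℝ f} := isOpen_setOfPred_linearIndependent
  exact (tendsto_pi_nhds.mpr hw').eventually (hopen.mem_nhds hb)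

theorem Lsc.finrank {s : Set X} {W : X → Submodule ℝ E} (h : Lsc s W) {u : ℕ → X} {x : X}
    (hu : ∀ n, u n ∈ s) (hx : x ∈ s) (hux : Tendsto u atTop (𝓝 x)) (i : ℕ)
    (hi : ∀ n, Module.finrank ℝ (W (u n)) ≤ i) : Module.finrank ℝ (W x) ≤ i := by
  let b := Module.finBasis ℝ (W x)
  obtain ⟨b', hb', -, hev⟩ := h.eventually_le hu hx hux (fun j => (b j : E))
    (b.linearIndependent.map' (W x).subtype (Submodule.ker_subtype _)) (fun j => (b j).2)
  obtain ⟨n, hn⟩ := hev.exists
  have h1 : LinearIndependent ℝ (fun j => (⟨b' n j, hb' n j⟩ : W (u n))) :=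
    LinearIndependent.of_comp (W (u n)).subtype hn
  have h2 := h1.fintype_card_le_finrank
  rw [Fintype.card_fin] at h2
  exact h2.trans (hi n)

/-- With constant dimension lower semicontinuity implies upper semicontinuity. -/
theorem Lsc.usc {s : Set X} {W : X → Submodule ℝ E} (h : Lsc s W) (i : ℕ)
    (hi : ∀ x ∈ s, Module.finrank ℝ (W x) = i) : Usc s W := by
  intro u x hu hx hux w v hw hwv
  by_contra hv
  let b := Module.finBasis ℝ (W x)
  have hbl : LinearIndependent ℝ (fun j => (b j : E)) :=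
    b.linearIndependent.map' (W x).subtype (Submodule.ker_subtype _)
  have hspan : Submodule.span ℝ (Set.range fun j => (b j : E)) = W x := by
    have h1 : (fun j => (b j : E)) = (W x).subtype ∘ b := rfl
    rw [h1, Set.range_comp, ← Submodule.map_span, b.span_eq, Submodule.map_top,
      Submodule.range_subtype]
  obtain ⟨b', hb', hlim, -⟩ := h.eventually_le hu hx hux _ hbl (fun j => (b j).2)
  have hli : LinearIndependent ℝ (fun o : Option (Fin (Module.finrank ℝ (W x))) =>
      Option.casesOn' o v fun j => (b j : E)) := by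
    rw [linearIndependent_option']
    exact ⟨hbl, by rw [hspan]; exact hv⟩
  have hopen : IsOpen {f : Option (Fin (Module.finrank ℝ (W x))) → E | LinearIndependent ℝ f} :=
    isOpen_setOfPred_linearIndependent
  have hlim' : Tendsto (fun n => (fun o : Option (Fin (Module.finrank ℝ (W x))) =>
      Option.casesOn' o (w n) fun j => b' n j)) atTop
      (𝓝 (fun o : Option (Fin (Module.finrank ℝ (W x))) =>
      Option.casesOn' o v fun j => (b j : E))) := by
    rw [tendsto_pi_nhds]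
    rintro (_ | j)
    · exact hwv
    · exact (tendsto_pi_nhds.mp hlim) j
  obtain ⟨n, hn⟩ := (hlim'.eventually (hopen.mem_nhds hli)).exists
  have h1 : LinearIndependent ℝ (fun o : Option (Fin (Module.finrank ℝ (W x))) =>
      (Option.casesOn' o ⟨w n, hw n⟩ fun j => ⟨b' n j, hb' n j⟩ : W (u n))) := by
    refine LinearIndependent.of_comp (W (u n)).subtype ?_
    have he : ((W (u n)).subtype ∘ fun o : Option (Fin (Module.finrank ℝ (W x))) =>
        (Option.casesOn' o ⟨w n, hw n⟩ fun j => ⟨b' n j, hb' n j⟩ : W (u n))) =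
        fun o => Option.casesOn' o (w n) fun j => b' n j := by
      funext o
      rcases o with _ | j <;> rfl
    rw [he]
    exact hn
  have h2 := h1.fintype_card_le_finrank
  rw [Fintype.card_option, Fintype.card_fin, hi x hx, hi _ (hu n)] at h2
  omega

end Pool.Agent.Helper64.BC
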