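import Pool.Agent.Helper64.BC.Irr

/-!
# Irreducible proper Lie algebras of real 3 by 3 matrices preserve a bilinear form
-/

set_option autoImplicit false

namespace Pool.Agent.Helper64.BC

open Matrix

/-- The complexification of a real matrix. -/
noncomputable def cx (Y : M3) : C3 := Y.map (algebraMap ℝ ℂ)

theorem cx_apply (Y : M3) (i j : Fin 3) : cx Y i j = (Y i j : ℂ) := rfl

theorem cx_mul (Y Z : M3) : cx (Y * Z) = cx Y * cx Z := Matrix.map_mul

theorem cx_sub (Y Z : M3) : cx (Y - Z) = cx Y - cx Z := by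
  ext i j
  simp [cx_apply]

theorem cx_trace (Y : M3) : (cx Y).trace = (Y.trace : ℂ) := by
  simp [Matrix.trace_fin_three, cx_apply]

theorem cx_det (Y : M3) : (cx Y).det = (Y.det : ℂ) := by
  simp [Matrix.det_fin_three, cx_apply]

theorem cx_transpose (Y : M3) : cx Yᵀ = (cx Y)ᵀ := rfl

/-- No common complex eigenvectors. -/
theorem Irr.cright {h : Submodule ℝ M3} (hi : Irr h) (v : Fin 3 → ℂ) (hv : v ≠ 0) :
    ∃ Y ∈ h, ∀ c : ℂ, cx Y *ᵥ v ≠ c • v := by
  by_contra hcon
  push Not at hcon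
  set x : Fin 3 → ℝ := fun i => (v i).re with hx
  set y : Fin 3 → ℝ := fun i => (v i).im with hy
  let K : Submodule ℝ (Fin 3 → ℝ) := Submodule.span ℝ (Set.range ![x, y])
  have hxK : x ∈ K := Submodule.subset_span ⟨0, rfl⟩
  have hyK : y ∈ K := Submodule.subset_span ⟨1, rfl⟩
  have hinv : ∀ Y ∈ h, ∀ w ∈ K, Y *ᵥ w ∈ K := by
    intro Y hY w hw
    obtain ⟨c, hc⟩ := hcon Y hY
    have hent : ∀ i, ∑ j, (Y i j : ℂ) * v j = c * v i := by
      intro i
      have := congrFun hc i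
      exact this
    have e1 : Y *ᵥ x = c.re • x - c.im • y := by
      funext i
      have := congrArg Complex.re (hent i)
      simp only [Fin.sum_univ_three, Complex.add_re, Complex.mul_re, Complex.ofReal_re,
        Complex.ofReal_im, zero_mul, sub_zero] at this
      simp only [Matrix.mulVec, dotProduct, Fin.sum_univ_three, Pi.sub_apply, Pi.smul_apply,
        smul_eq_mul, hx, hy]
      linarith
    have e2 : Y *ᵥ y = c.im • x + c.re • y := by
      funext i
      have := congrArg Complex.im (hent i)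
      simp only [Fin.sum_univ_three, Complex.add_im, Complex.mul_im, Complex.ofReal_re,
        Complex.ofReal_im, zero_mul, add_zero] at this
      simp only [Matrix.mulVec, dotProduct, Fin.sum_univ_three, Pi.add_apply, Pi.smul_apply,
        smul_eq_mul, hx, hy]
      linarith
    refine Submodule.span_induction ?_ ?_ ?_ ?_ hw
    · rintro _ ⟨i, rfl⟩
      fin_cases i
      · change Y *ᵥ x ∈ K
        rw [e1]
        exact K.sub_mem (K.smul_mem _ hxK) (K.smul_mem _ hyK)
      · change Y *ᵥ y ∈ K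
        rw [e2]
        exact K.add_mem (K.smul_mem _ hxK) (K.smul_mem _ hyK)
    · rw [Matrix.mulVec_zero]
      exact K.zero_mem
    · intro a b _ _ ha hb
      rw [Matrix.mulVec_add]
      exact K.add_mem ha hb
    · intro a b _ hb
      rw [Matrix.mulVec_smul]
      exact K.smul_mem _ hb
  rcases hi.no_inv K hinv with hK | hK
  · apply hv
    rw [hK, Submodule.mem_bot] at hxK hyK
    funext i
    apply Complex.ext
    · exact congrFun hxK i
    · exact congrFun hyK i
  · have h1 : Module.finrank ℝ K = 3 := by rw [hK, finrank_top]; simp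
    have h2 : Module.finrank ℝ K ≤ 2 := by
      have h3 : Module.finrank ℝ K ≤ Fintype.card (Fin 2) := finrank_range_le_card (R := ℝ) ![x, y]
      exact h3.trans (by simp)
    omega

theorem Irr.cleft {h : Submodule ℝ M3} (hi : Irr h) (v : Fin 3 → ℂ) (hv : v ≠ 0) :
    ∃ Y ∈ h, ∀ c : ℂ, v ᵥ* cx Y ≠ c • v := by
  obtain ⟨Y, hY, hc⟩ := hi.tsp.cright v hv
  refine ⟨Yᵀ, hY, fun c h => hc c ?_⟩
  rw [cx_transpose, Matrix.vecMul_transpose] at h
  exact h

/-- Diagonalisation of a real matrix of trace zero with different complex eigenvalues. -/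
theorem exists_diag (Y : M3) (hY : Y.trace = 0) (a b c : ℂ) (hab : a ≠ b) (hbc : b ≠ c)
    (hac : a ≠ c) (h1 : a + b + c = 0) (h2 : a * b + b * c + c * a = -((Y * Y).trace : ℂ) / 2)
    (h3 : a * b * c = (Y.det : ℂ)) :
    ∃ P : C3, IsUnit P.det ∧ cx Y * P = P * !![a, 0, 0; 0, b, 0; 0, 0, c] := by
  have hdet : ∀ x : ℂ, (cx Y - x • (1 : C3)).det = -(x - a) * (x - b) * (x - c) := by
    intro x
    have e1 : (cx Y - x • (1 : C3)).det = -x ^ 3 + (Y.trace : ℂ) * x ^ 2 -
        (((Y.trace : ℂ) ^ 2 - ((Y * Y).trace : ℂ)) / 2) * x + (Y.det : ℂ) := by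
      rw [Matrix.det_fin_three, Matrix.det_fin_three, Matrix.trace_fin_three,
        Matrix.trace_fin_three]
      simp only [Matrix.sub_apply, Matrix.smul_apply, cx_apply, Matrix.one_apply, smul_eq_mul,
        Matrix.mul_apply, Fin.sum_univ_three]
      simp
      ring
    rw [e1, hY, ← h3]
    push_cast
    linear_combination (-x ^ 2) * h1 + x * h2
  have hv : ∀ x : ℂ, (x - a) * (x - b) * (x - c) = 0 → ∃ v : Fin 3 → ℂ, v ≠ 0 ∧
      cx Y *ᵥ v = x • v := by
    intro x hx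
    have h0 : (cx Y - x • (1 : C3)).det = 0 := by
      rw [hdet]
      linear_combination -hx
    obtain ⟨v, hv, h⟩ := Matrix.exists_mulVec_eq_zero_iff.mpr h0
    refine ⟨v, hv, ?_⟩
    rw [Matrix.sub_mulVec, Matrix.smul_mulVec, Matrix.one_mulVec] at h
    exact sub_eq_zero.mp h
  obtain ⟨va, hva, ea⟩ := hv a (by ring)
  obtain ⟨vb, hvb, eb⟩ := hv b (by ring)
  obtain ⟨vc, hvc, ec⟩ := hv c (by ring)
  let V : Fin 3 → Fin 3 → ℂ := ![va, vb, vc]
  let μ : Fin 3 → ℂ := ![a, b, c]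
  have hμ : Function.Injective μ := by
    intro i j hij
    fin_cases i <;> fin_cases j <;> simp [μ] at hij ⊢ <;>
      first
        | exact hab hij
        | exact hab hij.symm
        | exact hbc hij
        | exact hbc hij.symm
        | exact hac hij
        | exact hac hij.symm
  have hev : ∀ i, cx Y *ᵥ V i = μ i • V i := by
    intro i
    fin_cases i
    · exact ea
    · exact eb
    · exact ec
  have hV0 : ∀ i, V i ≠ 0 := by
    intro i
    fin_cases i
    · exact hva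
    · exact hvb
    · exact hvc
  have hli : LinearIndependent ℂ V := by
    refine Module.End.eigenvectors_linearIndependent' (Matrix.toLin' (cx Y)) μ hμ V fun i => ?_
    refine ⟨?_, hV0 i⟩
    rw [Module.End.mem_eigenspace_iff, Matrix.toLin'_apply]
    exact hev i
  refine ⟨Matrix.of fun i j => V j i, ?_, ?_⟩
  · rw [← Matrix.isUnit_iff_isUnit_det, ← Matrix.linearIndependent_cols_iff_isUnit]
    exact hli
  · ext i j
    have h4 := congrFun (hev j) i
    rw [Matrix.mul_apply, Matrix.mul_apply]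
    have h5 : ∑ k, cx Y i k * (Matrix.of fun i j => V j i) k j = μ j * V j i := h4
    rw [h5]
    fin_cases j <;> simp [Fin.sum_univ_three, μ, mul_comm]

/-- The conjugated complexification. -/
noncomputable def cj (P : C3) (h : Submodule ℝ M3) : Submodule ℂ C3 :=
  Submodule.span ℂ {W | ∃ Z ∈ h, W = P⁻¹ * cx Z * P}

section

variable {P : C3} (hP : IsUnit P.det) {h : Submodule ℝ M3}

include hP in
theorem cj_mul (Y Z : C3) : (P⁻¹ * Y * P) * (P⁻¹ * Z * P) = P⁻¹ * (Y * Z) * P := by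
  have h1 : P * P⁻¹ = 1 := Matrix.mul_nonsing_inv P hP
  calc (P⁻¹ * Y * P) * (P⁻¹ * Z * P) = P⁻¹ * Y * (P * P⁻¹) * Z * P := by noncomm_ring
    _ = P⁻¹ * (Y * Z) * P := by rw [h1]; noncomm_ring

include hP in
theorem cj_trace (Y : C3) : (P⁻¹ * Y * P).trace = Y.trace := by
  rw [Matrix.trace_mul_comm, ← mul_assoc, Matrix.mul_nonsing_inv P hP, one_mul]

include hP in
theorem cj_bracket (hbr : ∀ Y ∈ h, ∀ Z ∈ h, Y * Z - Z * Y ∈ h) :
    ∀ Y ∈ cj P h, ∀ Z ∈ cj P h, Y * Z - Z * Y ∈ cj P h := by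
  intro Y hY Z hZ
  induction hY using Submodule.span_induction with
  | mem Y hY =>
    induction hZ using Submodule.span_induction with
    | mem Z hZ =>
      obtain ⟨Y0, hY0, rfl⟩ := hY
      obtain ⟨Z0, hZ0, rfl⟩ := hZ
      rw [cj_mul hP, cj_mul hP]
      refine Submodule.subset_span ⟨Y0 * Z0 - Z0 * Y0, hbr Y0 hY0 Z0 hZ0, ?_⟩
      rw [cx_sub, cx_mul, cx_mul]
      noncomm_ring
    | zero => rw [mul_zero, zero_mul, sub_zero]; exact Submodule.zero_mem _
    | add a b _ _ ha hb =>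
      have : Y * (a + b) - (a + b) * Y = (Y * a - a * Y) + (Y * b - b * Y) := by noncomm_ring
      rw [this]
      exact Submodule.add_mem _ ha hb
    | smul c a _ ha =>
      have : Y * (c • a) - (c • a) * Y = c • (Y * a - a * Y) := by
        rw [mul_smul_comm, smul_mul_assoc, smul_sub]
      rw [this]
      exact Submodule.smul_mem _ _ ha
  | zero => rw [mul_zero, zero_mul, sub_zero]; exact Submodule.zero_mem _
  | add a b _ _ ha hb =>
    have : (a + b) * Z - Z * (a + b) = (a * Z - Z * a) + (b * Z - Z * b) := by noncomm_ring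
    rw [this]
    exact Submodule.add_mem _ ha hb
  | smul c a _ ha =>
    have : (c • a) * Z - Z * (c • a) = c • (a * Z - Z * a) := by
      rw [mul_smul_comm, smul_mul_assoc, smul_sub]
    rw [this]
    exact Submodule.smul_mem _ _ ha

/-- A complex linear function vanishing on the generators vanishes. -/
theorem cj_linear (F : C3 →ₗ[ℂ] ℂ) (hF : ∀ Z ∈ h, F (P⁻¹ * cx Z * P) = 0) :
    ∀ Z ∈ cj P h, F Z = 0 := by
  intro Z hZ
  induction hZ using Submodule.span_induction with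
  | mem Z hZ =>
    obtain ⟨Z0, hZ0, rfl⟩ := hZ
    exact hF Z0 hZ0
  | zero => rw [map_zero]
  | add a b _ _ ha hb => rw [map_add, ha, hb, add_zero]
  | smul c a _ ha => rw [map_smul, ha, smul_zero]

/-- `Z ↦ tr (X Z)` -/
noncomputable def trl (X : C3) : C3 →ₗ[ℂ] ℂ :=
  (Matrix.traceLinearMap (Fin 3) ℂ ℂ).comp (LinearMap.mulLeft ℂ X)

theorem trl_apply (X Z : C3) : trl X Z = (X * Z).trace := rfl

include hP in
theorem cj_traceless (htr : ∀ Y ∈ h, Y.trace = 0) : ∀ Z ∈ cj P h, Z.trace = 0 := by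
  have := cj_linear (P := P) (h := h) (trl 1) (by
    intro Z hZ
    rw [trl_apply, one_mul, cj_trace hP, cx_trace, htr Z hZ]
    rfl)
  intro Z hZ
  have h1 := this Z hZ
  rwa [trl_apply, one_mul] at h1

include hP in
theorem cj_cubic (ht : ∀ X ∈ h, ∀ Y ∈ h, ∀ Z ∈ h, (X * Y * Z).trace + (X * Z * Y).trace = 0) :
    ∀ X ∈ cj P h, ∀ Y ∈ cj P h, ∀ Z ∈ cj P h, (X * Y * Z).trace + (X * Z * Y).trace = 0 := by
  -- generators in all places
  have s0 : ∀ X ∈ h, ∀ Y ∈ h, ∀ Z ∈ cj P h,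
      ((P⁻¹ * cx X * P) * (P⁻¹ * cx Y * P) * Z).trace +
      ((P⁻¹ * cx X * P) * Z * (P⁻¹ * cx Y * P)).trace = 0 := by
    intro X hX Y hY
    have := cj_linear (P := P) (h := h) (trl ((P⁻¹ * cx X * P) * (P⁻¹ * cx Y * P)) +
      trl ((P⁻¹ * cx Y * P) * (P⁻¹ * cx X * P))) (by
        intro Z hZ
        rw [LinearMap.add_apply, trl_apply, trl_apply, cj_mul hP, cj_mul hP, cj_mul hP, cj_mul hP,
          cj_trace hP, cj_trace hP, ← cx_mul, ← cx_mul, ← cx_mul, ← cx_mul, cx_trace, cx_trace]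
        have h1 := ht X hX Y hY Z hZ
        have h2 : (Y * X * Z).trace = (X * Z * Y).trace := by
          rw [mul_assoc, Matrix.trace_mul_comm]
        rw [h2, ← Complex.ofReal_add, h1]
        rfl)
    intro Z hZ
    have h1 := this Z hZ
    rw [LinearMap.add_apply, trl_apply, trl_apply] at h1
    have h2 : ((P⁻¹ * cx Y * P) * (P⁻¹ * cx X * P) * Z).trace =
        ((P⁻¹ * cx X * P) * Z * (P⁻¹ * cx Y * P)).trace := by
      rw [mul_assoc (P⁻¹ * cx Y * P), Matrix.trace_mul_comm (P⁻¹ * cx Y * P)]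
    rw [← h2]
    exact h1
  have s1 : ∀ X ∈ h, ∀ Y ∈ cj P h, ∀ Z ∈ cj P h,
      ((P⁻¹ * cx X * P) * Y * Z).trace + ((P⁻¹ * cx X * P) * Z * Y).trace = 0 := by
    intro X hX Y hY Z hZ
    have := cj_linear (P := P) (h := h) (trl (Z * (P⁻¹ * cx X * P)) +
      trl ((P⁻¹ * cx X * P) * Z)) (by
        intro Y hY
        rw [LinearMap.add_apply, trl_apply, trl_apply]
        have h1 := s0 X hX Y hY Z hZ
        have h2 : (Z * (P⁻¹ * cx X * P) * (P⁻¹ * cx Y * P)).trace =
            ((P⁻¹ * cx X * P) * (P⁻¹ * cx Y * P) * Z).trace := by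
          rw [mul_assoc Z, Matrix.trace_mul_comm Z]
        rw [h2]
        exact h1)
    have h1 := this Y hY
    rw [LinearMap.add_apply, trl_apply, trl_apply] at h1
    have h2 : (Z * (P⁻¹ * cx X * P) * Y).trace = ((P⁻¹ * cx X * P) * Y * Z).trace := by
      rw [mul_assoc Z, Matrix.trace_mul_comm Z]
    rw [← h2]
    exact h1
  intro X hX Y hY Z hZ
  have := cj_linear (P := P) (h := h) (trl (Y * Z) + trl (Z * Y)) (by
    intro X hX
    rw [LinearMap.add_apply, trl_apply, trl_apply]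
    have h1 := s1 X hX Y hY Z hZ
    rw [Matrix.trace_mul_comm (Y * Z), Matrix.trace_mul_comm (Z * Y), ← mul_assoc, ← mul_assoc]
    exact h1)
  have h1 := this X hX
  rw [LinearMap.add_apply, trl_apply, trl_apply, Matrix.trace_mul_comm (Y * Z),
    Matrix.trace_mul_comm (Z * Y), ← mul_assoc, ← mul_assoc] at h1
  exact h1

include hP in
theorem cj_noCoord (hi : Irr h) : NoCoord (cj P h) := by
  have h1 : P * P⁻¹ = 1 := Matrix.mul_nonsing_inv P hP
  have h2 : P⁻¹ * P = 1 := Matrix.nonsing_inv_mul P hP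
  have hcol : ∀ j : Fin 3, P *ᵥ (Pi.single j 1) ≠ 0 := by
    intro j h0
    have h3 : P⁻¹ *ᵥ (P *ᵥ (Pi.single j 1)) = Pi.single j 1 := by
      rw [Matrix.mulVec_mulVec, h2, Matrix.one_mulVec]
    rw [h0, Matrix.mulVec_zero] at h3
    have := congrFun h3 j
    simp at this
  have hrow : ∀ j : Fin 3, (Pi.single j 1) ᵥ* P⁻¹ ≠ 0 := by
    intro j h0
    have h3 : ((Pi.single j 1) ᵥ* P⁻¹) ᵥ* P = Pi.single j 1 := by
      rw [Matrix.vecMul_vecMul, h2, Matrix.vecMul_one]
    rw [h0, Matrix.zero_vecMul] at h3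
    have := congrFun h3 j
    simp at this
  -- columns
  have C : ∀ j : Fin 3, ∃ Z ∈ cj P h, ∃ i, i ≠ j ∧ Z i j ≠ 0 := by
    intro j
    obtain ⟨Y, hY, hc⟩ := hi.cright _ (hcol j)
    refine ⟨P⁻¹ * cx Y * P, Submodule.subset_span ⟨Y, hY, rfl⟩, ?_⟩
    by_contra hcon
    push Not at hcon
    apply hc ((P⁻¹ * cx Y * P) j j)
    have h3 : (P⁻¹ * cx Y * P) *ᵥ (Pi.single j 1) = (P⁻¹ * cx Y * P) j j • Pi.single j 1 := by
      funext i
      rw [Matrix.mulVec_single_one]
      by_cases hij : i = j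
      · subst hij
        simp
      · have : (P⁻¹ * cx Y * P) i j = 0 := hcon i hij
        simp [hij, this]
    have h4 := congrArg (fun w => P *ᵥ w) h3
    simp only [Matrix.mulVec_mulVec, Matrix.mulVec_smul] at h4
    rw [← h4, Matrix.mulVec_mulVec]
    congr 1
    calc cx Y * P = (P * P⁻¹) * cx Y * P := by rw [h1, one_mul]
      _ = P * (P⁻¹ * cx Y * P) := by noncomm_ring
  have R : ∀ j : Fin 3, ∃ Z ∈ cj P h, ∃ i, i ≠ j ∧ Z j i ≠ 0 := by
    intro j
    obtain ⟨Y, hY, hc⟩ := hi.cleft _ (hrow j)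
    refine ⟨P⁻¹ * cx Y * P, Submodule.subset_span ⟨Y, hY, rfl⟩, ?_⟩
    by_contra hcon
    push Not at hcon
    apply hc ((P⁻¹ * cx Y * P) j j)
    have h3 : (Pi.single j 1) ᵥ* (P⁻¹ * cx Y * P) = (P⁻¹ * cx Y * P) j j • Pi.single j 1 := by
      funext i
      rw [Matrix.single_one_vecMul]
      by_cases hij : i = j
      · subst hij
        simp
      · have : (P⁻¹ * cx Y * P) j i = 0 := hcon i hij
        simp [hij, this]
    have h4 := congrArg (fun w => w ᵥ* P⁻¹) h3
    simp only [Matrix.vecMul_vecMul, Matrix.smul_vecMul] at h4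
    rw [← h4, Matrix.vecMul_vecMul]
    congr 1
    calc P⁻¹ * cx Y = P⁻¹ * cx Y * (P * P⁻¹) := by rw [h1, mul_one]
      _ = P⁻¹ * cx Y * P * P⁻¹ := by noncomm_ring
  have f0 : ∀ i : Fin 3, i ≠ 0 → i = 1 ∨ i = 2 := by decide
  have f1 : ∀ i : Fin 3, i ≠ 1 → i = 0 ∨ i = 2 := by decide
  have f2 : ∀ i : Fin 3, i ≠ 2 → i = 0 ∨ i = 1 := by decide
  constructor
  · obtain ⟨Z, hZ, i, hi, hz⟩ := C 0
    refine ⟨Z, hZ, ?_⟩
    rcases f0 i hi with rfl | rfl
    · exact Or.inl hz
    · exact Or.inr hz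
  · obtain ⟨Z, hZ, i, hi, hz⟩ := C 1
    refine ⟨Z, hZ, ?_⟩
    rcases f1 i hi with rfl | rfl
    · exact Or.inl hz
    · exact Or.inr hz
  · obtain ⟨Z, hZ, i, hi, hz⟩ := C 2
    refine ⟨Z, hZ, ?_⟩
    rcases f2 i hi with rfl | rfl
    · exact Or.inl hz
    · exact Or.inr hz
  · obtain ⟨Z, hZ, i, hi, hz⟩ := R 0
    refine ⟨Z, hZ, ?_⟩
    rcases f0 i hi with rfl | rfl
    · exact Or.inl hz
    · exact Or.inr hz
  · obtain ⟨Z, hZ, i, hi, hz⟩ := R 1
    refine ⟨Z, hZ, ?_⟩
    rcases f1 i hi with rfl | rfl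
    · exact Or.inl hz
    · exact Or.inr hz
  · obtain ⟨Z, hZ, i, hi, hz⟩ := R 2
    refine ⟨Z, hZ, ?_⟩
    rcases f2 i hi with rfl | rfl
    · exact Or.inl hz
    · exact Or.inr hz

end

/-- The polarisation of the cube. -/
theorem polar (X Y Z : M3) : 3 * ((X * Y * Z).trace + (X * Z * Y).trace) =
    ((X + Y + Z) * (X + Y + Z) * (X + Y + Z)).trace - ((X + Y) * (X + Y) * (X + Y)).trace -
    ((Y + Z) * (Y + Z) * (Y + Z)).trace - ((X + Z) * (X + Z) * (X + Z)).trace +
    (X * X * X).trace + (Y * Y * Y).trace + (Z * Z * Z).trace := by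
  simp only [Matrix.trace_fin_three, Matrix.mul_apply, Fin.sum_univ_three, Matrix.add_apply]
  ring

theorem trace_cube (Y : M3) (h : Y.trace = 0) : (Y * Y * Y).trace = 3 * Y.det := by
  have h1 := congrArg Matrix.trace (cayley Y)
  rw [h] at h1
  simp only [Matrix.trace_add, Matrix.trace_sub, Matrix.trace_smul, h, Matrix.trace_one,
    Matrix.trace_zero, smul_eq_mul, mul_zero, zero_mul, Fintype.card_fin] at h1
  push_cast at h1
  linarith

/-- If the determinant vanishes where the discriminant does not, it vanishes identically. -/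
theorem det_zero_of {h : Submodule ℝ M3} (Y0 : M3) (hY0 : Y0 ∈ h) (hd : dsc Y0 ≠ 0)
    (H : ∀ Y ∈ h, dsc Y ≠ 0 → Y.det = 0) : ∀ Z ∈ h, Z.det = 0 := by
  intro Z hZ
  obtain ⟨-, hc⟩ := continuous_line Y0 Z
  have h0 : dsc (Y0 + (0 : ℝ) • Z) ≠ 0 := by rw [zero_smul, add_zero]; exact hd
  have hev : ∀ᶠ s in nhds (0 : ℝ), dsc (Y0 + s • Z) ≠ 0 :=
    (hc.tendsto 0).eventually (isOpen_ne.mem_nhds h0)
  obtain ⟨ε, hε, hball⟩ := Metric.eventually_nhds_iff.mp hev
  set δ : ℝ := ε / 4 with hδ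
  have hδ0 : 0 < δ := by positivity
  have hz : ∀ s : ℝ, |s| < ε → (Y0 + s • Z).det = 0 := by
    intro s hs
    refine H _ (h.add_mem hY0 (h.smul_mem s hZ)) (hball ?_)
    rwa [Real.dist_eq, sub_zero]
  have e0 := hz 0 (by rw [abs_zero]; exact hε)
  have e1 := hz δ (by rw [abs_of_pos hδ0]; linarith)
  have e2 := hz (2 * δ) (by rw [abs_of_pos (by positivity)]; linarith)
  have e3 := hz (3 * δ) (by rw [abs_of_pos (by positivity)]; linarith)
  have key : (Y0 + (3 * δ) • Z).det - 3 * (Y0 + (2 * δ) • Z).det + 3 * (Y0 + δ • Z).det -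
      (Y0 + (0 : ℝ) • Z).det = 6 * δ ^ 3 * Z.det := by
    simp only [Matrix.det_fin_three, Matrix.add_apply, Matrix.smul_apply, smul_eq_mul]
    ring
  rw [e0, e1, e2, e3] at key
  have h6 : 6 * δ ^ 3 ≠ 0 := by positivity
  have h7 : 6 * δ ^ 3 * Z.det = 0 := by linarith
  exact (mul_eq_zero.mp h7).resolve_left h6

/-- A matrix `M` representing a functional that vanishes on `h` but not on all traceless
matrices. -/
theorem exists_functional {h : Submodule ℝ M3} (Y1 : M3) (hY1 : Y1 ∉ h) :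
    ∃ M : M3, (∀ Z ∈ h, (M * Z).trace = 0) ∧ (M * Y1).trace ≠ 0 := by
  obtain ⟨f, hf, hfh⟩ := Submodule.exists_le_ker_of_notMem hY1
  refine ⟨Matrix.of fun i j => f (Matrix.single j i 1), ?_, ?_⟩
  · intro Z hZ
    have h1 : ((Matrix.of fun i j => f (Matrix.single j i 1)) * Z).trace = f Z := by
      conv_rhs => rw [Matrix.matrix_eq_sum_single Z]
      rw [map_sum]
      simp only [map_sum, Matrix.trace, Matrix.diag_apply, Matrix.mul_apply, Matrix.of_apply]
      rw [Finset.sum_comm]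
      refine Finset.sum_congr rfl fun i _ => Finset.sum_congr rfl fun j _ => ?_
      have h2 : Matrix.single i j (Z i j) = Z i j • (Matrix.single i j 1 : M3) := by
        rw [Matrix.smul_single, smul_eq_mul, mul_one]
      rw [h2, map_smul, smul_eq_mul, mul_comm]
    rw [h1]
    exact hfh hZ
  · have h1 : ((Matrix.of fun i j => f (Matrix.single j i 1)) * Y1).trace = f Y1 := by
      conv_rhs => rw [Matrix.matrix_eq_sum_single Y1]
      rw [map_sum]
      simp only [map_sum, Matrix.trace, Matrix.diag_apply, Matrix.mul_apply, Matrix.of_apply]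
      rw [Finset.sum_comm]
      refine Finset.sum_congr rfl fun i _ => Finset.sum_congr rfl fun j _ => ?_
      have h2 : Matrix.single i j (Y1 i j) = Y1 i j • (Matrix.single i j 1 : M3) := by
        rw [Matrix.smul_single, smul_eq_mul, mul_one]
      rw [h2, map_smul, smul_eq_mul, mul_comm]
    rw [h1]
    exact hf

/-- If a conjugate of the complexification contains all elementary matrices, the Lie algebra
contains all matrices of trace zero. -/
theorem full_of_case1 {P : C3} (hP : IsUnit P.det) {h : Submodule ℝ M3}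
    (hbr : ∀ Y ∈ h, ∀ Z ∈ h, Y * Z - Z * Y ∈ h)
    (hE : !![0, 1, 0; 0, 0, 0; 0, 0, 0] ∈ cj P h ∧ !![0, 0, 1; 0, 0, 0; 0, 0, 0] ∈ cj P h ∧
    !![0, 0, 0; 1, 0, 0; 0, 0, 0] ∈ cj P h ∧ !![0, 0, 0; 0, 0, 1; 0, 0, 0] ∈ cj P h ∧
    !![0, 0, 0; 0, 0, 0; 1, 0, 0] ∈ cj P h ∧ !![0, 0, 0; 0, 0, 0; 0, 1, 0] ∈ cj P h)
    (Y1 : M3) (hY1 : Y1.trace = 0) : Y1 ∈ h := by
  by_contra hcon
  obtain ⟨M, hM, hM1⟩ := exists_functional Y1 hcon
  obtain ⟨h01, h02, h10, h12, h20, h21⟩ := hE
  have hb := cj_bracket hP hbr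
  set W : C3 := P⁻¹ * cx M * P with hW
  have hWS := cj_linear (P := P) (h := h) (trl W) (by
    intro Z hZ
    rw [trl_apply, hW, cj_mul hP, cj_trace hP, ← cx_mul, cx_trace, hM Z hZ]
    rfl)
  have w10 := hWS _ h01
  have w20 := hWS _ h02
  have w01 := hWS _ h10
  have w21 := hWS _ h12
  have w02 := hWS _ h20
  have w12 := hWS _ h21
  have wd1 := hWS _ (hb _ h01 _ h10)
  have wd2 := hWS _ (hb _ h12 _ h21)
  rw [trl_apply, Matrix.trace_fin_three] at w10 w20 w01 w21 w02 w12 wd1 wd2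
  simp [Matrix.mul_apply, Fin.sum_univ_three] at w10 w20 w01 w21 w02 w12 wd1 wd2
  have hWs : W = (W 0 0) • (1 : C3) := by
    ext i j
    fin_cases i <;> fin_cases j <;> simp [w10, w20, w01, w21, w02, w12]
    · linear_combination -wd1
    · linear_combination -wd1 - wd2
  have h1 : P * P⁻¹ = 1 := Matrix.mul_nonsing_inv P hP
  have h2 : P⁻¹ * P = 1 := Matrix.nonsing_inv_mul P hP
  have hMs : cx M = (W 0 0) • (1 : C3) := by
    calc cx M = (P * P⁻¹) * cx M * (P * P⁻¹) := by rw [h1, one_mul, mul_one]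
      _ = P * W * P⁻¹ := by rw [hW]; noncomm_ring
      _ = P * ((W 0 0) • (1 : C3)) * P⁻¹ := by rw [← hWs]
      _ = (W 0 0) • (1 : C3) := by
        rw [mul_smul_comm, mul_one, smul_mul_assoc, h1]
  apply hM1
  have h3 : ((M * Y1).trace : ℂ) = 0 := by
    rw [← cx_trace, cx_mul, hMs, smul_mul_assoc, one_mul, Matrix.trace_smul, cx_trace, hY1]
    simp
  exact_mod_cast h3

/-- An irreducible Lie algebra of real 3 by 3 matrices of trace zero either consists of all such
matrices or preserves a nonzero bilinear form. -/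
theorem exists_form {h : Submodule ℝ M3} (hi : Irr h) (hbr : ∀ Y ∈ h, ∀ Z ∈ h, Y * Z - Z * Y ∈ h)
    (htr : ∀ Y ∈ h, Y.trace = 0) (Y1 : M3) (hY1 : Y1.trace = 0) (hY1h : Y1 ∉ h) :
    ∃ Q : M3, Q ≠ 0 ∧ ∀ Y ∈ h, Yᵀ * Q + Q * Y = 0 := by
  by_cases H : ∀ Y ∈ h, dsc Y ≠ 0 → Y.det = 0
  · -- the determinant vanishes
    obtain ⟨Y0, hY0, hd0⟩ := hi.exists_dsc hbr htr
    have hdet := det_zero_of Y0 hY0 hd0 H
    have hκ : (Y0 * Y0).trace ≠ 0 := by
      intro h0
      apply hd0
      unfold dsc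
      rw [h0, hdet Y0 hY0]
      norm_num
    obtain ⟨μ, hμ⟩ := IsAlgClosed.exists_pow_nat_eq (((Y0 * Y0).trace : ℂ) / 2) two_pos
    have hμ0 : μ ≠ 0 := by
      rintro rfl
      have h1 : ((Y0 * Y0).trace : ℂ) = 0 := by
        linear_combination (-2) * hμ
      exact hκ (by exact_mod_cast h1)
    obtain ⟨P, hP, hPD⟩ := exists_diag Y0 (htr Y0 hY0) μ 0 (-μ) hμ0 (by
        intro h0
        exact hμ0 (neg_eq_zero.mp h0.symm)) (by
        intro h0
        apply hμ0
        linear_combination (1 / 2) * h0) (by ring) (by linear_combination -hμ) (by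
        rw [hdet Y0 hY0]; simp)
    have hD : !![1, 0, 0; 0, 0, 0; 0, 0, -1] ∈ cj P h := by
      have h1 : P⁻¹ * cx Y0 * P ∈ cj P h := Submodule.subset_span ⟨Y0, hY0, rfl⟩
      refine smul_inv_mem hμ0 h1 ?_
      rw [mul_assoc, hPD, ← mul_assoc, Matrix.nonsing_inv_mul P hP, one_mul]
      ext i j
      fin_cases i <;> fin_cases j <;> simp
    have ht : ∀ X ∈ h, ∀ Y ∈ h, ∀ Z ∈ h, (X * Y * Z).trace + (X * Z * Y).trace = 0 := by
      have hc : ∀ W ∈ h, (W * W * W).trace = 0 := by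
        intro W hW
        rw [trace_cube W (htr W hW), hdet W hW, mul_zero]
      intro X hX Y hY Z hZ
      have h1 := polar X Y Z
      rw [hc _ (h.add_mem (h.add_mem hX hY) hZ), hc _ (h.add_mem hX hY), hc _ (h.add_mem hY hZ),
        hc _ (h.add_mem hX hZ), hc X hX, hc Y hY, hc Z hZ] at h1
      linarith
    obtain ⟨Q', hQ', hQ'S⟩ := case2 (cj P h) (cj_bracket hP hbr) (cj_traceless hP htr)
      (cj_cubic hP ht) hD (cj_noCoord hP hi)
    have h1 : P * P⁻¹ = 1 := Matrix.mul_nonsing_inv P hP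
    have h2 : P⁻¹ * P = 1 := Matrix.nonsing_inv_mul P hP
    set Q : C3 := P⁻¹ᵀ * Q' * P⁻¹ with hQ
    have hQ0 : Q ≠ 0 := by
      intro h0
      apply hQ'
      have h3 : Pᵀ * P⁻¹ᵀ = 1 := by rw [← Matrix.transpose_mul, h2, Matrix.transpose_one]
      calc Q' = (Pᵀ * P⁻¹ᵀ) * Q' * (P⁻¹ * P) := by rw [h3, h2, one_mul, mul_one]
        _ = Pᵀ * Q * P := by rw [hQ]; noncomm_ring
        _ = 0 := by rw [h0, mul_zero, zero_mul]
    have hQY : ∀ Y ∈ h, (cx Y)ᵀ * Q + Q * cx Y = 0 := by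
      intro Y hY
      have h3 := hQ'S _ (Submodule.subset_span ⟨Y, hY, rfl⟩)
      have h4 : P⁻¹ᵀ * Pᵀ = 1 := by rw [← Matrix.transpose_mul, h1, Matrix.transpose_one]
      have h5 : (P⁻¹ * cx Y * P)ᵀ = Pᵀ * (cx Y)ᵀ * P⁻¹ᵀ := by
        rw [Matrix.transpose_mul, Matrix.transpose_mul]
        noncomm_ring
      rw [h5] at h3
      calc (cx Y)ᵀ * Q + Q * cx Y = (P⁻¹ᵀ * Pᵀ) * (cx Y)ᵀ * P⁻¹ᵀ * Q' * P⁻¹ +
            P⁻¹ᵀ * Q' * P⁻¹ * cx Y * (P * P⁻¹) := by
              rw [h4, h1, hQ]; noncomm_ring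
        _ = P⁻¹ᵀ * (Pᵀ * (cx Y)ᵀ * P⁻¹ᵀ * Q' + Q' * (P⁻¹ * cx Y * P)) * P⁻¹ := by noncomm_ring
        _ = 0 := by rw [h3, mul_zero, zero_mul]
    -- the real and the imaginary part
    have hent : ∀ Y ∈ h, ∀ i j, ∑ k, ((Y k i : ℂ) * Q k j + Q i k * (Y k j : ℂ)) = 0 := by
      intro Y hY i j
      have h3 := congrFun (congrFun (hQY Y hY) i) j
      rw [Matrix.add_apply, Matrix.mul_apply, Matrix.mul_apply, ← Finset.sum_add_distrib] at h3
      exact h3
    by_cases hre : (Matrix.of fun i j => (Q i j).re : M3) = 0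
    · refine ⟨Matrix.of fun i j => (Q i j).im, ?_, ?_⟩
      · intro him
        apply hQ0
        ext i j
        apply Complex.ext
        · exact congrFun (congrFun hre i) j
        · exact congrFun (congrFun him i) j
      · intro Y hY
        ext i j
        have h3 := congrArg Complex.im (hent Y hY i j)
        rw [Matrix.add_apply, Matrix.mul_apply, Matrix.mul_apply, ← Finset.sum_add_distrib]
        simp only [Complex.im_sum, Complex.add_im, Complex.mul_im, Complex.ofReal_re,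
          Complex.ofReal_im, zero_mul, mul_zero, add_zero, zero_add, Complex.zero_im] at h3
        simpa [Matrix.transpose_apply] using h3
    · refine ⟨Matrix.of fun i j => (Q i j).re, hre, ?_⟩
      intro Y hY
      ext i j
      have h3 := congrArg Complex.re (hent Y hY i j)
      rw [Matrix.add_apply, Matrix.mul_apply, Matrix.mul_apply, ← Finset.sum_add_distrib]
      simp only [Complex.re_sum, Complex.add_re, Complex.mul_re, Complex.ofReal_re,
        Complex.ofReal_im, zero_mul, mul_zero, sub_zero, Complex.zero_re] at h3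
      simpa [Matrix.transpose_apply] using h3
  · -- a regular element with nonzero eigenvalues
    exfalso
    push Not at H
    obtain ⟨Y, hY, hd, hdet⟩ := H
    obtain ⟨a, ha⟩ := exists_eig Y
    have ha' : -a ^ 3 + (Y * Y).trace / 2 * a + Y.det = 0 := by
      have h0 := htr Y hY
      rw [Matrix.det_fin_three] at ha
      rw [Matrix.trace_fin_three] at h0
      have hY22 : Y 2 2 = -Y 0 0 - Y 1 1 := by linarith
      rw [Matrix.det_fin_three, Matrix.trace_fin_three]
      simp only [Matrix.mul_apply, Fin.sum_univ_three]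
      simp at ha
      rw [hY22] at ha ⊢
      linear_combination ha
    obtain ⟨s, hs⟩ := IsAlgClosed.exists_pow_nat_eq (2 * ((Y * Y).trace : ℂ) - 3 * (a : ℂ) ^ 2)
      two_pos
    have ha'' : -(a : ℂ) ^ 3 + ((Y * Y).trace : ℂ) / 2 * a + (Y.det : ℂ) = 0 := by
      exact_mod_cast congrArg (fun r : ℝ => (r : ℂ)) ha'
    set b : ℂ := (-(a : ℂ) + s) / 2 with hb
    set c : ℂ := (-(a : ℂ) - s) / 2 with hc
    have h1 : (a : ℂ) + b + c = 0 := by rw [hb, hc]; ring
    have h2 : (a : ℂ) * b + b * c + c * a = -((Y * Y).trace : ℂ) / 2 := by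
      rw [hb, hc]
      linear_combination (-1 / 4) * hs
    have h3 : (a : ℂ) * b * c = (Y.det : ℂ) := by
      rw [hb, hc]
      linear_combination (-(a : ℂ) / 4) * hs - ha''
    have hdsc : ((dsc Y : ℝ) : ℂ) = 2 * ((a : ℂ) - b) ^ 2 * (b - c) ^ 2 * ((a : ℂ) - c) ^ 2 := by
      unfold dsc
      push_cast
      rw [← h3]
      have h4 : ((Y * Y).trace : ℂ) = -2 * ((a : ℂ) * b + b * c + c * a) := by
        linear_combination 2 * h2
      have h5 : c = -(a : ℂ) - b := by linear_combination h1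
      rw [h4, h5]
      ring
    have hdC : ((dsc Y : ℝ) : ℂ) ≠ 0 := by exact_mod_cast hd
    rw [hdsc] at hdC
    have hab : (a : ℂ) ≠ b := by
      intro h0
      apply hdC
      rw [h0]; ring
    have hbc : b ≠ c := by
      intro h0
      apply hdC
      rw [h0]; ring
    have hac : (a : ℂ) ≠ c := by
      intro h0
      apply hdC
      rw [h0]; ring
    have hdetC : (Y.det : ℂ) ≠ 0 := by exact_mod_cast hdet
    rw [← h3] at hdetC
    obtain ⟨P, hP, hPD⟩ := exists_diag Y (htr Y hY) a b c hab hbc hac h1 h2 h3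
    have hD : !![(a : ℂ), 0, 0; 0, b, 0; 0, 0, c] ∈ cj P h := by
      have h4 : P⁻¹ * cx Y * P ∈ cj P h := Submodule.subset_span ⟨Y, hY, rfl⟩
      rwa [mul_assoc, hPD, ← mul_assoc, Matrix.nonsing_inv_mul P hP, one_mul] at h4
    have hE := case1 (cj P h) (cj_bracket hP hbr) a b c
      (fun h0 => hdetC (by rw [h0]; ring)) (fun h0 => hdetC (by rw [h0]; ring))
      (fun h0 => hdetC (by rw [h0]; ring)) hab hbc hac h1 hD (cj_noCoord hP hi)
    exact hY1h (full_of_case1 hP hbr hE Y1 hY1)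

end Pool.Agent.Helper64.BC
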