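import Pool.Agent.Helper64.BC.Mat

/-!
# Symmetric 3 by 3 matrices: normal forms, and continuous normal forms
-/

set_option autoImplicit false

namespace Pool.Agent.Helper64.BC

open Filter Topology Set
open scoped Matrix.Norms.Operator
attribute [-instance] instTopologicalSpaceMatrix

/-- The signature `(1, 2)`. -/
def eps : Fin 3 → ℝ := ![1, -1, -1]

theorem exists_diagQ (Q : M3) (hs : Q.transpose = Q) :
    ∃ (O : M3) (l : Fin 3 → ℝ), Q = O * Matrix.diagonal l * O.transpose ∧ O.det ≠ 0 := by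
  have hA : Q.IsHermitian := by
    rw [Matrix.IsHermitian, Matrix.conjTranspose_eq_transpose_of_trivial]
    exact hs
  have h1 := hA.spectral_theorem
  rw [Unitary.conjStarAlgAut_apply] at h1
  refine ⟨(hA.eigenvectorUnitary : M3), hA.eigenvalues, ?_, ?_⟩
  · have h2 : (star hA.eigenvectorUnitary : M3) = (hA.eigenvectorUnitary : M3).transpose := by
      rw [Matrix.star_eq_conjTranspose, Matrix.conjTranspose_eq_transpose_of_trivial]
    rw [h2] at h1
    exact h1
  · intro h0
    have h2 : (hA.eigenvectorUnitary : M3) * star (hA.eigenvectorUnitary : M3) = 1 :=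
      Unitary.mul_star_self_of_mem hA.eigenvectorUnitary.2
    have h3 := congrArg Matrix.det h2
    rw [Matrix.det_mul, h0, zero_mul, Matrix.det_one] at h3
    exact zero_ne_one h3

theorem ptp (P : M3) (τ : Fin 3 → ℝ) (i j : Fin 3) :
    (P * Matrix.diagonal τ * P.transpose) i j =
      P i 0 * τ 0 * P j 0 + P i 1 * τ 1 * P j 1 + P i 2 * τ 2 * P j 2 := by
  rw [Matrix.mul_apply, Fin.sum_univ_three, Matrix.mul_diagonal, Matrix.mul_diagonal,
    Matrix.mul_diagonal]
  rfl

theorem exists_perm (σ : Fin 3 → ℝ) (hσ : ∀ i, σ i = 1 ∨ σ i = -1) :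
    ∃ (P : M3) (c : ℝ), c ≠ 0 ∧ P.det ≠ 0 ∧ (P * Matrix.diagonal 1 * P.transpose =
      c • Matrix.diagonal σ ∨ P * Matrix.diagonal eps * P.transpose = c • Matrix.diagonal σ) := by
  have hσ' : σ = ![σ 0, σ 1, σ 2] := by
    funext i
    fin_cases i <;> rfl
  have d1 : (!![1, 0, 0; 0, 1, 0; 0, 0, 1] : M3).det ≠ 0 := by
    rw [Matrix.det_fin_three]
    simp
  have d2 : (!![0, 1, 0; 1, 0, 0; 0, 0, 1] : M3).det ≠ 0 := by
    rw [Matrix.det_fin_three]
    simp
  have d3 : (!![0, 0, 1; 0, 1, 0; 1, 0, 0] : M3).det ≠ 0 := by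
    rw [Matrix.det_fin_three]
    simp
  rcases hσ 0 with h0 | h0 <;> rcases hσ 1 with h1 | h1 <;> rcases hσ 2 with h2 | h2
  · refine ⟨!![1, 0, 0; 0, 1, 0; 0, 0, 1], 1, one_ne_zero, d1, Or.inl ?_⟩
    rw [hσ', h0, h1, h2]
    ext i j
    rw [ptp]
    fin_cases i <;> fin_cases j <;> simp
  · refine ⟨!![0, 0, 1; 0, 1, 0; 1, 0, 0], -1, by norm_num, d3, Or.inr ?_⟩
    rw [hσ', h0, h1, h2]
    ext i j
    rw [ptp]
    fin_cases i <;> fin_cases j <;> simp [eps]
  · refine ⟨!![0, 1, 0; 1, 0, 0; 0, 0, 1], -1, by norm_num, d2, Or.inr ?_⟩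
    rw [hσ', h0, h1, h2]
    ext i j
    rw [ptp]
    fin_cases i <;> fin_cases j <;> simp [eps]
  · refine ⟨!![1, 0, 0; 0, 1, 0; 0, 0, 1], 1, one_ne_zero, d1, Or.inr ?_⟩
    rw [hσ', h0, h1, h2]
    ext i j
    rw [ptp]
    fin_cases i <;> fin_cases j <;> simp [eps]
  · refine ⟨!![1, 0, 0; 0, 1, 0; 0, 0, 1], -1, by norm_num, d1, Or.inr ?_⟩
    rw [hσ', h0, h1, h2]
    ext i j
    rw [ptp]
    fin_cases i <;> fin_cases j <;> simp [eps]
  · refine ⟨!![0, 1, 0; 1, 0, 0; 0, 0, 1], 1, by norm_num, d2, Or.inr ?_⟩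
    rw [hσ', h0, h1, h2]
    ext i j
    rw [ptp]
    fin_cases i <;> fin_cases j <;> simp [eps]
  · refine ⟨!![0, 0, 1; 0, 1, 0; 1, 0, 0], 1, by norm_num, d3, Or.inr ?_⟩
    rw [hσ', h0, h1, h2]
    ext i j
    rw [ptp]
    fin_cases i <;> fin_cases j <;> simp [eps]
  · refine ⟨!![1, 0, 0; 0, 1, 0; 0, 0, 1], -1, by norm_num, d1, Or.inl ?_⟩
    rw [hσ', h0, h1, h2]
    ext i j
    rw [ptp]
    fin_cases i <;> fin_cases j <;> simp

theorem exists_cube_root (a : ℝ) (ha : a ≠ 0) : ∃ c : ℝ, c ≠ 0 ∧ c ^ 3 * a = 1 := by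
  have key : ∀ b : ℝ, 0 < b → ∃ c : ℝ, c ≠ 0 ∧ c ^ 3 * b = 1 := by
    intro b hb
    refine ⟨b ^ (-(1 / 3 : ℝ)), (Real.rpow_pos_of_pos hb _).ne', ?_⟩
    rw [← Real.rpow_natCast, ← Real.rpow_mul hb.le]
    have h2 : (-(1 / 3 : ℝ)) * ((3 : ℕ) : ℝ) = -1 := by norm_num
    rw [h2, Real.rpow_neg_one, inv_mul_cancel₀ hb.ne']
  rcases lt_or_gt_of_ne ha with h | h
  · obtain ⟨c, hc, hc'⟩ := key (-a) (by linarith)
    exact ⟨-c, neg_ne_zero.mpr hc, by rw [← hc']; ring⟩
  · exact key a h

/-- Every nondegenerate symmetric matrix is, up to a factor, equivalent to one of two. -/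
theorem exists_sig (Q : M3) (hs : Q.transpose = Q) (hd : Q.det ≠ 0) :
    ∃ (M : G3) (c : ℝ), ((M : M3) * Matrix.diagonal 1 * (M : M3).transpose = c • Q ∨
      (M : M3) * Matrix.diagonal eps * (M : M3).transpose = c • Q) := by
  obtain ⟨O, l, hQ, hO⟩ := exists_diagQ Q hs
  have hl : ∀ i, l i ≠ 0 := by
    intro i hi
    apply hd
    rw [hQ, Matrix.det_mul, Matrix.det_mul, Matrix.det_diagonal,
      Finset.prod_eq_zero (Finset.mem_univ i) hi]
    simp
  set σ : Fin 3 → ℝ := fun i => if 0 < l i then 1 else -1 with hσ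
  have hσ1 : ∀ i, σ i = 1 ∨ σ i = -1 := by
    intro i
    simp only [hσ]
    split_ifs
    · exact Or.inl rfl
    · exact Or.inr rfl
  set S : Fin 3 → ℝ := fun i => Real.sqrt |l i| with hS
  have hS0 : ∀ i, S i ≠ 0 := fun i => (Real.sqrt_pos.mpr (abs_pos.mpr (hl i))).ne'
  have hSl : ∀ i, S i * σ i * S i = l i := by
    intro i
    have h1 : S i * S i = |l i| := Real.mul_self_sqrt (abs_nonneg _)
    have h2 : S i * σ i * S i = σ i * (S i * S i) := by ring
    rw [h2, h1]
    simp only [hσ]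
    split_ifs with h
    · rw [abs_of_pos h, one_mul]
    · have : l i < 0 := lt_of_le_of_ne (not_lt.mp h) (hl i)
      rw [abs_of_neg this]
      ring
  have hdiag : Matrix.diagonal l = Matrix.diagonal S * Matrix.diagonal σ * Matrix.diagonal S := by
    rw [Matrix.diagonal_mul_diagonal, Matrix.diagonal_mul_diagonal]
    congr 1
    funext i
    exact (hSl i).symm
  obtain ⟨P, c, hc, hP, hPP⟩ := exists_perm σ hσ1
  set K : M3 := O * Matrix.diagonal S * P with hK
  have hKd : K.det ≠ 0 := by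
    rw [hK, Matrix.det_mul, Matrix.det_mul, Matrix.det_diagonal]
    exact mul_ne_zero (mul_ne_zero hO (Finset.prod_ne_zero_iff.mpr fun i _ => hS0 i)) hP
  have hKK : ∀ τ : Fin 3 → ℝ, P * Matrix.diagonal τ * P.transpose = c • Matrix.diagonal σ →
      K * Matrix.diagonal τ * K.transpose = c • Q := by
    intro τ hτ
    have h1 : K * Matrix.diagonal τ * K.transpose =
        O * Matrix.diagonal S * (P * Matrix.diagonal τ * P.transpose) * Matrix.diagonal S *
          O.transpose := by
      rw [hK, Matrix.transpose_mul, Matrix.transpose_mul, Matrix.diagonal_transpose]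
      noncomm_ring
    rw [h1, hτ, hQ, hdiag]
    simp only [mul_smul_comm, smul_mul_assoc, mul_assoc]
  obtain ⟨a, ha, haK⟩ := exists_cube_root K.det hKd
  have hdet : (a • K).det = 1 := by
    rw [Matrix.det_smul, Fintype.card_fin]
    exact haK
  have hMM : ∀ τ : Fin 3 → ℝ, P * Matrix.diagonal τ * P.transpose = c • Matrix.diagonal σ →
      (a • K) * Matrix.diagonal τ * (a • K).transpose = (a * a * c) • Q := by
    intro τ hτ
    rw [Matrix.transpose_smul, smul_mul_assoc, smul_mul_assoc, mul_smul_comm, hKK τ hτ, smul_smul,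
      smul_smul, mul_assoc]
  refine ⟨⟨a • K, hdet⟩, a * a * c, ?_⟩
  rcases hPP with h | h
  · exact Or.inl (hMM _ h)
  · exact Or.inr (hMM _ h)

/-- Continuous normal forms of the symmetric matrices close to a diagonal one. -/
theorem exists_chol (ε : Fin 3 → ℝ) (hε : ∀ i, ε i * ε i = 1) (M : ℕ → M3)
    (hM : ∀ n, (M n).transpose = M n) (hlim : Tendsto M atTop (𝓝 (Matrix.diagonal ε))) :
    ∃ U : ℕ → M3, Tendsto U atTop (𝓝 1) ∧
      ∀ᶠ n in atTop, (U n).transpose * Matrix.diagonal ε * U n = M n := by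
  have hent : ∀ i j, Tendsto (fun n => M n i j) atTop (𝓝 ((Matrix.diagonal ε : M3) i j)) :=
    fun i j => ((continuous_entry i j).tendsto _).comp hlim
  have h00 : Tendsto (fun n => M n 0 0) atTop (𝓝 (ε 0)) := by simpa using hent 0 0
  have h11 : Tendsto (fun n => M n 1 1) atTop (𝓝 (ε 1)) := by simpa using hent 1 1
  have h22 : Tendsto (fun n => M n 2 2) atTop (𝓝 (ε 2)) := by simpa using hent 2 2
  have h01 : Tendsto (fun n => M n 0 1) atTop (𝓝 0) := by simpa using hent 0 1
  have h02 : Tendsto (fun n => M n 0 2) atTop (𝓝 0) := by simpa using hent 0 2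
  have h12 : Tendsto (fun n => M n 1 2) atTop (𝓝 0) := by simpa using hent 1 2
  set p : ℕ → ℝ := fun n => Real.sqrt (ε 0 * M n 0 0) with hp
  have hp' : Tendsto (fun n => ε 0 * M n 0 0) atTop (𝓝 1) := by
    have := h00.const_mul (ε 0)
    rwa [hε] at this
  have hpl : Tendsto p atTop (𝓝 1) := by
    have := hp'.sqrt
    rwa [Real.sqrt_one] at this
  set q : ℕ → ℝ := fun n => ε 0 * M n 0 1 / p n with hq
  have hql : Tendsto q atTop (𝓝 0) := by
    have := (h01.const_mul (ε 0)).div hpl one_ne_zero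
    rwa [mul_zero, zero_div] at this
  set r : ℕ → ℝ := fun n => ε 0 * M n 0 2 / p n with hr
  have hrl : Tendsto r atTop (𝓝 0) := by
    have := (h02.const_mul (ε 0)).div hpl one_ne_zero
    rwa [mul_zero, zero_div] at this
  set s : ℕ → ℝ := fun n => Real.sqrt (ε 1 * (M n 1 1 - ε 0 * q n * q n)) with hs
  have hs' : Tendsto (fun n => ε 1 * (M n 1 1 - ε 0 * q n * q n)) atTop (𝓝 1) := by
    have := (h11.sub (((hql.const_mul (ε 0)).mul hql))).const_mul (ε 1)
    simpa only [mul_zero, zero_mul, sub_zero, hε] using this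
  have hsl : Tendsto s atTop (𝓝 1) := by
    have := hs'.sqrt
    rwa [Real.sqrt_one] at this
  set t : ℕ → ℝ := fun n => ε 1 * (M n 1 2 - ε 0 * q n * r n) / s n with ht
  have htl : Tendsto t atTop (𝓝 0) := by
    have := ((h12.sub (((hql.const_mul (ε 0)).mul hrl))).const_mul (ε 1)).div hsl one_ne_zero
    simp only [mul_zero, sub_zero, zero_div] at this
    exact this
  set w : ℕ → ℝ := fun n => Real.sqrt (ε 2 * (M n 2 2 - ε 0 * r n * r n - ε 1 * t n * t n)) with hw
  have hw' : Tendsto (fun n => ε 2 * (M n 2 2 - ε 0 * r n * r n - ε 1 * t n * t n)) atTop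
      (𝓝 1) := by
    have := ((h22.sub (((hrl.const_mul (ε 0)).mul hrl))).sub
      (((htl.const_mul (ε 1)).mul htl))).const_mul (ε 2)
    simpa only [mul_zero, zero_mul, sub_zero, hε] using this
  have hwl : Tendsto w atTop (𝓝 1) := by
    have := hw'.sqrt
    rwa [Real.sqrt_one] at this
  refine ⟨fun n => !![p n, q n, r n; 0, s n, t n; 0, 0, w n], ?_, ?_⟩
  · refine tendsto_of_entries fun i j => ?_
    fin_cases i <;> fin_cases j
    · simpa using hpl
    · simpa using hql
    · simpa using hrl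
    · simp
    · simpa using hsl
    · simpa using htl
    · simp
    · simp
    · simpa using hwl
  · filter_upwards [hp'.eventually (lt_mem_nhds one_pos), hs'.eventually (lt_mem_nhds one_pos),
      hw'.eventually (lt_mem_nhds one_pos)] with n hpn hsn hwn
    have hp0 : p n ≠ 0 := (Real.sqrt_pos.mpr hpn).ne'
    have hs0 : s n ≠ 0 := (Real.sqrt_pos.mpr hsn).ne'
    have hpp : p n * p n = ε 0 * M n 0 0 := Real.mul_self_sqrt hpn.le
    have hss : s n * s n = ε 1 * (M n 1 1 - ε 0 * q n * q n) := Real.mul_self_sqrt hsn.le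
    have hww : w n * w n = ε 2 * (M n 2 2 - ε 0 * r n * r n - ε 1 * t n * t n) :=
      Real.mul_self_sqrt hwn.le
    have hpq : p n * q n = ε 0 * M n 0 1 := mul_div_cancel₀ _ hp0
    have hpr : p n * r n = ε 0 * M n 0 2 := mul_div_cancel₀ _ hp0
    have hst : s n * t n = ε 1 * (M n 1 2 - ε 0 * q n * r n) := mul_div_cancel₀ _ hs0
    have e0 := hε 0
    have e1 := hε 1
    have e2 := hε 2
    have hsym : ∀ i j, M n i j = M n j i := fun i j => by
      have := congrFun (congrFun (hM n) j) i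
      exact this
    have k00 : p n * ε 0 * p n = M n 0 0 := by linear_combination ε 0 * hpp + M n 0 0 * e0
    have k01 : p n * ε 0 * q n = M n 0 1 := by linear_combination ε 0 * hpq + M n 0 1 * e0
    have k02 : p n * ε 0 * r n = M n 0 2 := by linear_combination ε 0 * hpr + M n 0 2 * e0
    have k11 : q n * ε 0 * q n + s n * ε 1 * s n = M n 1 1 := by
      linear_combination ε 1 * hss + (M n 1 1 - ε 0 * q n * q n) * e1
    have k12 : q n * ε 0 * r n + s n * ε 1 * t n = M n 1 2 := by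
      linear_combination ε 1 * hst + (M n 1 2 - ε 0 * q n * r n) * e1
    have k22 : r n * ε 0 * r n + t n * ε 1 * t n + w n * ε 2 * w n = M n 2 2 := by
      linear_combination ε 2 * hww + (M n 2 2 - ε 0 * r n * r n - ε 1 * t n * t n) * e2
    ext i j
    fin_cases i <;> fin_cases j
    · simpa [Matrix.mul_apply, Fin.sum_univ_three] using k00
    · simpa [Matrix.mul_apply, Fin.sum_univ_three] using k01
    · simpa [Matrix.mul_apply, Fin.sum_univ_three] using k02
    · have := k01
      rw [hsym] at this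
      simp [Matrix.mul_apply, Fin.sum_univ_three]
      linear_combination this
    · simpa [Matrix.mul_apply, Fin.sum_univ_three] using k11
    · simpa [Matrix.mul_apply, Fin.sum_univ_three] using k12
    · have := k02
      rw [hsym] at this
      simp [Matrix.mul_apply, Fin.sum_univ_three]
      linear_combination this
    · have := k12
      rw [hsym] at this
      simp [Matrix.mul_apply, Fin.sum_univ_three]
      linear_combination this
    · simpa [Matrix.mul_apply, Fin.sum_univ_three] using k22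

end Pool.Agent.Helper64.BC
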