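import Pool.Agent.Helper64.BC.Three
import Pool.Agent.Helper64.BC.Quad
import Pool.Agent.Helper64.BC.Form

/-!
# The strata where the tangent space of the stabilizer is irreducible
-/

set_option autoImplicit false

namespace Pool.Agent.Helper64.BC

open Filter Topology Set
open Pool.Agent.Q27.GS Pool.Agent.Q27.GT
open scoped Matrix.Norms.Operator
attribute [-instance] instTopologicalSpaceMatrix

/-- The invariant bilinear forms. -/
def forms (h : Submodule ℝ M3) : Submodule ℝ M3 where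
  carrier := {Q | ∀ Y ∈ h, Y.transpose * Q + Q * Y = 0}
  add_mem' := by
    intro a b ha hb Y hY
    have h1 := ha Y hY
    have h2 := hb Y hY
    calc Y.transpose * (a + b) + (a + b) * Y
        = (Y.transpose * a + a * Y) + (Y.transpose * b + b * Y) := by noncomm_ring
      _ = 0 := by rw [h1, h2, add_zero]
  zero_mem' := fun Y _ => by rw [mul_zero, zero_mul, add_zero]
  smul_mem' := by
    intro c a ha Y hY
    rw [mul_smul_comm, smul_mul_assoc, ← smul_add, ha Y hY, smul_zero]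

theorem mem_forms {h : Submodule ℝ M3} {Q : M3} :
    Q ∈ forms h ↔ ∀ Y ∈ h, Y.transpose * Q + Q * Y = 0 := Iff.rfl

theorem forms_det {h : Submodule ℝ M3} (hi : Irr h) {Q : M3} (hQ : Q ∈ forms h) (h0 : Q ≠ 0) :
    Q.det ≠ 0 := by
  intro hd
  let K : Submodule ℝ (Fin 3 → ℝ) := LinearMap.ker (Matrix.mulVecLin Q)
  have hK : ∀ v, v ∈ K ↔ Matrix.mulVec Q v = 0 := fun v => by
    rw [LinearMap.mem_ker, Matrix.mulVecLin_apply]
  have h1 : ∀ Y ∈ h, ∀ v ∈ K, Matrix.mulVec Y v ∈ K := by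
    intro Y hY v hv
    rw [hK] at *
    have h2 : Q * Y = -(Y.transpose * Q) := by
      have := hQ Y hY
      rw [add_comm] at this
      exact eq_neg_of_add_eq_zero_left this
    rw [Matrix.mulVec_mulVec, h2, Matrix.neg_mulVec, ← Matrix.mulVec_mulVec, hv,
      Matrix.mulVec_zero, neg_zero]
  rcases hi.no_inv K h1 with h2 | h2
  · obtain ⟨v, hv0, hv⟩ := Matrix.exists_mulVec_eq_zero_iff.mpr hd
    have h3 : v ∈ K := (hK v).mpr hv
    rw [h2, Submodule.mem_bot] at h3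
    exact hv0 h3
  · apply h0
    ext i j
    have h3 : (Pi.single j 1 : Fin 3 → ℝ) ∈ K := by rw [h2]; exact Submodule.mem_top
    rw [hK] at h3
    have h4 := congrFun h3 i
    rw [Matrix.mulVec_single_one] at h4
    exact h4

theorem forms_prop {h : Submodule ℝ M3} (hi : Irr h) {Q Q' : M3} (hQ : Q ∈ forms h) (h0 : Q ≠ 0)
    (hQ' : Q' ∈ forms h) : ∃ c : ℝ, Q' = c • Q := by
  have hd := forms_det hi hQ h0
  have hu : IsUnit Q.det := isUnit_iff_ne_zero.mpr hd
  obtain ⟨c, hc⟩ := exists_eig (Q⁻¹ * Q')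
  refine ⟨c, ?_⟩
  by_contra hne
  have h1 : Q' - c • Q ≠ 0 := fun h => hne (sub_eq_zero.mp h)
  have h2 : Q' - c • Q ∈ forms h := (forms h).sub_mem hQ' ((forms h).smul_mem c hQ)
  apply forms_det hi h2 h1
  have h3 : Q' - c • Q = Q * (Q⁻¹ * Q' - c • (1 : M3)) := by
    rw [mul_sub, ← mul_assoc, Matrix.mul_nonsing_inv Q hu, one_mul, mul_smul_comm, mul_one]
  rw [h3, Matrix.det_mul, hc, mul_zero]

theorem cube_eq_one {c : ℝ} (h : c ^ 3 = 1) : c = 1 := by
  have h1 : (c - 1) * (c ^ 2 + c + 1) = 0 := by linear_combination h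
  rcases mul_eq_zero.mp h1 with h2 | h2
  · linarith
  · nlinarith [sq_nonneg (c + 1 / 2)]

theorem forms_symm {h : Submodule ℝ M3} (hi : Irr h) {Q : M3} (hQ : Q ∈ forms h) :
    Q.transpose = Q := by
  by_cases h0 : Q = 0
  · rw [h0, Matrix.transpose_zero]
  have h1 : Q.transpose ∈ forms h := by
    intro Y hY
    have := congrArg Matrix.transpose (hQ Y hY)
    rw [Matrix.transpose_add, Matrix.transpose_mul, Matrix.transpose_mul,
      Matrix.transpose_transpose, Matrix.transpose_zero, add_comm] at this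
    exact this
  obtain ⟨c, hc⟩ := forms_prop hi hQ h0 h1
  have h2 := congrArg Matrix.det hc
  rw [Matrix.det_transpose, Matrix.det_smul, Fintype.card_fin] at h2
  have h3 : c ^ 3 = 1 := by
    have h4 := forms_det hi hQ h0
    have h5 : (c ^ 3 - 1) * Q.det = 0 := by linear_combination -h2
    rcases mul_eq_zero.mp h5 with h6 | h6
    · linarith
    · exact absurd h6 h4
  rw [hc, cube_eq_one h3, one_smul]

theorem forms_det_one {h : Submodule ℝ M3} (hi : Irr h) {Q Q' : M3} (hQ : Q ∈ forms h)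
    (hQ' : Q' ∈ forms h) (h1 : Q.det = 1) (h2 : Q'.det = 1) : Q' = Q := by
  have h0 : Q ≠ 0 := by
    rintro rfl
    rw [Matrix.det_zero] at h1
    exact zero_ne_one h1
  obtain ⟨c, hc⟩ := forms_prop hi hQ h0 hQ'
  have h3 := congrArg Matrix.det hc
  rw [Matrix.det_smul, Fintype.card_fin, h1, h2, mul_one] at h3
  rw [hc, cube_eq_one h3.symm, one_smul]

variable {A : GSp G3}

theorem usc_forms {s : Set A.X} (hl : Lsc s (hh A)) : Usc s (fun x => forms (hh A x)) := by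
  intro u x hus hx hux w v hw hwv Y hY
  obtain ⟨y, hy, hyY⟩ := hl u x hus hx hux Y hY
  have h1 : Tendsto (fun n => (y n).transpose * w n + w n * y n) atTop
      (𝓝 (Y.transpose * v + v * Y)) :=
    (((continuous_transpose3.tendsto _).comp hyY).mul hwv).add (hwv.mul hyY)
  have h2 : (fun n => (y n).transpose * w n + w n * y n) = fun _ => 0 := by
    funext n
    exact hw n _ (hy n)
  rw [h2] at h1
  exact tendsto_nhds_unique h1 tendsto_const_nhds

theorem finrank_forms {h : Submodule ℝ M3} (hi : Irr h) (hex : ∃ Q ∈ forms h, Q ≠ 0) :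
    Module.finrank ℝ (forms h) = 1 := by
  obtain ⟨Q, hQ, hQ0⟩ := hex
  refine finrank_eq_one_iff'.mpr ⟨⟨Q, hQ⟩, fun h => hQ0 (congrArg Subtype.val h), ?_⟩
  rintro ⟨Q', hQ'⟩
  obtain ⟨c, hc⟩ := forms_prop hi hQ hQ0 hQ'
  exact ⟨c, Subtype.ext hc.symm⟩

/-- The transported form. -/
def fg (g : G3) (Q : M3) : M3 := ((g⁻¹ : G3) : M3).transpose * Q * ((g⁻¹ : G3) : M3)

theorem fg_mul (g h : G3) (Q : M3) : fg (g * h) Q = fg g (fg h Q) := by
  unfold fg
  rw [_root_.mul_inv_rev, Matrix.SpecialLinearGroup.coe_mul, Matrix.transpose_mul]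
  noncomm_ring

theorem fg_det (g : G3) (Q : M3) : (fg g Q).det = Q.det := by
  unfold fg
  rw [Matrix.det_mul, Matrix.det_mul, Matrix.det_transpose, (g⁻¹).det_coe, one_mul, mul_one]

theorem fg_smul (g : G3) (c : ℝ) (Q : M3) : fg g (c • Q) = c • fg g Q := by
  unfold fg
  rw [mul_smul_comm, smul_mul_assoc]

theorem fg_one (Q : M3) : fg 1 Q = Q := by
  unfold fg
  rw [inv_one]
  have h1 : ((1 : G3) : M3) = 1 := rfl
  rw [h1, Matrix.transpose_one, one_mul, mul_one]

theorem fg_inv_fg (g : G3) (Q : M3) : fg g⁻¹ (fg g Q) = Q := by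
  rw [← fg_mul, inv_mul_cancel, fg_one]

theorem fg_mem (g : G3) (x : A.X) {Q : M3} (hQ : Q ∈ forms (hh A x)) :
    fg g Q ∈ forms (hh A (g • x)) := by
  intro Y hY
  have h1 := hh_cg g⁻¹ (g • x) hY
  rw [inv_smul_smul] at h1
  have h2 := hQ _ h1
  rw [cg_apply, inv_inv, Matrix.transpose_mul, Matrix.transpose_mul] at h2
  have h3 : (g : M3) * ((g⁻¹ : G3) : M3) = 1 := coe_mul_inv g
  have h4 : ((g⁻¹ : G3) : M3).transpose * (g : M3).transpose = 1 := by
    rw [← Matrix.transpose_mul, h3, Matrix.transpose_one]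
  unfold fg
  calc Y.transpose * (((g⁻¹ : G3) : M3).transpose * Q * ((g⁻¹ : G3) : M3)) +
        ((g⁻¹ : G3) : M3).transpose * Q * ((g⁻¹ : G3) : M3) * Y
      = 1 * Y.transpose * ((g⁻¹ : G3) : M3).transpose * Q * ((g⁻¹ : G3) : M3) +
        ((g⁻¹ : G3) : M3).transpose * Q * ((g⁻¹ : G3) : M3) * Y * 1 := by noncomm_ring
    _ = (((g⁻¹ : G3) : M3).transpose * (g : M3).transpose) * Y.transpose *
          ((g⁻¹ : G3) : M3).transpose * Q * ((g⁻¹ : G3) : M3) +
        ((g⁻¹ : G3) : M3).transpose * Q * ((g⁻¹ : G3) : M3) * Y *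
          ((g : M3) * ((g⁻¹ : G3) : M3)) := by rw [h3, h4]
    _ = ((g⁻¹ : G3) : M3).transpose * ((g : M3).transpose * (Y.transpose *
          ((g⁻¹ : G3) : M3).transpose) * Q + Q * (((g⁻¹ : G3) : M3) * Y * (g : M3))) *
          ((g⁻¹ : G3) : M3) := by noncomm_ring
    _ = 0 := by rw [h2, mul_zero, zero_mul]

theorem fg_mem_formStab {ε : M3} {g g' : G3} (h : fg g ε = fg g' ε) :
    g⁻¹ * g' ∈ formStab ε := by
  have h1 : fg (g'⁻¹ * g) ε = ε := by
    rw [fg_mul, h, fg_inv_fg]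
  have h2 : (g'⁻¹ * g)⁻¹ = g⁻¹ * g' := by rw [_root_.mul_inv_rev, inv_inv]
  unfold fg at h1
  rw [h2] at h1
  exact h1

/-- The set of the points with an invariant form equivalent to a given one. -/
def sig (A : GSp G3) (ε : Fin 3 → ℝ) (x : A.X) : Prop :=
  ∃ g : G3, fg g (Matrix.diagonal ε) ∈ forms (hh A x)

theorem form_cont {s : Set A.X} (hl : Lsc s (hh A)) (hirr : ∀ x ∈ s, Irr (hh A x))
    (hex : ∀ x ∈ s, ∃ Q ∈ forms (hh A x), Q ≠ 0) (ε : Fin 3 → ℝ) (hε : ∀ i, ε i * ε i = 1)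
    (u : ℕ → A.X) (x : A.X) (hus : ∀ n, u n ∈ s) (hx : x ∈ s) (hux : Tendsto u atTop (𝓝 x))
    (g : G3) (hg : fg g (Matrix.diagonal ε) ∈ forms (hh A x)) :
    ∃ v : ℕ → G3, Tendsto v atTop (𝓝 1) ∧
      ∀ᶠ n in atTop, fg (v n * g) (Matrix.diagonal ε) ∈ forms (hh A (u n)) := by
  have hQl : Lsc s (fun x => forms (hh A x)) :=
    (usc_forms hl).lsc 1 fun x hx => finrank_forms (hirr x hx) (hex x hx)
  obtain ⟨Q, hQ, hQlim⟩ := hQl u x hus hx hux _ hg
  -- transport to the diagonal form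
  set M : ℕ → M3 := fun n => fg g⁻¹ (Q n) with hMdef
  have hM : ∀ n, (M n).transpose = M n := by
    intro n
    have h1 := forms_symm (hirr (u n) (hus n)) (hQ n)
    simp only [hMdef, fg]
    rw [Matrix.transpose_mul, Matrix.transpose_mul, Matrix.transpose_transpose, h1, mul_assoc]
  have hMlim : Tendsto M atTop (𝓝 (Matrix.diagonal ε)) := by
    have h1 : Tendsto M atTop (𝓝 (fg g⁻¹ (fg g (Matrix.diagonal ε)))) :=
      (hQlim.const_mul _).mul_const _
    rwa [fg_inv_fg] at h1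
  obtain ⟨U, hU, hUM⟩ := exists_chol ε hε M hM hMlim
  obtain ⟨κ, c, hκ, hc, hκc⟩ := exists_normalized U hU
  refine ⟨fun n => g * (κ n)⁻¹ * g⁻¹, ?_, ?_⟩
  · have h1 : Tendsto (fun n => g * (κ n)⁻¹ * g⁻¹) atTop (𝓝 (g * 1⁻¹ * g⁻¹)) :=
      (hκ.inv.const_mul g).mul_const g⁻¹
    simpa using h1
  · filter_upwards [hUM, hκc] with n h1 h2
    have h3 : g * (κ n)⁻¹ * g⁻¹ * g = g * (κ n)⁻¹ := by group
    rw [h3, fg_mul]
    have h4 : fg (κ n)⁻¹ (Matrix.diagonal ε) = (c n * c n) • M n := by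
      unfold fg
      rw [inv_inv, h2, Matrix.transpose_smul, ← h1, smul_mul_assoc, smul_mul_assoc, mul_smul_comm,
        smul_smul]
    rw [h4, fg_smul]
    refine Submodule.smul_mem _ _ ?_
    have h5 : fg g (M n) = Q n := by
      have := fg_inv_fg g⁻¹ (Q n)
      rwa [inv_inv] at this
    rw [h5]
    exact hQ n

theorem sig_smul {ε : Fin 3 → ℝ} (g : G3) (x : A.X) (h : sig A ε x) : sig A ε (g • x) := by
  obtain ⟨k, hk⟩ := h
  refine ⟨g * k, ?_⟩
  rw [fg_mul]
  exact fg_mem g x hk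

theorem good_sig {BC : GSp G3 → Prop} (ε : Fin 3 → ℝ) (hε : ∀ i, ε i * ε i = 1)
    (hdet : (Matrix.diagonal ε : M3).det = 1)
    (hL : Over BC (formStab (Matrix.diagonal ε))) (A : GSp G3) (s : Set A.X)
    (hl : Lsc s (hh A)) (hirr : ∀ x ∈ s, Irr (hh A x))
    (hex : ∀ x ∈ s, ∃ Q ∈ forms (hh A x), Q ≠ 0) (hsig : ∀ x ∈ s, sig A ε x) : Good BC A s := by
  intro hs hi
  refine hL _ (exists_map A s hs hi _ (fun x g => fg g (Matrix.diagonal ε) ∈ forms (hh A x))
    hsig ?_ ?_ ?_)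
  · intro x hx g g' hg hg'
    refine fg_mem_formStab (forms_det_one (hirr x hx) hg' hg ?_ ?_)
    · rw [fg_det, hdet]
    · rw [fg_det, hdet]
  · intro x _ g h hg
    rw [fg_mul]
    exact fg_mem h x hg
  · intro u x hus hx hux g hg
    exact form_cont hl hirr hex ε hε u x hus hx hux g hg

theorem one_mul_one' : ∀ i, (1 : Fin 3 → ℝ) i * (1 : Fin 3 → ℝ) i = 1 := fun i => by simp

theorem eps_mul_eps : ∀ i, eps i * eps i = 1 := fun i => by fin_cases i <;> simp [eps]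

theorem det_one' : (Matrix.diagonal (1 : Fin 3 → ℝ) : M3).det = 1 := by
  rw [Matrix.det_diagonal]
  simp

theorem det_eps : (Matrix.diagonal eps : M3).det = 1 := by
  rw [Matrix.det_diagonal, Fin.prod_univ_three]
  simp [eps]

theorem sig_disj {x : A.X} (hi : Irr (hh A x)) (h1 : sig A 1 x) (h2 : sig A eps x) : False := by
  obtain ⟨g, hg⟩ := h1
  obtain ⟨k, hk⟩ := h2
  have h3 : fg g (Matrix.diagonal 1) = fg k (Matrix.diagonal eps) :=
    forms_det_one hi hk hg (by rw [fg_det, det_eps]) (by rw [fg_det, det_one'])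
  have h4 : fg (k⁻¹ * g) (Matrix.diagonal 1) = Matrix.diagonal eps := by
    rw [fg_mul, h3, fg_inv_fg]
  set m : M3 := (((k⁻¹ * g)⁻¹ : G3) : M3) with hm
  have h5 : m.transpose * Matrix.diagonal 1 * m = Matrix.diagonal eps := h4
  have h6 := congrFun (congrFun h5 1) 1
  have h7 : (m.transpose * Matrix.diagonal (1 : Fin 3 → ℝ) * m) 1 1 =
      m 0 1 * m 0 1 + m 1 1 * m 1 1 + m 2 1 * m 2 1 := by
    rw [Matrix.mul_apply, Fin.sum_univ_three, Matrix.mul_diagonal, Matrix.mul_diagonal,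
      Matrix.mul_diagonal]
    simp [Matrix.transpose_apply]
  rw [h7, Matrix.diagonal_apply_eq] at h6
  have h8 : eps 1 = -1 := by simp [eps]
  rw [h8] at h6
  nlinarith [mul_self_nonneg (m 0 1), mul_self_nonneg (m 1 1), mul_self_nonneg (m 2 1)]

theorem sig_or {x : A.X} (hi : Irr (hh A x)) (hex : ∃ Q ∈ forms (hh A x), Q ≠ 0) :
    sig A 1 x ∨ sig A eps x := by
  obtain ⟨Q, hQ, hQ0⟩ := hex
  obtain ⟨M, c, h⟩ := exists_sig Q (forms_symm hi hQ) (forms_det hi hQ hQ0)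
  -- the element with the right inverse transpose
  have hdet : ((M : M3).transpose).det = 1 := by rw [Matrix.det_transpose, M.det_coe]
  obtain ⟨N, hN⟩ : ∃ N : G3, (N : M3) = (M : M3).transpose := ⟨⟨_, hdet⟩, rfl⟩
  have hfg : ∀ τ : Fin 3 → ℝ, (M : M3) * Matrix.diagonal τ * (M : M3).transpose = c • Q →
      sig A τ x := by
    intro τ hτ
    refine ⟨N⁻¹, ?_⟩
    unfold fg
    rw [inv_inv, hN, Matrix.transpose_transpose, hτ]
    exact (forms _).smul_mem c hQ
  rcases h with h | h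
  · exact Or.inl (hfg _ h)
  · exact Or.inr (hfg _ h)

theorem good_forms {BC : GSp G3 → Prop} (hexc : Excision BC)
    (hL1 : Over BC (formStab (Matrix.diagonal 1)))
    (hL2 : Over BC (formStab (Matrix.diagonal eps))) (A : GSp G3) (s : Set A.X)
    (hl : Lsc s (hh A)) (hirr : ∀ x ∈ s, Irr (hh A x))
    (hex : ∀ x ∈ s, ∃ Q ∈ forms (hh A x), Q ≠ 0) : Good BC A s := by
  intro hs hi
  refine good_of_closed hexc A hs hi (t := {x | x ∈ s ∧ sig A 1 x}) (fun x hx => hx.1)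
    (fun g x hx => ⟨hi g x hx.1, sig_smul g x hx.2⟩) ?_ ?_ ?_
  · intro u x hux hx hlim
    refine ⟨hx, ?_⟩
    rcases sig_or (hirr x hx) (hex x hx) with h | ⟨g, hg⟩
    · exact h
    · exfalso
      obtain ⟨v, -, hv⟩ := form_cont hl hirr hex eps eps_mul_eps u x (fun n => (hux n).1) hx hlim
        g hg
      obtain ⟨n, hn⟩ := hv.exists
      exact sig_disj (hirr _ (hux n).1) (hux n).2 ⟨_, hn⟩
  · exact good_sig 1 one_mul_one' det_one' hL1 A _ (hl.mono fun x hx => hx.1)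
      (fun x hx => hirr x hx.1) (fun x hx => hex x hx.1) (fun x hx => hx.2)
  · refine good_sig eps eps_mul_eps det_eps hL2 A _ (hl.mono fun x hx => hx.1)
      (fun x hx => hirr x hx.1) (fun x hx => hex x hx.1) ?_
    rintro x ⟨hx, hx'⟩
    rcases sig_or (hirr x hx) (hex x hx) with h | h
    · exact absurd ⟨hx, h⟩ hx'
    · exact h

end Pool.Agent.Helper64.BC
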