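import Pool.Agent.Helper64.BC.Tan

/-!
# Subgroups of `SL_3(ℝ)` with the full tangent space
-/

set_option autoImplicit false

namespace Pool.Agent.Helper64.BC

open Matrix

/-! ### Generation by transvections -/

/-- `M` is the matrix of an element of `H`. -/
def InH (H : Subgroup G3) (M : M3) : Prop := ∃ g ∈ H, (g : M3) = M

theorem InH.mul {H : Subgroup G3} {M N : M3} (hM : InH H M) (hN : InH H N) : InH H (M * N) := by
  obtain ⟨g, hg, rfl⟩ := hM
  obtain ⟨k, hk, rfl⟩ := hN
  exact ⟨g * k, H.mul_mem hg hk, Matrix.SpecialLinearGroup.coe_mul g k⟩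

theorem InH.one (H : Subgroup G3) : InH H 1 := ⟨1, H.one_mem, rfl⟩

theorem eq_top_of_transvections (H : Subgroup G3)
    (h : ∀ (i j : Fin 3), i ≠ j → ∀ c : ℝ, InH H (Matrix.transvection i j c)) : H = ⊤ := by
  have hlist : ∀ L : List (Matrix.TransvectionStruct (Fin 3) ℝ),
      InH H (L.map Matrix.TransvectionStruct.toMatrix).prod := by
    intro L
    induction L with
    | nil => exact InH.one H
    | cons t L ih =>
      rw [List.map_cons, List.prod_cons]
      exact (h t.i t.j t.hij t.c).mul ih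
  have e : ∀ (i j : Fin 3) (c : ℝ), Matrix.transvection i j c = 1 + Matrix.single i j c :=
    fun _ _ _ => rfl
  have h01 := fun c => h 0 1 (by decide) c
  have h10 := fun c => h 1 0 (by decide) c
  have h12 := fun c => h 1 2 (by decide) c
  have h21 := fun c => h 2 1 (by decide) c
  have hD1 : ∀ a : ℝ, a ≠ 0 → InH H !![a, 0, 0; 0, a⁻¹, 0; 0, 0, 1] := by
    intro a ha
    have h1 := ((((h01 a).mul (h10 (-a⁻¹))).mul (h01 a)).mul
      (((h01 (-1)).mul (h10 1)).mul (h01 (-1))))
    have h2 : Matrix.transvection 0 1 a * Matrix.transvection 1 0 (-a⁻¹) *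
        Matrix.transvection 0 1 a * (Matrix.transvection 0 1 (-1) * Matrix.transvection 1 0 1 *
        Matrix.transvection 0 1 (-1)) = (!![a, 0, 0; 0, a⁻¹, 0; 0, 0, 1] : M3) := by
      simp only [e]
      ext i j
      fin_cases i <;> fin_cases j <;>
        simp [Matrix.mul_apply, Fin.sum_univ_three, Matrix.single_apply, ha]
    rwa [h2] at h1
  have hD2 : ∀ a : ℝ, a ≠ 0 → InH H !![1, 0, 0; 0, a, 0; 0, 0, a⁻¹] := by
    intro a ha
    have h1 := ((((h12 a).mul (h21 (-a⁻¹))).mul (h12 a)).mul
      (((h12 (-1)).mul (h21 1)).mul (h12 (-1))))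
    have h2 : Matrix.transvection 1 2 a * Matrix.transvection 2 1 (-a⁻¹) *
        Matrix.transvection 1 2 a * (Matrix.transvection 1 2 (-1) * Matrix.transvection 2 1 1 *
        Matrix.transvection 1 2 (-1)) = (!![1, 0, 0; 0, a, 0; 0, 0, a⁻¹] : M3) := by
      simp only [e]
      ext i j
      fin_cases i <;> fin_cases j <;>
        simp [Matrix.mul_apply, Fin.sum_univ_three, Matrix.single_apply, ha]
    rwa [h2] at h1
  rw [eq_top_iff]
  intro g _
  obtain ⟨L, L', D, hD⟩ := Matrix.Pivot.exists_list_transvec_mul_diagonal_mul_list_transvec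
    (g : M3)
  have hdet : D 0 * D 1 * D 2 = 1 := by
    have h1 := congrArg Matrix.det hD
    rw [g.det_coe, Matrix.det_mul, Matrix.det_mul, Matrix.TransvectionStruct.det_toMatrix_prod,
      Matrix.TransvectionStruct.det_toMatrix_prod, Matrix.det_diagonal, Fin.prod_univ_three] at h1
    linarith
  have h0 : D 0 ≠ 0 := by
    intro h0
    rw [h0] at hdet
    simp at hdet
  have h01' : D 0 * D 1 ≠ 0 := by
    intro h0
    rw [h0] at hdet
    simp at hdet
  have hdiag : InH H (Matrix.diagonal D) := by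
    have h1 := (hD1 (D 0) h0).mul (hD2 (D 0 * D 1) h01')
    have h2 : (!![D 0, 0, 0; 0, (D 0)⁻¹, 0; 0, 0, 1] : M3) *
        !![1, 0, 0; 0, D 0 * D 1, 0; 0, 0, (D 0 * D 1)⁻¹] = Matrix.diagonal D := by
      have h3 : (D 0 * D 1)⁻¹ = D 2 := by
        exact inv_eq_of_mul_eq_one_right hdet
      rw [h3]
      ext i j
      fin_cases i <;> fin_cases j <;>
        simp [Matrix.mul_apply, Fin.sum_univ_three, h0]
    rwa [h2] at h1
  obtain ⟨k, hk, hkg⟩ := ((hlist L).mul hdiag).mul (hlist L')
  have : k = g := Subtype.ext (hkg.trans hD.symm)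
  rwa [this] at hk

/-- A closed subgroup whose tangent space contains all matrices of trace zero is everything. -/
theorem eq_top_of_tan (H : Subgroup G3) (hH : IsClosed (H : Set G3))
    (h : ∀ Y : M3, Y.trace = 0 → Y ∈ tan H) : H = ⊤ := by
  refine eq_top_of_transvections H fun i j hij c => ?_
  refine ⟨⟨Matrix.transvection i j c, Matrix.det_transvection_of_ne i j hij c⟩, ?_, rfl⟩
  refine one_add_mem hH (Y := Matrix.single i j c) (h _ ?_) ?_ _ rfl
  · rw [Matrix.trace_single_eq_of_ne _ _ _ hij]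
  · exact Matrix.single_mul_single_of_ne _ _ _ _ hij.symm _

end Pool.Agent.Helper64.BC
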