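import Pool.Agent.Helper64.BC.Rad

/-!
# The strata where the radical is zero and there are central idempotents of trace one
-/

set_option autoImplicit false

namespace Pool.Agent.Helper64.BC

open Filter Topology Set
open Pool.Agent.Q27.GS Pool.Agent.Q27.GT
open scoped Matrix.Norms.Operator
attribute [-instance] instTopologicalSpaceMatrix

theorem idem_ne_zero {B : Subalgebra ℝ M3} {e : M3} (he : e ∈ idem B) : e ≠ 0 := by
  rintro rfl
  have := he.2.2.2
  rw [Matrix.trace_zero] at this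
  exact zero_ne_one this

theorem one_le_norm_idem {e : M3} (he : e * e = e) (h0 : e ≠ 0) : 1 ≤ ‖e‖ := by
  have h1 : ‖e‖ ≤ ‖e‖ * ‖e‖ := by
    calc ‖e‖ = ‖e * e‖ := by rw [he]
      _ ≤ ‖e‖ * ‖e‖ := norm_mul_le e e
  have h2 : 0 < ‖e‖ := norm_pos_iff.mpr h0
  nlinarith

variable {A : GSp G3}

/-- The central idempotents of trace one of the algebras over a convergent sequence have a
convergent subsequence. -/
theorem idem_compact {s : Set A.X} (hl : Lsc s (fun x => Subalgebra.toSubmodule (BB A x)))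
    (hu : Usc s (fun x => Subalgebra.toSubmodule (BB A x)))
    (hr : ∀ x ∈ s, rad (BB A x) = ⊥) {u : ℕ → A.X} {x : A.X} (hus : ∀ n, u n ∈ s) (hx : x ∈ s)
    (hux : Tendsto u atTop (𝓝 x)) (e : ℕ → M3) (he : ∀ n, e n ∈ idem (BB A (u n))) :
    ∃ (f : M3) (φ : ℕ → ℕ), StrictMono φ ∧ Tendsto (e ∘ φ) atTop (𝓝 f) ∧ f ∈ idem (BB A x) := by
  have hn : ∀ n, 1 ≤ ‖e n‖ := fun n => one_le_norm_idem (he n).2.2.1 (idem_ne_zero (he n))
  have hpos : ∀ n, 0 < ‖e n‖ := fun n => lt_of_lt_of_le one_pos (hn n)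
  obtain ⟨N, φ, hφ, hN, hN1⟩ := exists_unit_subseq (fun n => ‖e n‖⁻¹ • e n) (fun n => by
    rw [norm_smul, norm_inv, norm_norm, inv_mul_cancel₀ (hpos n).ne'])
  obtain ⟨c, ψ, hψ, hc⟩ := exists_subseq_of_bdd (fun n => ‖e (φ n)‖⁻¹) 1 (fun n => by
    rw [Real.norm_of_nonneg (inv_nonneg.mpr (norm_nonneg _))]
    exact inv_le_one_of_one_le₀ (hn _))
  set θ : ℕ → ℕ := φ ∘ ψ with hθ
  have hθm : StrictMono θ := hφ.comp hψ
  have hN' : Tendsto (fun n => ‖e (θ n)‖⁻¹ • e (θ n)) atTop (𝓝 N) :=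
    hN.comp hψ.tendsto_atTop
  have hc' : Tendsto (fun n => ‖e (θ n)‖⁻¹) atTop (𝓝 c) := hc
  have huθ : Tendsto (fun n => u (θ n)) atTop (𝓝 x) := hux.comp hθm.tendsto_atTop
  -- the limit lies in the algebra
  have hNB : N ∈ BB A x := hu (fun n => u (θ n)) x (fun n => hus _) hx huθ _ N
    (fun n => (BB A (u (θ n))).smul_mem (he (θ n)).1 _) hN'
  -- and is central
  have hNc : ∀ Z ∈ BB A x, N * Z = Z * N := by
    intro Z hZ
    obtain ⟨z, hz, hzZ⟩ := hl (fun n => u (θ n)) x (fun n => hus _) hx huθ Z hZ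
    have h1 := hN'.mul hzZ
    have h2 := hzZ.mul hN'
    have h3 : (fun n => ‖e (θ n)‖⁻¹ • e (θ n) * z n) = fun n => z n * ‖e (θ n)‖⁻¹ • e (θ n) := by
      funext n
      rw [smul_mul_assoc, mul_smul_comm, (he (θ n)).2.1 _ (hz n)]
    rw [h3] at h1
    exact tendsto_nhds_unique h1 h2
  have hNN : N * N = c • N := by
    have h1 := hN'.mul hN'
    have h2 := hc'.smul hN'
    have h3 : (fun n => ‖e (θ n)‖⁻¹ • e (θ n) * ‖e (θ n)‖⁻¹ • e (θ n)) =
        fun n => ‖e (θ n)‖⁻¹ • ‖e (θ n)‖⁻¹ • e (θ n) := by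
      funext n
      rw [smul_mul_assoc, mul_smul_comm, (he (θ n)).2.2.1]
    rw [h3] at h1
    exact tendsto_nhds_unique h1 h2
  have hNt : N.trace = c := by
    have h1 := (continuous_trace3.tendsto N).comp hN'
    have h2 : ((fun Y : M3 => Y.trace) ∘ fun n => ‖e (θ n)‖⁻¹ • e (θ n)) =
        fun n => ‖e (θ n)‖⁻¹ := by
      funext n
      change (‖e (θ n)‖⁻¹ • e (θ n)).trace = _
      rw [Matrix.trace_smul, (he (θ n)).2.2.2, smul_eq_mul, mul_one]
    rw [h2] at h1
    exact tendsto_nhds_unique h1 hc'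
  have hc0 : c ≠ 0 := by
    rintro rfl
    rw [zero_smul] at hNN
    have h1 : N ∈ rad (BB A x) := by
      refine ⟨hNB, fun Z hZ => ?_⟩
      have h2 : (N * Z) * (N * Z) = 0 := by
        calc (N * Z) * (N * Z) = N * (Z * N) * Z := by noncomm_ring
          _ = N * (N * Z) * Z := by rw [hNc Z hZ]
          _ = (N * N) * (Z * Z) := by noncomm_ring
          _ = 0 := by rw [hNN, zero_mul]
      have h3 : IsNilpotent (N * Z) := ⟨2, by rw [pow_two, h2]⟩
      exact (Matrix.isNilpotent_trace_of_isNilpotent h3).eq_zero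
    rw [hr x hx, Submodule.mem_bot] at h1
    rw [h1, norm_zero] at hN1
    exact zero_ne_one hN1
  refine ⟨c⁻¹ • N, θ, hθm, ?_, (BB A x).smul_mem hNB _, fun Z hZ => ?_, ?_, ?_⟩
  · have h1 := (hc'.inv₀ hc0).smul hN'
    refine h1.congr fun n => ?_
    rw [inv_inv, smul_smul, mul_inv_cancel₀ (hpos _).ne', one_smul]
    rfl
  · rw [smul_mul_assoc, mul_smul_comm, hNc Z hZ]
  · rw [smul_mul_smul_comm, hNN, smul_smul, mul_assoc, inv_mul_cancel₀ hc0, mul_one]
  · rw [Matrix.trace_smul, hNt, smul_eq_mul, inv_mul_cancel₀ hc0]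

/-- Uniqueness of the idempotent gives convergence. -/
theorem idem_tendsto {s : Set A.X} (hl : Lsc s (fun x => Subalgebra.toSubmodule (BB A x)))
    (hu : Usc s (fun x => Subalgebra.toSubmodule (BB A x)))
    (hr : ∀ x ∈ s, rad (BB A x) = ⊥) {u : ℕ → A.X} {x : A.X} (hus : ∀ n, u n ∈ s) (hx : x ∈ s)
    (hux : Tendsto u atTop (𝓝 x)) (e : ℕ → M3) (he : ∀ n, e n ∈ idem (BB A (u n)))
    (hsub : (idem (BB A x)).Subsingleton) (f : M3) (hf : f ∈ idem (BB A x)) :
    Tendsto e atTop (𝓝 f) := by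
  refine tendsto_of_subseq_tendsto fun ns hns => ?_
  obtain ⟨f', φ, -, hlim, hf'⟩ := idem_compact hl hu hr (u := fun n => u (ns n)) (fun n => hus _)
    hx (hux.comp hns) (fun n => e (ns n)) (fun n => he _)
  refine ⟨φ, ?_⟩
  rw [hsub hf hf']
  exact hlim

/-- The space fixed by all the idempotents. -/
def fixI (B : Subalgebra ℝ M3) : Submodule ℝ (Fin 3 → ℝ) where
  carrier := {v | ∀ e ∈ idem B, Matrix.mulVec e v = v}
  add_mem' := by
    intro a b ha hb e he
    rw [Matrix.mulVec_add, ha e he, hb e he]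
  zero_mem' := fun e _ => Matrix.mulVec_zero e
  smul_mem' := by
    intro c a ha e he
    rw [Matrix.mulVec_smul, ha e he]

theorem finrank_range_idem {e : M3} (h : e * e = e) (ht : e.trace = 1) :
    Module.finrank ℝ (LinearMap.range (Matrix.toLin' e)) = 1 := by
  have h1 : IsIdempotentElem (Matrix.toLin' e) := by
    change Matrix.toLin' e * Matrix.toLin' e = Matrix.toLin' e
    rw [Module.End.mul_eq_comp, ← Matrix.toLin'_mul, h]
  have h2 := (LinearMap.IsIdempotentElem.isProj_range _ h1).trace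
  rw [Matrix.trace_toLin'_eq, ht] at h2
  exact_mod_cast h2.symm

theorem mem_range_idem {e : M3} (h : e * e = e) (v : Fin 3 → ℝ) :
    v ∈ LinearMap.range (Matrix.toLin' e) ↔ Matrix.mulVec e v = v := by
  constructor
  · rintro ⟨w, rfl⟩
    rw [Matrix.toLin'_apply, Matrix.mulVec_mulVec, h]
  · intro hv
    exact ⟨v, by rw [Matrix.toLin'_apply, hv]⟩

theorem finrank_fixI {B : Subalgebra ℝ M3} (h1 : (idem B).Nonempty) (h2 : (idem B).Subsingleton) :
    Module.finrank ℝ (fixI B) = 1 := by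
  obtain ⟨e, he⟩ := h1
  have h3 : fixI B = LinearMap.range (Matrix.toLin' e) := by
    ext v
    rw [mem_range_idem he.2.2.1]
    constructor
    · exact fun h => h e he
    · intro h f hf
      rw [h2 hf he]
      exact h
  rw [h3]
  exact finrank_range_idem he.2.2.1 he.2.2.2

theorem idem_cg_inv (g : G3) (x : A.X) {e : M3} (he : e ∈ idem (BB A (g • x))) :
    cg g⁻¹ e ∈ idem (BB A x) := by
  have := idem_cg g⁻¹ (g • x) he
  rwa [inv_smul_smul] at this

theorem fixI_vg (g : G3) (x : A.X) {v : Fin 3 → ℝ} (hv : v ∈ fixI (BB A x)) :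
    vg g v ∈ fixI (BB A (g • x)) := by
  intro e he
  have h1 := hv _ (idem_cg_inv g x he)
  have h2 : e = cg g (cg g⁻¹ e) := (cg_cg_inv g e).symm
  conv_lhs => rw [h2]
  rw [cg_apply g, vg_apply, Matrix.mulVec_mulVec, mul_assoc, coe_inv_mul, mul_one,
    ← Matrix.mulVec_mulVec, h1]

/-- The stratum with exactly one idempotent. -/
theorem good_one {BC : GSp G3 → Prop} (hL : Over BC lineStab) (A : GSp G3) (s : Set A.X)
    (hl : Lsc s (fun x => Subalgebra.toSubmodule (BB A x)))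
    (hu : Usc s (fun x => Subalgebra.toSubmodule (BB A x)))
    (hr : ∀ x ∈ s, rad (BB A x) = ⊥) (h1 : ∀ x ∈ s, (idem (BB A x)).Nonempty)
    (h2 : ∀ x ∈ s, (idem (BB A x)).Subsingleton) : Good BC A s := by
  refine good_line hL A s (fun x => fixI (BB A x)) (fun g x v hv => fixI_vg g x hv)
    (fun x hx => finrank_fixI (h1 x hx) (h2 x hx)) ?_
  intro u x hus hx hux v hv
  choose e he using fun n => h1 (u n) (hus n)
  obtain ⟨f, hf⟩ := h1 x hx
  have hlim := idem_tendsto hl hu hr hus hx hux e he (h2 x hx) f hf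
  refine ⟨fun n => Matrix.mulVec (e n) v, fun n e' he' => ?_, ?_⟩
  · rw [h2 _ (hus n) he' (he n), Matrix.mulVec_mulVec, (he n).2.2.1]
  · have h3 := ((continuous_mulVec v).tendsto f).comp hlim
    rw [hv f hf] at h3
    exact h3

end Pool.Agent.Helper64.BC
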