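import Pool.Agent.Helper64.BC.Cls

/-!
# Irreducible Lie algebras of real 3 by 3 matrices: preparations
-/

set_option autoImplicit false

namespace Pool.Agent.Helper64.BC

open Matrix

/-- A space of matrices without common eigenvectors, and the same for the transposed matrices. -/
structure Irr (h : Submodule ℝ M3) : Prop where
  right : ∀ v : Fin 3 → ℝ, v ≠ 0 → ∃ Y ∈ h, ∀ c : ℝ, Y *ᵥ v ≠ c • v
  left : ∀ v : Fin 3 → ℝ, v ≠ 0 → ∃ Y ∈ h, ∀ c : ℝ, v ᵥ* Y ≠ c • v

/-- The transposed space. -/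
def tsp (h : Submodule ℝ M3) : Submodule ℝ M3 :=
  h.comap (Matrix.transposeLinearEquiv (Fin 3) (Fin 3) ℝ ℝ).toLinearMap

theorem mem_tsp {h : Submodule ℝ M3} {Y : M3} : Y ∈ tsp h ↔ Yᵀ ∈ h := Iff.rfl

theorem Irr.tsp {h : Submodule ℝ M3} (hi : Irr h) : Irr (tsp h) := by
  constructor
  · intro v hv
    obtain ⟨Y, hY, hc⟩ := hi.left v hv
    refine ⟨Yᵀ, by rw [mem_tsp, Matrix.transpose_transpose]; exact hY, fun c => ?_⟩
    rw [Matrix.mulVec_transpose]
    exact hc c
  · intro v hv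
    obtain ⟨Y, hY, hc⟩ := hi.right v hv
    refine ⟨Yᵀ, by rw [mem_tsp, Matrix.transpose_transpose]; exact hY, fun c => ?_⟩
    rw [Matrix.vecMul_transpose]
    exact hc c

/-- An irreducible space has no invariant subspaces. -/
theorem Irr.no_inv {h : Submodule ℝ M3} (hi : Irr h) (K : Submodule ℝ (Fin 3 → ℝ))
    (hK : ∀ Y ∈ h, ∀ v ∈ K, Y *ᵥ v ∈ K) : K = ⊥ ∨ K = ⊤ := by
  have hle : Module.finrank ℝ K ≤ 3 := by
    calc Module.finrank ℝ K ≤ Module.finrank ℝ (Fin 3 → ℝ) := Submodule.finrank_le K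
      _ = 3 := by simp
  rcases (by omega : Module.finrank ℝ K = 0 ∨ Module.finrank ℝ K = 1 ∨ Module.finrank ℝ K = 2 ∨
    Module.finrank ℝ K = 3) with h0 | h1 | h2 | h3
  · exact Or.inl (Submodule.finrank_eq_zero.mp h0)
  · exfalso
    obtain ⟨v, hv, hspan⟩ := finrank_eq_one_iff'.mp h1
    have hv0 : (v : Fin 3 → ℝ) ≠ 0 := fun h => hv (Subtype.ext h)
    obtain ⟨Y, hY, hc⟩ := hi.right v hv0
    obtain ⟨c, hc'⟩ := hspan ⟨Y *ᵥ v, hK Y hY v v.2⟩
    exact hc c (congrArg Subtype.val hc').symm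
  · exfalso
    let b := Module.finBasisOfFinrankEq ℝ K h2
    have hli : LinearIndependent ℝ ![(b 0 : Fin 3 → ℝ), (b 1 : Fin 3 → ℝ)] := by
      have h1 := b.linearIndependent.map' K.subtype (Submodule.ker_subtype _)
      have : (K.subtype ∘ b) = ![(b 0 : Fin 3 → ℝ), (b 1 : Fin 3 → ℝ)] := by
        funext i
        fin_cases i <;> rfl
      rwa [this] at h1
    set p := (b 0 : Fin 3 → ℝ) with hp
    set q := (b 1 : Fin 3 → ℝ) with hq
    have hne : p ⨯₃ q ≠ 0 := crossProduct_ne_zero_iff_linearIndependent.mpr hli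
    obtain ⟨Y, hY, hc⟩ := hi.left _ hne
    -- `φ Y` is orthogonal to `p` and `q`
    set φ := p ⨯₃ q with hφ
    have hperp : ∀ w ∈ K, φ ⬝ᵥ w = 0 := by
      intro w hw
      have h1 := b.sum_repr ⟨w, hw⟩
      rw [Fin.sum_univ_two] at h1
      have h2' : w = (b.repr ⟨w, hw⟩ 0) • p + (b.repr ⟨w, hw⟩ 1) • q := by
        have := congrArg Subtype.val h1
        exact this.symm
      rw [h2', dotProduct_add, dotProduct_smul, dotProduct_smul]
      have e1 : φ ⬝ᵥ p = 0 := by rw [dotProduct_comm, hφ]; exact dot_self_cross p q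
      have e2 : φ ⬝ᵥ q = 0 := by rw [dotProduct_comm, hφ]; exact dot_cross_self p q
      rw [e1, e2, smul_zero, smul_zero, add_zero]
    have hψ : ∀ w ∈ K, (φ ᵥ* Y) ⬝ᵥ w = 0 := by
      intro w hw
      rw [← Matrix.dotProduct_mulVec]
      exact hperp _ (hK Y hY w hw)
    have h4' : (φ ᵥ* Y) ⨯₃ (p ⨯₃ q) = 0 := by
      rw [cross_cross_eq_smul_sub_smul', hψ q (b 1).2, dotProduct_comm p, hψ p (b 0).2, zero_smul,
        zero_smul, sub_zero]
    have h4 : (φ ᵥ* Y) ⨯₃ φ = 0 := h4'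
    have h5 : ¬ LinearIndependent ℝ ![φ ᵥ* Y, φ] := by
      intro h
      exact crossProduct_ne_zero_iff_linearIndependent.mpr h h4
    rw [LinearIndependent.pair_iff] at h5
    push Not at h5
    obtain ⟨s, t, hst, hne'⟩ := h5
    by_cases hs : s = 0
    · subst hs
      rw [zero_smul, zero_add] at hst
      have ht := hne' rfl
      exact hne ((smul_eq_zero.mp hst).resolve_left ht)
    · apply hc (-(t / s))
      have h6 : s • (φ ᵥ* Y) = -(t • φ) := eq_neg_of_add_eq_zero_left hst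
      have h7 : φ ᵥ* Y = s⁻¹ • (s • (φ ᵥ* Y)) := by rw [smul_smul, inv_mul_cancel₀ hs, one_smul]
      rw [h7, h6, smul_neg, smul_smul, neg_smul]
      congr 2
      field_simp
  · right
    exact Submodule.eq_top_of_finrank_eq (by rw [h3]; simp)

/-- A real 3 by 3 matrix has a real eigenvalue. -/
theorem exists_eig (Y : M3) : ∃ c : ℝ, (Y - c • (1 : M3)).det = 0 := by
  set t : ℝ := Y.trace
  set s : ℝ := Y 0 0 * Y 1 1 - Y 0 1 * Y 1 0 + Y 0 0 * Y 2 2 - Y 0 2 * Y 2 0 + Y 1 1 * Y 2 2 -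
    Y 1 2 * Y 2 1
  have hdet : ∀ c : ℝ, (Y - c • (1 : M3)).det = -c ^ 3 + t * c ^ 2 - s * c + Y.det := by
    intro c
    simp only [Matrix.det_fin_three, t, s, Matrix.trace_fin_three]
    simp
    ring
  let f : ℝ → ℝ := fun c => -c ^ 3 + t * c ^ 2 - s * c + Y.det
  have hf : Continuous f := by
    change Continuous fun c : ℝ => -c ^ 3 + t * c ^ 2 - s * c + Y.det
    fun_prop
  set R : ℝ := 1 + |t| + |s| + |Y.det| with hR
  have hR1 : 1 ≤ R := by
    have := abs_nonneg t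
    have := abs_nonneg s
    have := abs_nonneg Y.det
    linarith
  have hbig : |t| * R ^ 2 + |s| * R + |Y.det| < R ^ 3 := by
    have h1 : |s| * R ≤ |s| * R ^ 2 := by
      apply mul_le_mul_of_nonneg_left _ (abs_nonneg s)
      nlinarith
    have h2 : |Y.det| ≤ |Y.det| * R ^ 2 := by
      have : 1 ≤ R ^ 2 := by nlinarith
      nlinarith [abs_nonneg Y.det]
    have h3 : R ^ 3 = R ^ 2 + |t| * R ^ 2 + |s| * R ^ 2 + |Y.det| * R ^ 2 := by
      calc R ^ 3 = R * R ^ 2 := by ring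
        _ = (1 + |t| + |s| + |Y.det|) * R ^ 2 := by rw [← hR]
        _ = _ := by ring
    have h4 : 0 < R ^ 2 := by positivity
    linarith
  have hpos : 0 < f (-R) := by
    change 0 < -(-R) ^ 3 + t * (-R) ^ 2 - s * (-R) + Y.det
    have h1 := neg_abs_le t
    have h2 := neg_abs_le s
    have h3 := neg_abs_le Y.det
    have h4 : -|t| * R ^ 2 ≤ t * R ^ 2 := mul_le_mul_of_nonneg_right h1 (by positivity)
    have h5 : -|s| * R ≤ s * R := mul_le_mul_of_nonneg_right h2 (by linarith)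
    nlinarith
  have hneg : f R < 0 := by
    change -R ^ 3 + t * R ^ 2 - s * R + Y.det < 0
    have h1 := le_abs_self t
    have h2 := neg_abs_le s
    have h3 := le_abs_self Y.det
    have h4 : t * R ^ 2 ≤ |t| * R ^ 2 := mul_le_mul_of_nonneg_right h1 (by positivity)
    have h5 : -|s| * R ≤ s * R := mul_le_mul_of_nonneg_right h2 (by linarith)
    nlinarith
  have h0 : (0 : ℝ) ∈ Set.Icc (f R) (f (-R)) := ⟨hneg.le, hpos.le⟩
  obtain ⟨c, _, hc⟩ := intermediate_value_Icc' (by linarith : -R ≤ R) hf.continuousOn h0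
  exact ⟨c, by rw [hdet]; exact hc⟩

theorem exists_eigvec (Y : M3) : ∃ (c : ℝ) (v : Fin 3 → ℝ), v ≠ 0 ∧ Y *ᵥ v = c • v := by
  obtain ⟨c, hc⟩ := exists_eig Y
  obtain ⟨v, hv, h⟩ := Matrix.exists_mulVec_eq_zero_iff.mpr hc
  refine ⟨c, v, hv, ?_⟩
  rw [Matrix.sub_mulVec, Matrix.smul_mulVec, Matrix.one_mulVec] at h
  exact sub_eq_zero.mp h

/-- The discriminant, up to a factor. -/
noncomputable def dsc (Y : M3) : ℝ := (Y * Y).trace ^ 3 - 54 * Y.det ^ 2

theorem continuous_line (Y Z : M3) : Continuous (fun s : ℝ => (Y + s • Z).det) ∧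
    Continuous (fun s : ℝ => dsc (Y + s • Z)) := by
  constructor
  · simp only [Matrix.det_fin_three, Matrix.add_apply, Matrix.smul_apply, smul_eq_mul]
    fun_prop
  · simp only [dsc, Matrix.det_fin_three, Matrix.add_apply, Matrix.smul_apply, smul_eq_mul,
      Matrix.trace_fin_three, Matrix.mul_apply, Fin.sum_univ_three]
    fun_prop

/-- An irreducible Lie algebra contains a matrix with nonzero discriminant. -/
theorem Irr.exists_dsc {h : Submodule ℝ M3} (hi : Irr h)
    (hbr : ∀ Y ∈ h, ∀ Z ∈ h, Y * Z - Z * Y ∈ h) (htr : ∀ Y ∈ h, Y.trace = 0) :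
    ∃ Y ∈ h, dsc Y ≠ 0 := by
  by_contra hcon
  push Not at hcon
  have hκ : ∀ Y ∈ h, (Y * Y).trace ^ 3 = 54 * Y.det ^ 2 := fun Y hY => by
    have := hcon Y hY
    unfold dsc at this
    linarith
  have hκ0 : ∀ Y ∈ h, 0 ≤ (Y * Y).trace := by
    intro Y hY
    have h1 : 0 ≤ (Y * Y).trace ^ 3 := by rw [hκ Y hY]; positivity
    by_contra hneg
    push Not at hneg
    have : (Y * Y).trace ^ 3 < 0 := by
      have h2' : (Y * Y).trace ≠ 0 := hneg.ne
      have h2 : 0 < (Y * Y).trace ^ 2 := by positivity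
      nlinarith
    linarith
  -- the kernel of the trace form
  let n : Submodule ℝ M3 :=
    { carrier := {Y | Y ∈ h ∧ ∀ Z ∈ h, (Y * Z).trace = 0}
      add_mem' := by
        rintro a b ⟨ha, ha'⟩ ⟨hb, hb'⟩
        refine ⟨h.add_mem ha hb, fun Z hZ => ?_⟩
        rw [add_mul, Matrix.trace_add, ha' Z hZ, hb' Z hZ, add_zero]
      zero_mem' := ⟨h.zero_mem, fun Z _ => by rw [zero_mul, Matrix.trace_zero]⟩
      smul_mem' := by
        rintro c a ⟨ha, ha'⟩
        refine ⟨h.smul_mem c ha, fun Z hZ => ?_⟩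
        rw [smul_mul_assoc, Matrix.trace_smul, ha' Z hZ, smul_zero] }
  have hnb : ∀ Y ∈ n, ∀ Z ∈ h, Y * Z - Z * Y ∈ n := by
    intro Y hY Z hZ
    refine ⟨hbr Y hY.1 Z hZ, fun W hW => ?_⟩
    have h1 : ((Y * Z - Z * Y) * W).trace = (Y * (Z * W - W * Z)).trace := by
      have h2 : (Z * Y * W).trace = (Y * (W * Z)).trace := by
        rw [mul_assoc, Matrix.trace_mul_comm, mul_assoc]
      rw [sub_mul, Matrix.trace_sub, h2, mul_sub, Matrix.trace_sub, mul_assoc]
    rw [h1]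
    exact hY.2 _ (hbr Z hZ W hW)
  have hnil : ∀ Y ∈ n, Y * Y * Y = 0 := by
    intro Y hY
    have h1 : (Y * Y).trace = 0 := hY.2 Y hY.1
    have h2 : Y.det = 0 := by
      have := hκ Y hY.1
      rw [h1] at this
      have h3 : Y.det ^ 2 = 0 := by linarith
      exact pow_eq_zero_iff (two_ne_zero) |>.mp h3
    have h3 := cayley Y
    rw [htr Y hY.1, h1, h2] at h3
    simpa using h3
  have hn0 : ∀ Y ∈ n, Y = 0 := by
    obtain ⟨v, hv, hvn⟩ := engel n (fun Y hY Z hZ => hnb Y hY Z hZ.1) hnil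
    let K : Submodule ℝ (Fin 3 → ℝ) :=
      { carrier := {w | ∀ Y ∈ n, Y *ᵥ w = 0}
        add_mem' := by
          intro a b ha hb Y hY
          rw [Matrix.mulVec_add, ha Y hY, hb Y hY, add_zero]
        zero_mem' := fun Y _ => Matrix.mulVec_zero Y
        smul_mem' := by
          intro c a ha Y hY
          rw [Matrix.mulVec_smul, ha Y hY, smul_zero] }
    have hK : K = ⊥ ∨ K = ⊤ := by
      refine hi.no_inv K ?_
      intro Z hZ w hw Y hY
      have h1 : Y *ᵥ (Z *ᵥ w) = (Y * Z - Z * Y) *ᵥ w + Z *ᵥ (Y *ᵥ w) := by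
        rw [Matrix.sub_mulVec, Matrix.mulVec_mulVec, Matrix.mulVec_mulVec, sub_add_cancel]
      rw [h1, hw Y hY, Matrix.mulVec_zero, hw _ (hnb Y hY Z hZ), add_zero]
    rcases hK with hK | hK
    · exfalso
      have : v ∈ K := hvn
      rw [hK, Submodule.mem_bot] at this
      exact hv this
    · intro Y hY
      ext i j
      have h1 : (Pi.single j 1 : Fin 3 → ℝ) ∈ K := by rw [hK]; exact Submodule.mem_top
      have h2 := congrFun (h1 Y hY) i
      rw [Matrix.mulVec_single_one] at h2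
      exact h2
  -- the trace form is positive definite
  have hpos : ∀ Y ∈ h, Y ≠ 0 → 0 < (Y * Y).trace := by
    intro Y hY hY0
    rcases (hκ0 Y hY).lt_or_eq with hlt | heq
    · exact hlt
    · exfalso
      apply hY0
      apply hn0
      refine ⟨hY, fun Z hZ => ?_⟩
      by_contra hne
      -- `tr ((s Y + Z) ^ 2) = 2 s tr (Y Z) + tr (Z ^ 2)`
      have hlin : ∀ s : ℝ, 0 ≤ 2 * s * (Y * Z).trace + (Z * Z).trace := by
        intro s
        have h1 := hκ0 (s • Y + Z) (h.add_mem (h.smul_mem s hY) hZ)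
        have h2 : ((s • Y + Z) * (s • Y + Z)).trace =
            s ^ 2 * (Y * Y).trace + 2 * s * (Y * Z).trace + (Z * Z).trace := by
          have h3 : (Z * Y).trace = (Y * Z).trace := Matrix.trace_mul_comm _ _
          rw [mul_add, add_mul, add_mul, smul_mul_smul_comm, smul_mul_assoc, mul_smul_comm,
            Matrix.trace_add, Matrix.trace_add, Matrix.trace_add, Matrix.trace_smul,
            Matrix.trace_smul, Matrix.trace_smul, h3]
          simp only [smul_eq_mul]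
          ring
        rw [h2, ← heq] at h1
        linarith
      have h1 := hlin (-((Z * Z).trace + 1) / (2 * (Y * Z).trace))
      have h2 : 2 * (-((Z * Z).trace + 1) / (2 * (Y * Z).trace)) * (Y * Z).trace =
          -((Z * Z).trace + 1) := by
        field_simp
      rw [h2] at h1
      linarith
  -- two independent elements
  have hex : ∃ Y ∈ h, Y ≠ 0 ∧ ∃ Z ∈ h, ∀ c : ℝ, Z ≠ c • Y := by
    have hne : ∃ Y ∈ h, Y ≠ 0 := by
      obtain ⟨Y, hY, hc⟩ := hi.right (Pi.single 0 1) (by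
        intro h0
        have := congrFun h0 0
        simp at this)
      refine ⟨Y, hY, ?_⟩
      rintro rfl
      exact hc 0 (by rw [Matrix.zero_mulVec, zero_smul])
    obtain ⟨Y, hY, hY0⟩ := hne
    refine ⟨Y, hY, hY0, ?_⟩
    by_contra hall
    push Not at hall
    obtain ⟨c, v, hv, hcv⟩ := exists_eigvec Y
    obtain ⟨Z, hZ, hc⟩ := hi.right v hv
    obtain ⟨d, hd⟩ := hall Z hZ
    apply hc (d * c)
    rw [hd, Matrix.smul_mulVec, hcv, smul_smul]
  obtain ⟨Y, hY, hY0, Z, hZ, hZY⟩ := hex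
  let γ : ℝ → M3 := fun θ => Real.cos θ • Y + Real.sin θ • Z
  have hγh : ∀ θ, γ θ ∈ h := fun θ => h.add_mem (h.smul_mem _ hY) (h.smul_mem _ hZ)
  have hγ0 : ∀ θ, γ θ ≠ 0 := by
    intro θ h0
    have h0' : Real.cos θ • Y + Real.sin θ • Z = 0 := h0
    by_cases hs : Real.sin θ = 0
    · rw [hs, zero_smul, add_zero] at h0'
      have hc : Real.cos θ ≠ 0 := by
        intro hc
        have := Real.sin_sq_add_cos_sq θ
        rw [hs, hc] at this
        norm_num at this
      exact hY0 ((smul_eq_zero.mp h0').resolve_left hc)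
    · apply hZY (-(Real.cos θ / Real.sin θ))
      have h1 : Real.sin θ • Z = -(Real.cos θ • Y) := eq_neg_of_add_eq_zero_right h0'
      have h2 : Z = (Real.sin θ)⁻¹ • (Real.sin θ • Z) := by
        rw [smul_smul, inv_mul_cancel₀ hs, one_smul]
      rw [h2, h1, smul_neg, smul_smul, neg_smul]
      congr 2
      field_simp
  have hdne : ∀ θ, (γ θ).det ≠ 0 := by
    intro θ h0
    have h1 := hκ _ (hγh θ)
    rw [h0] at h1
    have h2 := hpos _ (hγh θ) (hγ0 θ)
    have h3 : 0 < (γ θ * γ θ).trace ^ 3 := by positivity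
    rw [h1] at h3
    norm_num at h3
  have hcont : Continuous fun θ => (γ θ).det := by
    simp only [γ, Matrix.det_fin_three, Matrix.add_apply, Matrix.smul_apply, smul_eq_mul]
    fun_prop
  have e0 : (γ 0).det = Y.det := by simp [γ]
  have eπ : (γ Real.pi).det = -Y.det := by
    have : γ Real.pi = -Y := by simp [γ]
    rw [this, Matrix.det_neg]
    simp
    norm_num
  have hYd : Y.det ≠ 0 := by rw [← e0]; exact hdne 0
  rcases lt_or_gt_of_ne hYd with hlt | hgt
  · have h0 : (0 : ℝ) ∈ Set.Icc ((γ 0).det) ((γ Real.pi).det) := by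
      rw [e0, eπ]; exact ⟨hlt.le, by linarith⟩
    obtain ⟨θ, _, hθ⟩ := intermediate_value_Icc Real.pi_pos.le hcont.continuousOn h0
    exact hdne θ hθ
  · have h0 : (0 : ℝ) ∈ Set.Icc ((γ Real.pi).det) ((γ 0).det) := by
      rw [e0, eπ]; exact ⟨by linarith, hgt.le⟩
    obtain ⟨θ, _, hθ⟩ := intermediate_value_Icc' Real.pi_pos.le hcont.continuousOn h0
    exact hdne θ hθ

end Pool.Agent.Helper64.BC
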