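import Pool.Agent.Helper64.BC.Stab
import Pool.Agent.Helper64.BC.Gen

/-!
# Equivariant continuous families of lines and planes
-/

set_option autoImplicit false

namespace Pool.Agent.Helper64.BC

open Filter Topology Set
open Pool.Agent.Q27.GS Pool.Agent.Q27.GT
open scoped Matrix.Norms.Operator
attribute [-instance] instTopologicalSpaceMatrix

/-- Every nonzero vector is the first column of an element of the group. -/
theorem exists_col (v : Fin 3 → ℝ) (hv : v ≠ 0) :
    ∃ g : G3, Matrix.mulVec (g : M3) (Pi.single 0 1) = v := by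
  by_cases h0 : v 0 = 0
  · by_cases h1 : v 1 = 0
    · have h2 : v 2 ≠ 0 := by
        intro h2
        apply hv
        funext i
        fin_cases i
        · exact h0
        · exact h1
        · exact h2
      refine ⟨⟨!![v 0, 1 / v 2, 0; v 1, 0, 1; v 2, 0, 0], ?_⟩, ?_⟩
      · rw [Matrix.det_fin_three]
        simp [h2]
      · ext i
        fin_cases i <;> simp [Matrix.mulVec, dotProduct, Fin.sum_univ_three]
    · refine ⟨⟨!![v 0, -1 / v 1, 0; v 1, 0, 0; v 2, 0, 1], ?_⟩, ?_⟩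
      · rw [Matrix.det_fin_three]
        simp [h1]
      · ext i
        fin_cases i <;> simp [Matrix.mulVec, dotProduct, Fin.sum_univ_three]
  · refine ⟨⟨!![v 0, 0, 0; v 1, 1, 0; v 2, 0, 1 / v 0], ?_⟩, ?_⟩
    · rw [Matrix.det_fin_three]
      simp [h0]
    · ext i
      fin_cases i <;> simp [Matrix.mulVec, dotProduct, Fin.sum_univ_three]

/-- Every nonzero vector is the last row of an element of the group. -/
theorem exists_row (v : Fin 3 → ℝ) (hv : v ≠ 0) :
    ∃ g : G3, Matrix.vecMul (Pi.single 2 1) (g : M3) = v := by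
  by_cases h2 : v 2 = 0
  · by_cases h1 : v 1 = 0
    · have h0 : v 0 ≠ 0 := by
        intro h0
        apply hv
        funext i
        fin_cases i
        · exact h0
        · exact h1
        · exact h2
      refine ⟨⟨!![0, 1, 0; 0, 0, 1 / v 0; v 0, v 1, v 2], ?_⟩, ?_⟩
      · rw [Matrix.det_fin_three]
        simp [h0]
      · ext i
        fin_cases i <;> simp [Matrix.vecMul, dotProduct, Fin.sum_univ_three]
    · refine ⟨⟨!![1, 0, 0; 0, 0, -1 / v 1; v 0, v 1, v 2], ?_⟩, ?_⟩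
      · rw [Matrix.det_fin_three]
        simp [h1]
      · ext i
        fin_cases i <;> simp [Matrix.vecMul, dotProduct, Fin.sum_univ_three]
  · refine ⟨⟨!![1, 0, 0; 0, 1 / v 2, 0; v 0, v 1, v 2], ?_⟩, ?_⟩
    · rw [Matrix.det_fin_three]
      simp [h2]
    · ext i
      fin_cases i <;> simp [Matrix.vecMul, dotProduct, Fin.sum_univ_three]

theorem exists_mem_ne {W : Submodule ℝ (Fin 3 → ℝ)} (h : Module.finrank ℝ W = 1) :
    ∃ v ∈ W, v ≠ 0 ∧ ∀ w ∈ W, ∃ c : ℝ, w = c • v := by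
  obtain ⟨⟨v, hv⟩, hne, hspan⟩ := finrank_eq_one_iff'.mp h
  refine ⟨v, hv, fun h0 => hne (Subtype.ext h0), fun w hw => ?_⟩
  obtain ⟨c, hc⟩ := hspan ⟨w, hw⟩
  exact ⟨c, (congrArg Subtype.val hc).symm⟩

theorem prop_of_finrank_one {W : Submodule ℝ (Fin 3 → ℝ)} (h : Module.finrank ℝ W = 1)
    {v w : Fin 3 → ℝ} (hv : v ∈ W) (hv0 : v ≠ 0) (hw : w ∈ W) : ∃ c : ℝ, w = c • v := by
  obtain ⟨z, -, -, hspan⟩ := exists_mem_ne h
  obtain ⟨a, ha⟩ := hspan v hv
  obtain ⟨b, hb⟩ := hspan w hw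
  have ha0 : a ≠ 0 := by
    rintro rfl
    exact hv0 (by rw [ha, zero_smul])
  exact ⟨b * a⁻¹, by rw [ha, hb, smul_smul, mul_assoc, inv_mul_cancel₀ ha0, mul_one]⟩

theorem single_ne (i : Fin 3) : (Pi.single i 1 : Fin 3 → ℝ) ≠ 0 := by
  intro h
  have := congrFun h i
  rw [Pi.single_eq_same] at this
  exact one_ne_zero this

theorem good_line {BC : GSp G3 → Prop} (hL : Over BC lineStab) (A : GSp G3) (s : Set A.X)
    (W : A.X → Submodule ℝ (Fin 3 → ℝ))
    (hW : ∀ (g : G3) (x : A.X) (v : Fin 3 → ℝ), v ∈ W x → vg g v ∈ W (g • x))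
    (h1 : ∀ x ∈ s, Module.finrank ℝ (W x) = 1) (hl : Lsc s W) : Good BC A s := by
  intro hs hi
  refine hL _ (exists_map A s hs hi lineStab (fun x g => vg g (Pi.single 0 1) ∈ W x) ?_ ?_ ?_ ?_)
  · intro x hx
    obtain ⟨v, hv, hv0, -⟩ := exists_mem_ne (h1 x hx)
    obtain ⟨g, hg⟩ := exists_col v hv0
    refine ⟨g, ?_⟩
    rw [vg_apply, hg]
    exact hv
  · intro x hx g g' hg hg'
    have hne : vg g (Pi.single 0 1) ≠ 0 := by
      intro h0
      exact single_ne 0 (vg_injective g (h0.trans (map_zero _).symm))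
    obtain ⟨c, hc⟩ := prop_of_finrank_one (h1 x hx) hg hne hg'
    refine ⟨c, ?_⟩
    rw [Matrix.SpecialLinearGroup.coe_mul, ← Matrix.mulVec_mulVec]
    rw [vg_apply, vg_apply] at hc
    rw [hc, Matrix.mulVec_smul, Matrix.mulVec_mulVec, coe_inv_mul, Matrix.one_mulVec]
  · intro x _ g h hg
    have := hW h x _ hg
    rw [vg_apply, vg_apply, Matrix.mulVec_mulVec] at this
    rw [vg_apply, Matrix.SpecialLinearGroup.coe_mul]
    exact this
  · intro u x hu hx hux g hg
    obtain ⟨w, hw, hwv⟩ := hl u x hu hx hux _ hg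
    set v : Fin 3 → ℝ := vg g (Pi.single 0 1) with hv
    have hne : v ≠ 0 := by
      intro h0
      exact single_ne 0 (vg_injective g (h0.trans (map_zero _).symm))
    have hvv : v ⬝ᵥ v ≠ 0 := fun h => hne (dotProduct_self_eq_zero.mp h)
    have hlim : Tendsto (fun n => 1 + (v ⬝ᵥ v)⁻¹ • Matrix.vecMulVec (w n - v) v) atTop
        (𝓝 (1 : M3)) := by
      refine tendsto_of_entries fun i j => ?_
      have h2 : Tendsto (fun n => (1 : M3) i j + (v ⬝ᵥ v)⁻¹ * ((w n i - v i) * v j)) atTop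
          (𝓝 ((1 : M3) i j + (v ⬝ᵥ v)⁻¹ * ((v i - v i) * v j))) := by
        have h3 := (tendsto_pi_nhds.mp hwv) i
        exact ((((h3.sub_const (v i)).mul_const (v j)).const_mul _).const_add _)
      rw [sub_self, zero_mul, mul_zero, add_zero] at h2
      exact h2
    obtain ⟨k, c, hk, hc, hkc⟩ := exists_normalized _ hlim
    refine ⟨k, hk, ?_⟩
    filter_upwards [hkc] with n hn
    have e0 : vg (k n * g) (Pi.single 0 1) = vg (k n) v := by
      rw [hv, vg_apply, vg_apply, vg_apply, Matrix.SpecialLinearGroup.coe_mul,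
        ← Matrix.mulVec_mulVec]
    rw [e0, vg_apply, hn,
      Matrix.smul_mulVec, Matrix.add_mulVec, Matrix.one_mulVec, Matrix.smul_mulVec,
      Matrix.vecMulVec_mulVec]
    have h3 : v + (v ⬝ᵥ v)⁻¹ • (MulOpposite.op (v ⬝ᵥ v) • (w n - v)) = w n := by
      ext i
      simp only [Pi.add_apply, Pi.smul_apply, Pi.sub_apply, smul_eq_mul, MulOpposite.smul_eq_mul_unop,
        MulOpposite.unop_op]
      field_simp
      ring
    rw [h3]
    exact Submodule.smul_mem _ _ (hw n)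

theorem good_plane {BC : GSp G3 → Prop} (hL : Over BC planeStab) (A : GSp G3) (s : Set A.X)
    (W : A.X → Submodule ℝ (Fin 3 → ℝ))
    (hW : ∀ (g : G3) (x : A.X) (v : Fin 3 → ℝ), v ∈ W x →
      Matrix.vecMul v ((g⁻¹ : G3) : M3) ∈ W (g • x))
    (h1 : ∀ x ∈ s, Module.finrank ℝ (W x) = 1) (hl : Lsc s W) : Good BC A s := by
  intro hs hi
  refine hL _ (exists_map A s hs hi planeStab
    (fun x g => Matrix.vecMul (Pi.single 2 1) ((g⁻¹ : G3) : M3) ∈ W x) ?_ ?_ ?_ ?_)
  · intro x hx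
    obtain ⟨v, hv, hv0, -⟩ := exists_mem_ne (h1 x hx)
    obtain ⟨g, hg⟩ := exists_row v hv0
    refine ⟨g⁻¹, ?_⟩
    rw [inv_inv, hg]
    exact hv
  · intro x hx g g' hg hg'
    have hne : Matrix.vecMul (Pi.single 2 1) ((g'⁻¹ : G3) : M3) ≠ 0 := by
      intro h0
      have h2 := congrArg (fun w => Matrix.vecMul w (g' : M3)) h0
      simp only [Matrix.vecMul_vecMul, coe_inv_mul, Matrix.vecMul_one, Matrix.zero_vecMul] at h2
      exact single_ne 2 h2
    obtain ⟨c, hc⟩ := prop_of_finrank_one (h1 x hx) hg' hne hg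
    refine ⟨c, ?_⟩
    rw [Matrix.SpecialLinearGroup.coe_mul, ← Matrix.vecMul_vecMul, hc, Matrix.smul_vecMul,
      Matrix.vecMul_vecMul, coe_inv_mul, Matrix.vecMul_one]
  · intro x _ g h hg
    have := hW h x _ hg
    rw [Matrix.vecMul_vecMul] at this
    rw [_root_.mul_inv_rev, Matrix.SpecialLinearGroup.coe_mul]
    exact this
  · intro u x hu hx hux g hg
    obtain ⟨w, hw, hwv⟩ := hl u x hu hx hux _ hg
    set v : Fin 3 → ℝ := Matrix.vecMul (Pi.single 2 1) ((g⁻¹ : G3) : M3) with hv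
    have hne : v ≠ 0 := by
      intro h0
      have h2 := congrArg (fun w => Matrix.vecMul w (g : M3)) h0
      simp only [hv, Matrix.vecMul_vecMul, coe_inv_mul, Matrix.vecMul_one,
        Matrix.zero_vecMul] at h2
      exact single_ne 2 h2
    have hvv : v ⬝ᵥ v ≠ 0 := fun h => hne (dotProduct_self_eq_zero.mp h)
    have hlim : Tendsto (fun n => 1 + (v ⬝ᵥ v)⁻¹ • Matrix.vecMulVec v (w n - v)) atTop
        (𝓝 (1 : M3)) := by
      refine tendsto_of_entries fun i j => ?_
      have h2 : Tendsto (fun n => (1 : M3) i j + (v ⬝ᵥ v)⁻¹ * (v i * (w n j - v j))) atTop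
          (𝓝 ((1 : M3) i j + (v ⬝ᵥ v)⁻¹ * (v i * (v j - v j)))) := by
        have h3 := (tendsto_pi_nhds.mp hwv) j
        exact ((((h3.sub_const (v j)).const_mul (v i)).const_mul _).const_add _)
      rw [sub_self, mul_zero, mul_zero, add_zero] at h2
      exact h2
    obtain ⟨k, c, hk, hc, hkc⟩ := exists_normalized _ hlim
    refine ⟨fun n => (k n)⁻¹, by simpa using hk.inv, ?_⟩
    filter_upwards [hkc] with n hn
    have e1 : ((k n)⁻¹ * g)⁻¹ = g⁻¹ * k n := by rw [_root_.mul_inv_rev, inv_inv]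
    rw [e1, Matrix.SpecialLinearGroup.coe_mul, ← Matrix.vecMul_vecMul, ← hv, hn,
      Matrix.vecMul_smul, Matrix.vecMul_add, Matrix.vecMul_one, Matrix.vecMul_smul,
      Matrix.vecMul_vecMulVec]
    have h3 : v + (v ⬝ᵥ v)⁻¹ • ((v ⬝ᵥ v) • (w n - v)) = w n := by
      rw [smul_smul, inv_mul_cancel₀ hvv, one_smul]
      abel
    rw [h3]
    exact Submodule.smul_mem _ _ (hw n)

end Pool.Agent.Helper64.BC
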