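import Pool.Agent.Helper64.BC.Forms

/-!
# The points with a nondiscrete stabilizer
-/

set_option autoImplicit false

namespace Pool.Agent.Helper64.BC

open Filter Topology Set
open Pool.Agent.Q27.GS Pool.Agent.Q27.GT
open scoped Matrix.Norms.Operator
attribute [-instance] instTopologicalSpaceMatrix

/-- The matrices of trace zero. -/
def T0 : Submodule ℝ M3 where
  carrier := {Y | Y.trace = 0}
  add_mem' := by
    intro a b ha hb
    have h1 : a.trace = 0 := ha
    have h2 : b.trace = 0 := hb
    change (a + b).trace = 0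
    rw [Matrix.trace_add, h1, h2, add_zero]
  zero_mem' := Matrix.trace_zero _ _
  smul_mem' := by
    intro c a ha
    have h1 : a.trace = 0 := ha
    change (c • a).trace = 0
    rw [Matrix.trace_smul, h1, smul_zero]

variable {A : GSp G3}

theorem hh_le_T0 (x : A.X) : hh A x ≤ T0 := fun _ hY => hh_trace hY

theorem irr_of {x : A.X} (h1 : hh A x ≠ ⊥) (hr : rad (BB A x) = ⊥) (he : idem (BB A x) = ∅) :
    Irr (hh A x) := by
  have hs : ∃ Z ∈ BB A x, ∀ c : ℝ, Z ≠ c • 1 := by
    obtain ⟨Y, hY, hY0⟩ := (Submodule.ne_bot_iff _).mp h1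
    refine ⟨Y, hh_le_BB x hY, fun c hc => hY0 ?_⟩
    have h2 := hh_trace hY
    rw [hc, Matrix.trace_smul, Matrix.trace_one] at h2
    have h3 : c = 0 := by
      simpa using h2
    rw [hc, h3, zero_smul]
  constructor
  · intro v hv
    by_contra hcon
    push Not at hcon
    have h2 : ∀ Z ∈ BB A x, ∃ c : ℝ, Matrix.mulVec Z v = c • v := by
      intro Z hZ
      have hZ' : Z ∈ Algebra.adjoin ℝ (hh A x : Set M3) := hZ
      induction hZ' using Algebra.adjoin_induction with
      | mem y hy => exact hcon y hy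
      | algebraMap r =>
        refine ⟨r, ?_⟩
        rw [Algebra.algebraMap_eq_smul_one, Matrix.smul_mulVec, Matrix.one_mulVec]
      | add a b ha hb iha ihb =>
        obtain ⟨c, hc⟩ := iha ha
        obtain ⟨d, hd⟩ := ihb hb
        exact ⟨c + d, by rw [Matrix.add_mulVec, hc, hd, add_smul]⟩
      | mul a b ha hb iha ihb =>
        obtain ⟨c, hc⟩ := iha ha
        obtain ⟨d, hd⟩ := ihb hb
        exact ⟨d * c, by rw [← Matrix.mulVec_mulVec, hd, Matrix.mulVec_smul, hc, smul_smul]⟩
    have h3 := idem_of_right (BB A x) hr hs v hv h2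
    rw [he] at h3
    exact Set.not_nonempty_empty h3
  · intro v hv
    by_contra hcon
    push Not at hcon
    have h2 : ∀ Z ∈ BB A x, ∃ c : ℝ, Matrix.vecMul v Z = c • v := by
      intro Z hZ
      have hZ' : Z ∈ Algebra.adjoin ℝ (hh A x : Set M3) := hZ
      induction hZ' using Algebra.adjoin_induction with
      | mem y hy => exact hcon y hy
      | algebraMap r =>
        refine ⟨r, ?_⟩
        rw [Algebra.algebraMap_eq_smul_one, Matrix.vecMul_smul, Matrix.vecMul_one]
      | add a b ha hb iha ihb =>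
        obtain ⟨c, hc⟩ := iha ha
        obtain ⟨d, hd⟩ := ihb hb
        exact ⟨c + d, by rw [Matrix.vecMul_add, hc, hd, add_smul]⟩
      | mul a b ha hb iha ihb =>
        obtain ⟨c, hc⟩ := iha ha
        obtain ⟨d, hd⟩ := ihb hb
        exact ⟨c * d, by rw [← Matrix.vecMul_vecMul, hc, Matrix.smul_vecMul, hd, smul_smul]⟩
    have h3 := idem_of_left (BB A x) hr hs v hv h2
    rw [he] at h3
    exact Set.not_nonempty_empty h3

theorem f_le {E : Type*} [AddCommGroup E] [Module ℝ E] [FiniteDimensional ℝ E]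
    (W : Submodule ℝ E) : Module.finrank ℝ W ≤ Module.finrank ℝ E := Submodule.finrank_le W

theorem isClosed_stabilizer (x : A.X) :
    IsClosed (MulAction.stabilizer G3 x : Set G3) := by
  have h1 : (MulAction.stabilizer G3 x : Set G3) = {g | g • x = x} := by
    ext g
    exact MulAction.mem_stabilizer_iff
  rw [h1]
  exact isClosed_eq (continuous_id.smul continuous_const) continuous_const

/-- The points with nonzero tangent spaces of the stabilizers. -/
theorem good_nondiscrete {BC : GSp G3 → Prop} (hex : Excision BC)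
    (hT : ∀ A : GSp G3, (∀ (g : G3) (x : A.X), g • x = x) → BC A)
    (hL : Over BC lineStab) (hP : Over BC planeStab) (hD : Over BC diagNorm)
    (hF1 : Over BC (formStab (Matrix.diagonal 1)))
    (hF2 : Over BC (formStab (Matrix.diagonal eps))) (A : GSp G3) :
    Good BC A {x : A.X | hh A x ≠ ⊥} := by
  have h0 : ∀ A : GSp G3, IsEmpty A.X → BC A := fun A hA => hT A fun _ x => hA.elim x
  -- levels of the dimension of the tangent space
  refine good_of_levels hex h0 A f1 (Module.finrank ℝ M3) (fun x _ => f_le _) f1_smul ?_ ?_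
  · intro i u x hu hx hux
    exact ⟨hx, usc_hh.finrank (fun n => Set.mem_univ _) (Set.mem_univ _) hux i fun n => (hu n).2⟩
  intro i
  set s1 : Set A.X := {x | x ∈ {x : A.X | hh A x ≠ ⊥} ∧ f1 x = i} with hs1
  have hl1 : Lsc s1 (hh A) := (usc_hh.mono (Set.subset_univ s1)).lsc i fun x hx => hx.2
  by_cases hi : i = Module.finrank ℝ T0
  · -- the whole group stabilizes
    intro hs' hi'
    refine hT _ ?_
    rintro g ⟨x, hx⟩
    have h1 : hh A x = T0 := Submodule.eq_of_le_of_finrank_eq (hh_le_T0 x) (hx.2.trans hi)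
    have h2 : MulAction.stabilizer G3 x = ⊤ := by
      refine eq_top_of_tan _ (isClosed_stabilizer x) fun Y hY => ?_
      have h3 : Y ∈ T0 := hY
      rw [← h1] at h3
      exact h3
    have h3 : g ∈ MulAction.stabilizer G3 x := by rw [h2]; exact Subgroup.mem_top g
    exact Subtype.ext (MulAction.mem_stabilizer_iff.mp h3)
  have hform : ∀ x ∈ s1, Irr (hh A x) → ∃ Q ∈ forms (hh A x), Q ≠ 0 := by
    intro x hx hirr
    have h1 : hh A x ≠ T0 := by
      intro h
      exact hi (hx.2.symm.trans (by rw [f1, h]))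
    have h2 : ∃ Y1, Y1 ∈ T0 ∧ Y1 ∉ hh A x := by
      by_contra hcon
      push Not at hcon
      exact h1 (le_antisymm (hh_le_T0 x) hcon)
    obtain ⟨Y1, hY1, hY1'⟩ := h2
    obtain ⟨Q, hQ0, hQ⟩ := exists_form hirr hh_bracket (fun Y hY => hh_trace hY) Y1 hY1 hY1'
    exact ⟨Q, hQ, hQ0⟩
  -- levels of the dimension of the algebra
  have hlB := lsc_BB hl1
  refine good_of_levels' hex h0 A f2 (Module.finrank ℝ M3) (fun x _ => f_le _) f2_smul ?_ ?_
  · intro j u x hu hx hux
    exact ⟨hx, Lsc.finrank hlB (fun n => (hu n).1) hx hux j fun n => (hu n).2⟩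
  intro j
  set s2 : Set A.X := {x | x ∈ s1 ∧ f2 x = j} with hs2
  have hlB2 : Lsc s2 (fun x => Subalgebra.toSubmodule (BB A x)) := hlB.mono fun x hx => hx.1
  have huB2 : Usc s2 (fun x => Subalgebra.toSubmodule (BB A x)) := hlB2.usc j fun x hx => hx.2
  have hur := usc_rad hlB2 huB2
  -- levels of the dimension of the radical
  refine good_of_levels hex h0 A f3 (Module.finrank ℝ M3) (fun x _ => f_le _) f3_smul ?_ ?_
  · intro k u x hu hx hux
    exact ⟨hx, Usc.finrank hur (fun n => (hu n).1) hx hux k fun n => (hu n).2⟩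
  intro k
  set s3 : Set A.X := {x | x ∈ s2 ∧ f3 x = k} with hs3
  have hsub : s3 ⊆ s2 := fun x hx => hx.1
  rcases Nat.eq_zero_or_pos k with rfl | hk
  · have hr : ∀ x ∈ s3, rad (BB A x) = ⊥ := fun x hx => (f3_eq_zero_iff x).mp hx.2
    refine good_idem hex hL hD A s3 (hlB2.mono hsub) (huB2.mono hsub) hr ?_
    have hirr : ∀ x ∈ {x | x ∈ s3 ∧ idem (BB A x) = ∅}, Irr (hh A x) := fun x hx =>
      irr_of hx.1.1.1.1 (hr x hx.1) hx.2
    exact good_forms hex hF1 hF2 A _ (hl1.mono fun x hx => hx.1.1.1) hirr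
      fun x hx => hform x hx.1.1.1 (hirr x hx)
  · refine good_rad hex h0 hL hP A s3 ((hur.mono hsub).lsc k fun x hx => hx.2) ?_
    intro x hx h
    have h1 := (f3_eq_zero_iff x).mpr h
    have h2 := hx.2
    omega

theorem nondiscrete_eq (A : GSp G3) :
    {x : A.X | ¬ DiscreteTopology (MulAction.stabilizer G3 x)} = {x : A.X | hh A x ≠ ⊥} := by
  ext x
  exact not_congr (hh_eq_bot_iff x).symm

theorem isClosed_nondiscrete (A : GSp G3) :
    IsClosed {x : A.X | ¬ DiscreteTopology (MulAction.stabilizer G3 x)} := by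
  rw [nondiscrete_eq]
  refine IsSeqClosed.isClosed ?_
  intro u x hu hux
  have h1 : 1 ≤ Module.finrank ℝ (hh A x) := by
    refine usc_hh.finrank (fun n => Set.mem_univ _) (Set.mem_univ _) hux 1 fun n => ?_
    rw [Nat.one_le_iff_ne_zero]
    intro h
    exact hu n (Submodule.finrank_eq_zero.mp h)
  intro h
  rw [h, finrank_bot] at h1
  omega

theorem nondiscrete_smul (A : GSp G3) (g : G3) (x : A.X)
    (h : ¬ DiscreteTopology (MulAction.stabilizer G3 x)) :
    ¬ DiscreteTopology (MulAction.stabilizer G3 (g • x)) := by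
  rw [← hh_eq_bot_iff] at *
  intro h1
  apply h
  have h2 := f1_smul g x
  unfold f1 at h2
  rw [h1, finrank_bot] at h2
  exact Submodule.finrank_eq_zero.mp h2.symm

end Pool.Agent.Helper64.BC
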