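import Pool.Agent.Helper64.BC.Defs

/-!
# The topology of the 3 by 3 matrices, with the operator norm, and of `SL_3(ℝ)`
-/

set_option autoImplicit false

namespace Pool.Agent.Helper64.BC

open Filter Topology
open scoped Matrix.Norms.Operator

theorem continuous_entry0 (i j : Fin 3) : Continuous fun Y : M3 => Y i j :=
  (continuous_apply_apply i j : Continuous fun Y : Fin 3 → Fin 3 → ℝ => Y i j)

section bridge

theorem isEmbedding_coe0 : IsEmbedding (fun g : G3 => (g : M3)) :=
  Topology.IsEmbedding.subtypeVal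

theorem tendsto_of_entries0 {ι : Type*} {l : Filter ι} {f : ι → M3} {Y : M3}
    (h : ∀ i j, Tendsto (fun n => f n i j) l (𝓝 (Y i j))) : Tendsto f l (𝓝 Y) := by
  refine (tendsto_pi_nhds (f := fun n => (f n : Fin 3 → Fin 3 → ℝ))
    (g := (Y : Fin 3 → Fin 3 → ℝ)) (u := l)).mpr fun i => ?_
  exact tendsto_pi_nhds.mpr fun j => h i j

end bridge

attribute [-instance] instTopologicalSpaceMatrix

theorem continuous_entry (i j : Fin 3) : Continuous fun Y : M3 => Y i j :=
  continuous_entry0 i j

theorem tendsto_of_entries {ι : Type*} {l : Filter ι} {f : ι → M3} {Y : M3}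
    (h : ∀ i j, Tendsto (fun n => f n i j) l (𝓝 (Y i j))) : Tendsto f l (𝓝 Y) :=
  tendsto_of_entries0 h

theorem isEmbedding_coe : IsEmbedding (fun g : G3 => (g : M3)) :=
  isEmbedding_coe0

theorem tendsto_coe {ι : Type*} {l : Filter ι} {f : ι → G3} {g : G3} :
    Tendsto f l (𝓝 g) ↔ Tendsto (fun n => (f n : M3)) l (𝓝 (g : M3)) :=
  isEmbedding_coe.tendsto_nhds_iff

theorem continuous_det3 : Continuous fun Y : M3 => Y.det := by
  simp only [Matrix.det_fin_three]
  have h := continuous_entry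
  have h00 := h 0 0
  have h01 := h 0 1
  have h02 := h 0 2
  have h10 := h 1 0
  have h11 := h 1 1
  have h12 := h 1 2
  have h20 := h 2 0
  have h21 := h 2 1
  have h22 := h 2 2
  fun_prop

theorem continuous_trace3 : Continuous fun Y : M3 => Y.trace := by
  have h := continuous_entry
  have h0 := h 0 0
  have h1 := h 1 1
  have h2 := h 2 2
  have : (fun Y : M3 => Y.trace) = fun Y : M3 => Y 0 0 + Y 1 1 + Y 2 2 := by
    funext Y
    simp [Matrix.trace, Fin.sum_univ_three]
  rw [this]
  fun_prop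

theorem continuous_transpose3 : Continuous fun Y : M3 => Y.transpose := by
  rw [continuous_iff_continuousAt]
  intro Y
  exact tendsto_of_entries fun i j => (continuous_entry j i).tendsto Y

theorem det_of_tendsto {ι : Type*} {l : Filter ι} [l.NeBot] {f : ι → G3} {Y : M3}
    (h : Tendsto (fun n => (f n : M3)) l (𝓝 Y)) : Y.det = 1 := by
  have h1 := (continuous_det3.tendsto Y).comp h
  have h2 : ((fun Y : M3 => Y.det) ∘ fun n => (f n : M3)) = fun _ => 1 := by
    funext n
    exact (f n).det_coe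
  rw [h2] at h1
  exact tendsto_nhds_unique h1 tendsto_const_nhds

/-- Matrices close to `1` are multiples of elements of `SL_3(ℝ)` close to `1`. -/
theorem exists_normalized (u : ℕ → M3) (hu : Tendsto u atTop (𝓝 1)) :
    ∃ (v : ℕ → G3) (c : ℕ → ℝ), Tendsto v atTop (𝓝 1) ∧ (∀ n, c n ≠ 0) ∧
      ∀ᶠ n in atTop, (v n : M3) = c n • u n := by
  have hd : Tendsto (fun n => (u n).det) atTop (𝓝 1) := by
    have := (continuous_det3.tendsto (1 : M3)).comp hu
    rwa [Matrix.det_one] at this
  have hpos : ∀ᶠ n in atTop, 0 < (u n).det := hd.eventually (lt_mem_nhds one_pos)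
  let c : ℕ → ℝ := fun n => if 0 < (u n).det then ((u n).det) ^ (-(1 / 3 : ℝ)) else 1
  have hc : ∀ n, 0 < (u n).det → (c n • u n).det = 1 := by
    intro n hn
    have h1 : c n = ((u n).det) ^ (-(1 / 3 : ℝ)) := if_pos hn
    rw [Matrix.det_smul, Fintype.card_fin, h1, ← Real.rpow_natCast, ← Real.rpow_mul hn.le]
    have h2 : (-(1 / 3 : ℝ)) * ((3 : ℕ) : ℝ) = -1 := by norm_num
    rw [h2, Real.rpow_neg_one, inv_mul_cancel₀ hn.ne']
  let v : ℕ → G3 := fun n => if h : 0 < (u n).det then ⟨c n • u n, hc n h⟩ else 1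
  have hv : ∀ n, 0 < (u n).det → (v n : M3) = c n • u n := by
    intro n hn
    have : v n = ⟨c n • u n, hc n hn⟩ := dif_pos hn
    rw [this]
  have hclim : Tendsto c atTop (𝓝 1) := by
    have h1 : Tendsto (fun n => ((u n).det) ^ (-(1 / 3 : ℝ))) atTop (𝓝 ((1 : ℝ) ^ (-(1 / 3 : ℝ)))) :=
      hd.rpow_const (Or.inl one_ne_zero)
    rw [Real.one_rpow] at h1
    refine h1.congr' ?_
    filter_upwards [hpos] with n hn
    exact (if_pos hn).symm
  refine ⟨v, c, ?_, ?_, ?_⟩
  · rw [tendsto_coe]
    have h1 : Tendsto (fun n => c n • u n) atTop (𝓝 ((1 : ℝ) • (1 : M3))) := hclim.smul hu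
    rw [one_smul] at h1
    have h2 : ((1 : G3) : M3) = 1 := rfl
    rw [h2]
    refine h1.congr' ?_
    filter_upwards [hpos] with n hn
    exact (hv n hn).symm
  · intro n
    by_cases hn : 0 < (u n).det
    · have h1 : c n = ((u n).det) ^ (-(1 / 3 : ℝ)) := if_pos hn
      rw [h1]
      exact (Real.rpow_pos_of_pos hn _).ne'
    · have h1 : c n = 1 := if_neg hn
      rw [h1]
      exact one_ne_zero
  · filter_upwards [hpos] with n hn
    exact hv n hn

end Pool.Agent.Helper64.BC
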