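import Pool.Agent.Helper64.BC.Line

/-!
# The strata where the radical is not zero
-/

set_option autoImplicit false

namespace Pool.Agent.Helper64.BC

open Filter Topology Set
open Pool.Agent.Q27.GS Pool.Agent.Q27.GT
open scoped Matrix.Norms.Operator
attribute [-instance] instTopologicalSpaceMatrix

/-- The annihilator of a subspace. -/
def ann (W : Submodule ℝ (Fin 3 → ℝ)) : Submodule ℝ (Fin 3 → ℝ) where
  carrier := {φ | ∀ w ∈ W, φ ⬝ᵥ w = 0}
  add_mem' := by
    intro a b ha hb w hw
    rw [add_dotProduct, ha w hw, hb w hw, add_zero]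
  zero_mem' := fun w _ => zero_dotProduct w
  smul_mem' := by
    intro c a ha w hw
    rw [smul_dotProduct, ha w hw, smul_zero]

theorem finrank_ann (W : Submodule ℝ (Fin 3 → ℝ)) :
    Module.finrank ℝ (ann W) = 3 - Module.finrank ℝ W := by
  have hB : (Matrix.toBilin' (1 : M3)).Nondegenerate :=
    LinearMap.BilinForm.nondegenerate_toBilin'_of_det_ne_zero' _ (by rw [Matrix.det_one]; exact one_ne_zero)
  have h1 := LinearMap.BilinForm.finrank_orthogonal hB W
  have h2 : ann W = LinearMap.BilinForm.orthogonal (Matrix.toBilin' (1 : M3)) W := by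
    ext φ
    rw [LinearMap.BilinForm.mem_orthogonal_iff]
    refine forall₂_congr fun w _ => ?_
    rw [Matrix.toBilin'_apply', Matrix.one_mulVec, dotProduct_comm]
  rw [h2, h1]
  simp

theorem usc_ann {X : Type*} [TopologicalSpace X] {s : Set X} {W : X → Submodule ℝ (Fin 3 → ℝ)}
    (h : Lsc s W) : Usc s (fun x => ann (W x)) := by
  intro u x hu hx hux φ ψ hφ hlim w hw
  obtain ⟨v, hv, hvw⟩ := h u x hu hx hux w hw
  have h1 : Tendsto (fun n => φ n ⬝ᵥ v n) atTop (𝓝 (ψ ⬝ᵥ w)) := by
    simp only [dotProduct, Fin.sum_univ_three]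
    have h2 := tendsto_pi_nhds.mp hlim
    have h3 := tendsto_pi_nhds.mp hvw
    exact (((h2 0).mul (h3 0)).add ((h2 1).mul (h3 1))).add ((h2 2).mul (h3 2))
  have h2 : (fun n => φ n ⬝ᵥ v n) = fun _ => 0 := by
    funext n
    exact hφ n _ (hv n)
  rw [h2] at h1
  exact tendsto_nhds_unique h1 tendsto_const_nhds

variable {A : GSp G3}

theorem f3_eq_zero_iff (x : A.X) : f3 x = 0 ↔ rad (BB A x) = ⊥ := by
  rw [f3, Submodule.finrank_eq_zero]

/-- The stratum where the radical has a given positive dimension. -/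
theorem good_rad {BC : GSp G3 → Prop} (hex : Excision BC) (h0 : ∀ A : GSp G3, IsEmpty A.X → BC A)
    (hL : Over BC lineStab) (hP : Over BC planeStab) (A : GSp G3) (s : Set A.X)
    (hr : Lsc s (fun x => rad (BB A x))) (hne : ∀ x ∈ s, rad (BB A x) ≠ ⊥) : Good BC A s := by
  have hle : ∀ x : A.X, f4 x ≤ 2 := by
    intro x
    have h1 : Module.finrank ℝ (img (BB A x)) < Module.finrank ℝ (Fin 3 → ℝ) :=
      Submodule.finrank_lt (img_ne_top (BB A x))
    have h2 : Module.finrank ℝ (Fin 3 → ℝ) = 3 := by simp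
    unfold f4
    omega
  refine good_of_levels' hex h0 A f4 2 (fun x _ => hle x) f4_smul ?_ ?_
  · intro i u x hu hx hux
    exact ⟨hx, Lsc.finrank (lsc_img hr) (fun n => (hu n).1) hx hux i fun n => (hu n).2⟩
  · intro i
    have hcase : i = 0 ∨ i = 1 ∨ i = 2 ∨ 2 < i := by omega
    rcases hcase with rfl | rfl | rfl | h
    · intro hs' hi'
      refine h0 _ ⟨?_⟩
      rintro ⟨x, hx, hx'⟩
      refine img_ne_bot (BB A x) (hne x hx) ?_
      rwa [f4, Submodule.finrank_eq_zero] at hx'
    · exact good_line hL A _ (fun x => img (BB A x)) (fun g x v hv => img_vg g x hv)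
        (fun x hx => hx.2) ((lsc_img hr).mono fun x hx => hx.1)
    · have h1 : ∀ x ∈ {x | x ∈ s ∧ f4 x = 2}, Module.finrank ℝ (ann (img (BB A x))) = 1 := by
        rintro x ⟨_, hx⟩
        rw [f4] at hx
        rw [finrank_ann, hx]
      refine good_plane hP A _ (fun x => ann (img (BB A x))) ?_ h1
        ((usc_ann ((lsc_img hr).mono fun x hx => hx.1)).lsc 1 h1)
      intro g x φ hφ w hw
      have h2 := img_vg g⁻¹ (g • x) hw
      rw [inv_smul_smul] at h2
      rw [← Matrix.dotProduct_mulVec]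
      exact hφ _ h2
    · intro hs' hi'
      refine h0 _ ⟨?_⟩
      rintro ⟨x, hx, hx'⟩
      have := hle x
      omega

end Pool.Agent.Helper64.BC
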