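import Pool.Agent.Helper64.BC.Defs

/-!
# Stratifications of `G`-spaces by integral functions, maps to homogeneous spaces
-/

set_option autoImplicit false

namespace Pool.Agent.Helper64.BC

open Filter Topology Set
open Pool.Agent.Q27.GS Pool.Agent.Q27.GT

variable {G : Type} [Group G] [TopologicalSpace G]

/-- The invariant subset `s` of `A`, if locally closed, has the property. -/
def Good (BC : GSp G → Prop) (A : GSp G) (s : Set A.X) : Prop :=
  ∀ (hs : IsLocallyClosed s) (hi : ∀ (g : G) (x : A.X), x ∈ s → g • x ∈ s), BC (loc A s hs hi)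

/-- `t` is closed in `s` for convergence of sequences in `s`. -/
def SeqClosedIn {X : Type*} [TopologicalSpace X] (s t : Set X) : Prop :=
  ∀ (u : ℕ → X) (x : X), (∀ n, u n ∈ t) → x ∈ s → Tendsto u atTop (𝓝 x) → x ∈ t

theorem SeqClosedIn.eq {X : Type*} [TopologicalSpace X] [FirstCountableTopology X] {s t : Set X}
    (hts : t ⊆ s) (h : SeqClosedIn s t) : t = s ∩ closure t := by
  refine subset_antisymm (subset_inter hts subset_closure) ?_
  rintro x ⟨hx, hxt⟩
  obtain ⟨u, hu, hux⟩ := mem_closure_iff_seq_limit.mp hxt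
  exact h u x hu hx hux

theorem good_of_closed {BC : GSp G → Prop} (hex : Excision BC) (A : GSp G) {s t : Set A.X}
    (hs : IsLocallyClosed s) (hi : ∀ (g : G) (x : A.X), x ∈ s → g • x ∈ s) (hts : t ⊆ s)
    (hti : ∀ (g : G) (x : A.X), x ∈ t → g • x ∈ t) (hc : SeqClosedIn s t)
    (h1 : Good BC A t) (h2 : Good BC A (s \ t)) : BC (loc A s hs hi) := by
  have he := hc.eq hts
  have htl : IsLocallyClosed t := by
    rw [he]
    exact hs.inter isClosed_closure.isLocallyClosed
  have hd : s \ t = s ∩ (closure t)ᶜ := by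
    ext x
    constructor
    · rintro ⟨hx, hxt⟩
      exact ⟨hx, fun h => hxt (by rw [he]; exact ⟨hx, h⟩)⟩
    · rintro ⟨hx, hxt⟩
      exact ⟨hx, fun h => hxt (subset_closure h)⟩
  have hdl : IsLocallyClosed (s \ t) := by
    rw [hd]
    exact hs.inter isClosed_closure.isOpen_compl.isLocallyClosed
  have hdi : ∀ (g : G) (x : A.X), x ∈ s \ t → g • x ∈ s \ t := by
    rintro g x ⟨hx, hxt⟩
    refine ⟨hi g x hx, fun h => hxt ?_⟩
    have := hti g⁻¹ _ h
    rwa [inv_smul_smul] at this
  have hZ := h1 htl hti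
  have hW := h2 hdl hdi
  refine (hex (loc A t htl hti) (loc A s hs hi) (loc A (s \ t) hdl hdi) (incl hts)
    (incl diff_subset) ⟨incl_emb hts, ?_⟩ ⟨incl_emb diff_subset, ?_⟩ (fun _ _ => rfl)
    (fun _ _ => rfl) ?_).2.1 hZ hW
  · rw [incl_range]
    have : {w : (loc A s hs hi).X | w.1 ∈ t} = Subtype.val ⁻¹' (closure t) := by
      ext w
      constructor
      · exact fun h => subset_closure h
      · intro h
        change w.1 ∈ t
        rw [he]
        exact ⟨w.2, h⟩
    rw [this]
    exact isClosed_closure.preimage continuous_subtype_val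
  · rw [incl_range]
    have : {w : (loc A s hs hi).X | w.1 ∈ s \ t} = Subtype.val ⁻¹' (closure t)ᶜ := by
      ext w
      constructor
      · intro h
        have h' : w.1 ∈ s \ t := h
        rw [hd] at h'
        exact h'.2
      · intro h
        change w.1 ∈ s \ t
        rw [hd]
        exact ⟨w.2, h⟩
    rw [this]
    exact isClosed_closure.isOpen_compl.preimage continuous_subtype_val
  · rw [incl_range, incl_range]
    ext w
    constructor
    · rintro ⟨_, h⟩ h'
      exact h h'
    · intro h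
      exact ⟨w.2, h⟩

/-- Induction over the values of an upper semicontinuous integral function. -/
theorem good_of_levels {BC : GSp G → Prop} (hex : Excision BC) (h0 : ∀ A : GSp G, IsEmpty A.X → BC A)
    (A : GSp G) {s : Set A.X} (f : A.X → ℕ) (N : ℕ) (hN : ∀ x ∈ s, f x ≤ N)
    (hfi : ∀ (g : G) (x : A.X), f (g • x) = f x)
    (hf : ∀ i, SeqClosedIn s {x | x ∈ s ∧ i ≤ f x})
    (hl : ∀ i, Good BC A {x | x ∈ s ∧ f x = i}) : Good BC A s := by
  intro hs hi
  have key : ∀ j, Good BC A {x | x ∈ s ∧ N + 1 - j ≤ f x} := by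
    intro j
    induction j with
    | zero =>
      intro hs' hi'
      refine h0 _ ⟨?_⟩
      rintro ⟨x, hx, hx'⟩
      have := hN x hx
      omega
    | succ j ih =>
      intro hs' hi'
      by_cases hj : j ≤ N
      · refine good_of_closed hex A hs' hi' (t := {x | x ∈ s ∧ N + 1 - j ≤ f x}) ?_ ?_ ?_ ih ?_
        · rintro x ⟨hx, hx'⟩
          exact ⟨hx, by omega⟩
        · rintro g x ⟨hx, hx'⟩
          exact ⟨hi g x hx, by rw [hfi]; exact hx'⟩
        · intro u x hu hx hux
          exact hf _ u x hu hx.1 hux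
        · have : {x | x ∈ s ∧ N + 1 - (j + 1) ≤ f x} \ {x | x ∈ s ∧ N + 1 - j ≤ f x} =
              {x | x ∈ s ∧ f x = N - j} := by
            ext x
            constructor
            · rintro ⟨⟨hx, h1⟩, h2⟩
              refine ⟨hx, ?_⟩
              by_contra hne
              exact h2 ⟨hx, by omega⟩
            · rintro ⟨hx, h1⟩
              refine ⟨⟨hx, by omega⟩, fun h2 => ?_⟩
              have := h2.2
              omega
          rw [this]
          exact hl _
      · have : {x | x ∈ s ∧ N + 1 - (j + 1) ≤ f x} = {x | x ∈ s ∧ N + 1 - j ≤ f x} := by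
          ext x
          constructor
          · rintro ⟨hx, h1⟩
            exact ⟨hx, by omega⟩
          · rintro ⟨hx, h1⟩
            exact ⟨hx, by omega⟩
        have h2 : Good BC A {x | x ∈ s ∧ N + 1 - (j + 1) ≤ f x} := by rw [this]; exact ih
        exact h2 hs' hi'
  have h1 := key (N + 1)
  have h2 : {x | x ∈ s ∧ N + 1 - (N + 1) ≤ f x} = s := by
    ext x
    simp
  rw [h2] at h1
  exact h1 hs hi

/-- Induction over the values of a lower semicontinuous integral function. -/
theorem good_of_levels' {BC : GSp G → Prop} (hex : Excision BC)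
    (h0 : ∀ A : GSp G, IsEmpty A.X → BC A)
    (A : GSp G) {s : Set A.X} (f : A.X → ℕ) (N : ℕ) (hN : ∀ x ∈ s, f x ≤ N)
    (hfi : ∀ (g : G) (x : A.X), f (g • x) = f x)
    (hf : ∀ i, SeqClosedIn s {x | x ∈ s ∧ f x ≤ i})
    (hl : ∀ i, Good BC A {x | x ∈ s ∧ f x = i}) : Good BC A s := by
  refine good_of_levels hex h0 A (fun x => N - f x) N (fun x _ => Nat.sub_le _ _)
    (fun g x => by simp only [hfi]) ?_ ?_
  · intro i u x hu hx hux
    rcases Nat.eq_zero_or_pos i with rfl | hi
    · exact ⟨hx, Nat.zero_le _⟩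
    · have h1 : ∀ n, u n ∈ {x | x ∈ s ∧ f x ≤ N - i} := by
        intro n
        obtain ⟨h1, h2⟩ := hu n
        exact ⟨h1, by have := hN _ h1; omega⟩
      obtain ⟨h2, h3⟩ := hf (N - i) u x h1 hx hux
      obtain ⟨h4, h5⟩ := hu 0
      exact ⟨hx, by omega⟩
  · intro i
    by_cases hi : i ≤ N
    · have : {x | x ∈ s ∧ N - f x = i} = {x | x ∈ s ∧ f x = N - i} := by
        ext x
        constructor
        · rintro ⟨hx, h1⟩
          exact ⟨hx, by have := hN x hx; omega⟩
        · rintro ⟨hx, h1⟩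
          exact ⟨hx, by omega⟩
      rw [this]
      exact hl _
    · intro hs' hi'
      refine h0 _ ⟨?_⟩
      rintro ⟨x, hx, hx'⟩
      omega

/-- A map to a homogeneous space, from local intertwiners. -/
theorem exists_map [IsTopologicalGroup G] (A : GSp G) (s : Set A.X) (hs : IsLocallyClosed s)
    (hi : ∀ (g : G) (x : A.X), x ∈ s → g • x ∈ s) (L : Subgroup G) (R : A.X → G → Prop)
    (hex : ∀ x ∈ s, ∃ g, R x g)
    (huniq : ∀ x ∈ s, ∀ g g', R x g → R x g' → g⁻¹ * g' ∈ L)
    (hequi : ∀ x ∈ s, ∀ g h, R x g → R (h • x) (h * g))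
    (hcont : ∀ (u : ℕ → A.X) (x : A.X), (∀ n, u n ∈ s) → x ∈ s → Tendsto u atTop (𝓝 x) →
      ∀ g, R x g → ∃ v : ℕ → G, Tendsto v atTop (𝓝 1) ∧ ∀ᶠ n in atTop, R (u n) (v n * g)) :
    ∃ p : (loc A s hs hi).X → G ⧸ L, Continuous p ∧
      ∀ (g : G) (x : (loc A s hs hi).X), p (g • x) = g • p x := by
  choose γ hγ using hex
  have hp : ∀ (x : A.X) (hx : x ∈ s) (g : G), R x g →
      (QuotientGroup.mk (γ x hx) : G ⧸ L) = QuotientGroup.mk g := by
    intro x hx g hg
    rw [QuotientGroup.eq]
    exact huniq x hx _ _ (hγ x hx) hg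
  refine ⟨fun x => QuotientGroup.mk (γ x.1 x.2), ?_, ?_⟩
  · have : SequentialSpace (loc A s hs hi).X := inferInstance
    rw [continuous_iff_seqContinuous]
    intro u x hu
    have hu' : Tendsto (fun n => (u n).1) atTop (𝓝 x.1) :=
      (continuous_subtype_val.tendsto x).comp hu
    obtain ⟨v, hv, hev⟩ := hcont (fun n => (u n).1) x.1 (fun n => (u n).2) x.2 hu' (γ x.1 x.2)
      (hγ x.1 x.2)
    have h1 : Tendsto (fun n => (QuotientGroup.mk (v n * γ x.1 x.2) : G ⧸ L)) atTop
        (𝓝 (QuotientGroup.mk (γ x.1 x.2))) := by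
      have h2 : Tendsto (fun n => v n * γ x.1 x.2) atTop (𝓝 (γ x.1 x.2)) := by
        have := hv.mul_const (γ x.1 x.2)
        rwa [one_mul] at this
      exact (QuotientGroup.continuous_mk.tendsto _).comp h2
    refine h1.congr' ?_
    filter_upwards [hev] with n hn
    exact (hp (u n).1 (u n).2 _ hn).symm
  · intro g x
    exact hp (g • x.1) (hi g x.1 x.2) (g * γ x.1 x.2) (hequi x.1 x.2 _ g (hγ x.1 x.2))

end Pool.Agent.Helper64.BC
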