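import Pool.Agent.Helper64.BC.Tan
import Pool.Agent.Helper64.BC.Alg
import Pool.Agent.Helper64.BC.Fam
import Pool.Agent.Helper64.BC.Strat

/-!
# The tangent spaces of the stabilizers of the points of an `SL_3(ℝ)`-space
-/

set_option autoImplicit false

namespace Pool.Agent.Helper64.BC

open Filter Topology Set
open Pool.Agent.Q27.GS Pool.Agent.Q27.GT
open scoped Matrix.Norms.Operator
attribute [-instance] instTopologicalSpaceMatrix

/-- Conjugation by `g`. -/
def cg (g : G3) : M3 ≃ₗ[ℝ] M3 where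
  toFun Y := (g : M3) * Y * ((g⁻¹ : G3) : M3)
  invFun Y := ((g⁻¹ : G3) : M3) * Y * (g : M3)
  map_add' a b := by rw [mul_add, add_mul]
  map_smul' c a := by rw [mul_smul_comm, smul_mul_assoc]; rfl
  left_inv Y := by
    have h : ((g⁻¹ : G3) : M3) * (g : M3) = 1 := by
      rw [← Matrix.SpecialLinearGroup.coe_mul, inv_mul_cancel]; rfl
    calc ((g⁻¹ : G3) : M3) * ((g : M3) * Y * ((g⁻¹ : G3) : M3)) * (g : M3)
        = (((g⁻¹ : G3) : M3) * (g : M3)) * Y * (((g⁻¹ : G3) : M3) * (g : M3)) := by noncomm_ring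
      _ = Y := by rw [h, one_mul, mul_one]
  right_inv Y := by
    have h : (g : M3) * ((g⁻¹ : G3) : M3) = 1 := by
      rw [← Matrix.SpecialLinearGroup.coe_mul, mul_inv_cancel]; rfl
    calc (g : M3) * (((g⁻¹ : G3) : M3) * Y * (g : M3)) * ((g⁻¹ : G3) : M3)
        = ((g : M3) * ((g⁻¹ : G3) : M3)) * Y * ((g : M3) * ((g⁻¹ : G3) : M3)) := by noncomm_ring
      _ = Y := by rw [h, one_mul, mul_one]

theorem cg_apply (g : G3) (Y : M3) : cg g Y = (g : M3) * Y * ((g⁻¹ : G3) : M3) := rfl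

theorem coe_inv_mul (g : G3) : ((g⁻¹ : G3) : M3) * (g : M3) = 1 := by
  rw [← Matrix.SpecialLinearGroup.coe_mul, inv_mul_cancel]; rfl

theorem coe_mul_inv (g : G3) : (g : M3) * ((g⁻¹ : G3) : M3) = 1 := by
  rw [← Matrix.SpecialLinearGroup.coe_mul, mul_inv_cancel]; rfl

theorem cg_mul (g : G3) (Y Z : M3) : cg g (Y * Z) = cg g Y * cg g Z := by
  rw [cg_apply, cg_apply, cg_apply]
  calc (g : M3) * (Y * Z) * ((g⁻¹ : G3) : M3)
      = (g : M3) * Y * 1 * Z * ((g⁻¹ : G3) : M3) := by noncomm_ring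
    _ = (g : M3) * Y * (((g⁻¹ : G3) : M3) * (g : M3)) * Z * ((g⁻¹ : G3) : M3) := by
        rw [coe_inv_mul]
    _ = _ := by noncomm_ring

theorem cg_one (g : G3) : cg g 1 = 1 := by
  rw [cg_apply, mul_one, coe_mul_inv]

theorem cg_inv_cg (g : G3) (Y : M3) : cg g⁻¹ (cg g Y) = Y := by
  rw [cg_apply, cg_apply, inv_inv]
  calc ((g⁻¹ : G3) : M3) * ((g : M3) * Y * ((g⁻¹ : G3) : M3)) * (g : M3)
      = (((g⁻¹ : G3) : M3) * (g : M3)) * Y * (((g⁻¹ : G3) : M3) * (g : M3)) := by noncomm_ring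
    _ = Y := by rw [coe_inv_mul, one_mul, mul_one]

theorem cg_trace (g : G3) (Y : M3) : (cg g Y).trace = Y.trace := by
  rw [cg_apply, Matrix.trace_mul_comm, ← mul_assoc, coe_inv_mul, one_mul]

/-- Conjugation as an algebra homomorphism. -/
def cgA (g : G3) : M3 →ₐ[ℝ] M3 :=
  AlgHom.ofLinearMap (cg g).toLinearMap (cg_one g) (cg_mul g)

theorem cgA_apply (g : G3) (Y : M3) : cgA g Y = cg g Y := rfl

variable (A : GSp G3)

/-- The tangent space of the stabilizer. -/
def hh (x : A.X) : Submodule ℝ M3 := tan (MulAction.stabilizer G3 x)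

/-- The algebra generated by the tangent space. -/
def BB (x : A.X) : Subalgebra ℝ M3 := Algebra.adjoin ℝ (hh A x : Set M3)

variable {A}

theorem hh_le_BB (x : A.X) {Y : M3} (hY : Y ∈ hh A x) : Y ∈ BB A x :=
  Algebra.subset_adjoin hY

theorem hh_cg (g : G3) (x : A.X) {Y : M3} (hY : Y ∈ hh A x) : cg g Y ∈ hh A (g • x) := by
  refine IsTan.conj g (fun h hh => ?_) hY
  rw [MulAction.mem_stabilizer_iff] at *
  rw [mul_smul, inv_smul_smul, mul_smul, hh]

theorem BB_cg (g : G3) (x : A.X) {Y : M3} (hY : Y ∈ BB A x) : cg g Y ∈ BB A (g • x) := by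
  have h1 : (BB A x).map (cgA g) ≤ BB A (g • x) := by
    rw [BB, AlgHom.map_adjoin]
    refine Algebra.adjoin_le ?_
    rintro _ ⟨Z, hZ, rfl⟩
    exact hh_le_BB _ (hh_cg g x hZ)
  exact h1 ⟨Y, hY, rfl⟩

theorem BB_cg_inv (g : G3) (x : A.X) {Y : M3} (hY : Y ∈ BB A (g • x)) : cg g⁻¹ Y ∈ BB A x := by
  have := BB_cg g⁻¹ (g • x) hY
  rwa [inv_smul_smul] at this

theorem cg_cg_inv (g : G3) (Y : M3) : cg g (cg g⁻¹ Y) = Y := by
  have := cg_inv_cg g⁻¹ Y
  rwa [inv_inv] at this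

theorem rad_cg (g : G3) (x : A.X) {Y : M3} (hY : Y ∈ rad (BB A x)) :
    cg g Y ∈ rad (BB A (g • x)) := by
  refine ⟨BB_cg g x hY.1, fun Z hZ => ?_⟩
  have h1 := hY.2 _ (BB_cg_inv g x hZ)
  have h2 : cg g Y * Z = cg g (Y * cg g⁻¹ Z) := by rw [cg_mul, cg_cg_inv]
  rw [h2, cg_trace]
  exact h1

/-- The linear map of `g` on vectors. -/
def vg (g : G3) : (Fin 3 → ℝ) →ₗ[ℝ] (Fin 3 → ℝ) := Matrix.mulVecLin (g : M3)

theorem vg_apply (g : G3) (v : Fin 3 → ℝ) : vg g v = Matrix.mulVec (g : M3) v := rfl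

theorem img_vg (g : G3) (x : A.X) {v : Fin 3 → ℝ} (hv : v ∈ img (BB A x)) :
    vg g v ∈ img (BB A (g • x)) := by
  refine Submodule.span_induction ?_ ?_ ?_ ?_ hv
  · rintro _ ⟨Y, hY, w, rfl⟩
    refine Submodule.subset_span ⟨cg g Y, rad_cg g x hY, vg g w, ?_⟩
    rw [vg_apply, vg_apply, cg_apply, Matrix.mulVec_mulVec, Matrix.mulVec_mulVec, mul_assoc,
      mul_assoc, coe_inv_mul, mul_one]
  · rw [map_zero]
    exact Submodule.zero_mem _
  · intro a b _ _ ha hb
    rw [map_add]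
    exact Submodule.add_mem _ ha hb
  · intro c a _ ha
    rw [map_smul]
    exact Submodule.smul_mem _ _ ha

theorem idem_cg (g : G3) (x : A.X) {e : M3} (he : e ∈ idem (BB A x)) :
    cg g e ∈ idem (BB A (g • x)) := by
  obtain ⟨h1, h2, h3, h4⟩ := he
  refine ⟨BB_cg g x h1, fun Z hZ => ?_, ?_, ?_⟩
  · have h5 := h2 _ (BB_cg_inv g x hZ)
    have h6 : Z = cg g (cg g⁻¹ Z) := (cg_cg_inv g Z).symm
    rw [h6, ← cg_mul, ← cg_mul, h5]
  · rw [← cg_mul, h3]
  · rw [cg_trace, h4]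

/-- Families transported by injective linear maps have invariant dimensions. -/
theorem finrank_inv {E : Type*} [AddCommGroup E] [Module ℝ E] [FiniteDimensional ℝ E]
    (W : A.X → Submodule ℝ E) (ρ : G3 → E →ₗ[ℝ] E) (hρ : ∀ g, Function.Injective (ρ g))
    (hW : ∀ (g : G3) (x : A.X), ∀ v ∈ W x, ρ g v ∈ W (g • x)) (g : G3) (x : A.X) :
    Module.finrank ℝ (W (g • x)) = Module.finrank ℝ (W x) := by
  have key : ∀ (g : G3) (x : A.X), Module.finrank ℝ (W x) ≤ Module.finrank ℝ (W (g • x)) := by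
    intro g x
    refine LinearMap.finrank_le_finrank_of_injective
      (f := ((ρ g).comp (W x).subtype).codRestrict (W (g • x)) fun v => hW g x v v.2) ?_
    intro a b hab
    exact Subtype.ext (hρ g (congrArg Subtype.val hab))
  refine le_antisymm ?_ (key g x)
  have := key g⁻¹ (g • x)
  rwa [inv_smul_smul] at this

theorem vg_injective (g : G3) : Function.Injective (vg g) := by
  intro a b hab
  have h1 := congrArg (fun w => Matrix.mulVec ((g⁻¹ : G3) : M3) w) hab
  simpa only [vg_apply, Matrix.mulVec_mulVec, coe_inv_mul, Matrix.one_mulVec] using h1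

/-- Dimension of the tangent space. -/
noncomputable def f1 (x : A.X) : ℕ := Module.finrank ℝ (hh A x)

/-- Dimension of the algebra. -/
noncomputable def f2 (x : A.X) : ℕ := Module.finrank ℝ (Subalgebra.toSubmodule (BB A x))

/-- Dimension of the radical. -/
noncomputable def f3 (x : A.X) : ℕ := Module.finrank ℝ (rad (BB A x))

/-- Dimension of the space spanned by the images of the radical. -/
noncomputable def f4 (x : A.X) : ℕ := Module.finrank ℝ (img (BB A x))

theorem f1_smul (g : G3) (x : A.X) : f1 (g • x) = f1 x :=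
  finrank_inv (hh A) (fun g => (cg g).toLinearMap) (fun g => (cg g).injective)
    (fun g x _ hv => hh_cg g x hv) g x

theorem f2_smul (g : G3) (x : A.X) : f2 (g • x) = f2 x :=
  finrank_inv (fun x => Subalgebra.toSubmodule (BB A x)) (fun g => (cg g).toLinearMap)
    (fun g => (cg g).injective) (fun g x _ hv => BB_cg g x hv) g x

theorem f3_smul (g : G3) (x : A.X) : f3 (g • x) = f3 x :=
  finrank_inv (fun x => rad (BB A x)) (fun g => (cg g).toLinearMap) (fun g => (cg g).injective)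
    (fun g x _ hv => rad_cg g x hv) g x

theorem f4_smul (g : G3) (x : A.X) : f4 (g • x) = f4 x :=
  finrank_inv (fun x => img (BB A x)) (fun g => vg g) (fun g => vg_injective g)
    (fun g x _ hv => img_vg g x hv) g x

/-! ### Semicontinuity -/

theorem usc_hh : Usc (Set.univ : Set A.X) (hh A) := by
  intro u x _ _ hux w v hw hwv
  -- a common bound for the constants
  obtain ⟨R, hR⟩ : ∃ R : ℝ, ∀ n, ‖w n‖ ≤ R := by
    obtain ⟨R, hR⟩ := (hwv.norm).bddAbove_range
    exact ⟨R, fun n => hR ⟨n, rfl⟩⟩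
  have hR0 : 0 ≤ R := (norm_nonneg _).trans (hR 0)
  have key : ∀ T : ℝ, 1 ≤ T → ∃ g ∈ MulAction.stabilizer G3 x,
      ‖T • ((g : M3) - 1) - v‖ ≤ 2 * cst R / T := by
    intro T hT
    have hT0 : 0 < T := by linarith
    have hex : ∀ n, ∃ g ∈ MulAction.stabilizer G3 (u n),
        ‖T • ((g : M3) - 1) - w n‖ ≤ 2 * cst R / T := by
      intro n
      have h1 : IsTan _ (w n) := hw n
      obtain ⟨g, hg, hb⟩ := h1.bound T hT
      refine ⟨g, hg, hb.trans ?_⟩
      have := cst_mono (norm_nonneg _) (hR n)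
      gcongr
    choose g hg hb using hex
    have hbd : ∀ n, ‖(g n : M3)‖ ≤ 1 + (2 * cst R / T + R) / T := by
      intro n
      have e1 : (g n : M3) = 1 + T⁻¹ • ((T • ((g n : M3) - 1) - w n) + w n) := by
        rw [sub_add_cancel, smul_smul, inv_mul_cancel₀ hT0.ne', one_smul]
        abel
      rw [e1]
      refine (norm_add_le _ _).trans ?_
      rw [norm_one, norm_smul, norm_inv, Real.norm_of_nonneg hT0.le, div_eq_inv_mul]
      refine add_le_add le_rfl (mul_le_mul_of_nonneg_left ?_ (by positivity))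
      refine (norm_add_le _ _).trans (add_le_add (hb n) (hR n))
    obtain ⟨a, φ, hφ, ha⟩ := exists_subseq_of_bdd (fun n => (g n : M3)) _ hbd
    have hdet : a.det = 1 := det_of_tendsto (f := fun n => g (φ n)) ha
    obtain ⟨b, hb'⟩ : ∃ b : G3, (b : M3) = a := ⟨⟨a, hdet⟩, rfl⟩
    rw [← hb'] at ha
    have hg' : Tendsto (fun n => g (φ n)) atTop (𝓝 b) := tendsto_coe.mpr ha
    refine ⟨b, ?_, ?_⟩
    · rw [MulAction.mem_stabilizer_iff]
      have h1 : Tendsto (fun n => g (φ n) • u (φ n)) atTop (𝓝 (b • x)) :=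
        hg'.smul (hux.comp hφ.tendsto_atTop)
      have h2 : (fun n => g (φ n) • u (φ n)) = fun n => u (φ n) := by
        funext n
        exact MulAction.mem_stabilizer_iff.mp (hg (φ n))
      rw [h2] at h1
      exact tendsto_nhds_unique h1 (hux.comp hφ.tendsto_atTop)
    · have h1 : Tendsto (fun n => ‖T • ((g (φ n) : M3) - 1) - w (φ n)‖) atTop
          (𝓝 ‖T • ((b : M3) - 1) - v‖) :=
        (((ha.sub_const 1).const_smul T).sub (hwv.comp hφ.tendsto_atTop)).norm
      exact le_of_tendsto' h1 fun n => hb (φ n)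
  -- hence `v` is tangent
  choose! g hg hb using key
  refine ⟨fun n => (n : ℝ) + 1, fun n => g ((n : ℝ) + 1),
    tendsto_atTop_add_const_right _ _ tendsto_nat_cast_atTop, fun n => ?_, ?_⟩
  · exact hg _ (by have : (0 : ℝ) ≤ n := Nat.cast_nonneg n; linarith)
  · refine tendsto_iff_norm_sub_tendsto_zero.mpr ?_
    have h1 : Tendsto (fun n : ℕ => 2 * cst R / ((n : ℝ) + 1)) atTop (𝓝 0) :=
      tendsto_const_nhds.div_atTop (tendsto_atTop_add_const_right _ _ tendsto_nat_cast_atTop)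
    refine squeeze_zero (fun n => norm_nonneg _) (fun n => ?_) h1
    exact hb _ (by have : (0 : ℝ) ≤ n := Nat.cast_nonneg n; linarith)

theorem lsc_BB {s : Set A.X} (h : Lsc s (hh A)) :
    Lsc s (fun x => Subalgebra.toSubmodule (BB A x)) := by
  intro u x hu hx hux v hv
  have hv' : v ∈ Algebra.adjoin ℝ (hh A x : Set M3) := hv
  induction hv' using Algebra.adjoin_induction with
  | mem y hy =>
    obtain ⟨w, hw, hwy⟩ := h u x hu hx hux y hy
    exact ⟨w, fun n => hh_le_BB _ (hw n), hwy⟩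
  | algebraMap r =>
    exact ⟨fun _ => algebraMap ℝ M3 r, fun n => (BB A (u n)).algebraMap_mem r, tendsto_const_nhds⟩
  | add a b ha hb iha ihb =>
    obtain ⟨wa, hwa, hwa'⟩ := iha ha
    obtain ⟨wb, hwb, hwb'⟩ := ihb hb
    exact ⟨fun n => wa n + wb n, fun n => Submodule.add_mem _ (hwa n) (hwb n), hwa'.add hwb'⟩
  | mul a b ha hb iha ihb =>
    obtain ⟨wa, hwa, hwa'⟩ := iha ha
    obtain ⟨wb, hwb, hwb'⟩ := ihb hb
    exact ⟨fun n => wa n * wb n, fun n => (BB A (u n)).mul_mem (hwa n) (hwb n), hwa'.mul hwb'⟩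

theorem usc_rad {s : Set A.X} (hl : Lsc s (fun x => Subalgebra.toSubmodule (BB A x)))
    (hu : Usc s (fun x => Subalgebra.toSubmodule (BB A x))) : Usc s (fun x => rad (BB A x)) := by
  intro u x hus hx hux w v hw hwv
  refine ⟨hu u x hus hx hux w v (fun n => (hw n).1) hwv, fun Z hZ => ?_⟩
  obtain ⟨z, hz, hzZ⟩ := hl u x hus hx hux Z hZ
  have h1 : Tendsto (fun n => (w n * z n).trace) atTop (𝓝 (v * Z).trace) :=
    (continuous_trace3.tendsto _).comp (hwv.mul hzZ)
  have h2 : (fun n => (w n * z n).trace) = fun _ => 0 := by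
    funext n
    exact (hw n).2 _ (hz n)
  rw [h2] at h1
  exact tendsto_nhds_unique h1 tendsto_const_nhds

theorem continuous_mulVec (v : Fin 3 → ℝ) : Continuous fun Y : M3 => Matrix.mulVec Y v := by
  refine continuous_pi fun i => ?_
  simp only [Matrix.mulVec, dotProduct, Fin.sum_univ_three]
  have h0 := continuous_entry i 0
  have h1 := continuous_entry i 1
  have h2 := continuous_entry i 2
  fun_prop

theorem lsc_img {s : Set A.X} (hl : Lsc s (fun x => rad (BB A x))) :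
    Lsc s (fun x => img (BB A x)) := by
  intro u x hu hx hux v hv
  refine Submodule.span_induction ?_ ?_ ?_ ?_ hv
  · rintro _ ⟨Y, hY, w, rfl⟩
    obtain ⟨y, hy, hyY⟩ := hl u x hu hx hux Y hY
    exact ⟨fun n => Matrix.mulVec (y n) w, fun n => Submodule.subset_span ⟨y n, hy n, w, rfl⟩,
      ((continuous_mulVec w).tendsto Y).comp hyY⟩
  · exact ⟨fun _ => 0, fun n => Submodule.zero_mem _, tendsto_const_nhds⟩
  · rintro a b _ _ ⟨wa, hwa, hwa'⟩ ⟨wb, hwb, hwb'⟩
    exact ⟨fun n => wa n + wb n, fun n => Submodule.add_mem _ (hwa n) (hwb n), hwa'.add hwb'⟩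
  · rintro c a _ ⟨wa, hwa, hwa'⟩
    exact ⟨fun n => c • wa n, fun n => Submodule.smul_mem _ _ (hwa n), hwa'.const_smul c⟩

theorem hh_trace {x : A.X} {Y : M3} (hY : Y ∈ hh A x) : Y.trace = 0 := IsTan.trace hY

theorem hh_bracket {x : A.X} : ∀ Y ∈ hh A x, ∀ Z ∈ hh A x, Y * Z - Z * Y ∈ hh A x :=
  fun _ hY _ hZ => tan_bracket hY hZ

theorem hh_eq_bot_iff (x : A.X) :
    hh A x = ⊥ ↔ DiscreteTopology (MulAction.stabilizer G3 x) := tan_eq_bot_iff _

end Pool.Agent.Helper64.BC
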