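import Pool.Agent.Helper64.BC.Mat

/-!
# The tangent space of a subgroup of `SL_3(ℝ)`, without the exponential map
-/

set_option autoImplicit false

namespace Pool.Agent.Helper64.BC

open Filter Topology
open scoped Matrix.Norms.Operator
attribute [-instance] instTopologicalSpaceMatrix

section ring

variable {R : Type*} [NormedRing R]

theorem pow_sub_lin (a : R) (m : ℕ) :
    ‖(1 + a) ^ m - 1 - (m : R) * a‖ ≤ (1 + ‖a‖) ^ m - 1 - m * ‖a‖ := by
  induction m with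
  | zero => simp
  | succ m ih =>
    have h1 : (1 + a) ^ (m + 1) - 1 - ((m + 1 : ℕ) : R) * a =
        ((1 + a) ^ m - 1 - (m : R) * a) + a * ((1 + a) ^ m - 1 - (m : R) * a) + (m : R) * (a * a) := by
      rw [pow_succ']
      push_cast
      have : a * ((m : R) * a) = (m : R) * (a * a) := by
        rw [← mul_assoc, ← mul_assoc, (Nat.cast_commute m a).eq]
      simp only [mul_sub, add_mul, one_mul, mul_one, this]
      abel
    have h3 : ‖(m : R) * (a * a)‖ ≤ m * ‖a‖ ^ 2 := by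
      rw [← nsmul_eq_mul]
      calc ‖m • (a * a)‖ ≤ m * ‖a * a‖ := norm_nsmul_le
        _ ≤ m * ‖a‖ ^ 2 := by
          rw [pow_two]
          exact mul_le_mul_of_nonneg_left (norm_mul_le _ _) (Nat.cast_nonneg m)
    rw [h1]
    calc ‖((1 + a) ^ m - 1 - (m : R) * a) + a * ((1 + a) ^ m - 1 - (m : R) * a) +
          (m : R) * (a * a)‖
        ≤ ‖(1 + a) ^ m - 1 - (m : R) * a‖ + ‖a‖ * ‖(1 + a) ^ m - 1 - (m : R) * a‖ +
          m * ‖a‖ ^ 2 := by
          refine (norm_add_le _ _).trans (add_le_add ((norm_add_le _ _).trans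
            (add_le_add le_rfl (norm_mul_le _ _))) h3)
      _ ≤ ((1 + ‖a‖) ^ m - 1 - m * ‖a‖) + ‖a‖ * ((1 + ‖a‖) ^ m - 1 - m * ‖a‖) +
          m * ‖a‖ ^ 2 := by
          have := mul_le_mul_of_nonneg_left ih (norm_nonneg a)
          linarith
      _ = (1 + ‖a‖) ^ (m + 1) - 1 - ((m + 1 : ℕ) : ℝ) * ‖a‖ := by
          push_cast
          ring

theorem exp_sub_lin {u : ℝ} (hu : 0 ≤ u) : Real.exp u - 1 - u ≤ u ^ 2 * Real.exp u := by
  have h1 : 1 - u ≤ Real.exp (-u) := by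
    have := Real.add_one_le_exp (-u)
    linarith
  have h2 : Real.exp u * Real.exp (-u) = 1 := by
    rw [← Real.exp_add, add_neg_cancel, Real.exp_zero]
  have h3 : 0 < Real.exp u := Real.exp_pos u
  have h4 : Real.exp u * (1 - u) ≤ 1 := by
    calc Real.exp u * (1 - u) ≤ Real.exp u * Real.exp (-u) := mul_le_mul_of_nonneg_left h1 h3.le
      _ = 1 := h2
  nlinarith

theorem pow_sub_lin' (a : R) (m : ℕ) :
    ‖(1 + a) ^ m - 1 - (m : R) * a‖ ≤ (m * ‖a‖) ^ 2 * Real.exp (m * ‖a‖) := by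
  have h1 : (1 + ‖a‖) ^ m ≤ Real.exp (m * ‖a‖) := by
    have h2 : 1 + ‖a‖ ≤ Real.exp ‖a‖ := by
      have := Real.add_one_le_exp ‖a‖
      linarith
    calc (1 + ‖a‖) ^ m ≤ (Real.exp ‖a‖) ^ m :=
          pow_le_pow_left₀ (by positivity) h2 m
      _ = Real.exp (m * ‖a‖) := by rw [← Real.exp_nat_mul]
  have h3 := exp_sub_lin (u := m * ‖a‖) (by positivity)
  have h4 := pow_sub_lin a m
  linarith

theorem norm_pow_sub_pow [NormOneClass R] (a b : R) (K : ℝ) (ha : ‖a‖ ≤ K) (hb : ‖b‖ ≤ K)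
    (n : ℕ) : ‖a ^ (n + 1) - b ^ (n + 1)‖ ≤ (n + 1) * ‖a - b‖ * K ^ n := by
  have hK : 0 ≤ K := (norm_nonneg a).trans ha
  induction n with
  | zero => simp
  | succ n ih =>
    have h1 : a ^ (n + 1 + 1) - b ^ (n + 1 + 1) =
        a * (a ^ (n + 1) - b ^ (n + 1)) + (a - b) * b ^ (n + 1) := by
      rw [pow_succ' a (n + 1), pow_succ' b (n + 1)]
      noncomm_ring
    have h2 : ‖b ^ (n + 1)‖ ≤ K ^ (n + 1) :=
      (norm_pow_le b (n + 1)).trans (pow_le_pow_left₀ (norm_nonneg b) hb _)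
    rw [h1]
    calc ‖a * (a ^ (n + 1) - b ^ (n + 1)) + (a - b) * b ^ (n + 1)‖
        ≤ ‖a‖ * ‖a ^ (n + 1) - b ^ (n + 1)‖ + ‖a - b‖ * ‖b ^ (n + 1)‖ :=
          (norm_add_le _ _).trans (add_le_add (norm_mul_le _ _) (norm_mul_le _ _))
      _ ≤ K * ((n + 1) * ‖a - b‖ * K ^ n) + ‖a - b‖ * K ^ (n + 1) := by
          refine add_le_add (mul_le_mul ha ih (norm_nonneg _) hK)
            (mul_le_mul_of_nonneg_left h2 (norm_nonneg _))
      _ = ((n + 1 : ℕ) + 1) * ‖a - b‖ * K ^ (n + 1) := by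
          push_cast
          ring

end ring

/-- The constant of the power estimate. -/
noncomputable def cst (r : ℝ) : ℝ := (r + 1) ^ 2 * Real.exp (r + 1)

theorem cst_pos {r : ℝ} (hr : 0 ≤ r) : 0 < cst r := by
  unfold cst
  positivity

theorem cst_mono {r s : ℝ} (hr : 0 ≤ r) (h : r ≤ s) : cst r ≤ cst s := by
  unfold cst
  have h1 : (r + 1) ^ 2 ≤ (s + 1) ^ 2 := pow_le_pow_left₀ (by linarith) (by linarith) 2
  have h2 : Real.exp (r + 1) ≤ Real.exp (s + 1) := Real.exp_le_exp.mpr (by linarith)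
  exact mul_le_mul h1 h2 (Real.exp_pos _).le (by positivity)

theorem nat_mul_eq_smul (m : ℕ) (a : M3) : (m : M3) * a = (m : ℝ) • a := by
  rw [← nsmul_eq_mul, Nat.cast_smul_eq_nsmul]

/-- The tangent vectors with a bound for the error. -/
theorem scale_step (H : Subgroup G3) (Y : M3) (t : ℝ) (g : G3) (hg : g ∈ H) (T : ℝ) (hT : 1 ≤ T)
    (hTt : T ≤ t) (ε : ℝ) (hε : ‖t • ((g : M3) - 1) - Y‖ ≤ ε) (hε1 : ε ≤ 1) :
    ∃ g' ∈ H, ‖T • ((g' : M3) - 1) - Y‖ ≤ cst ‖Y‖ / T + T * (‖Y‖ + 1) / t + ε := by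
  have hT0 : 0 < T := by linarith
  have ht0 : 0 < t := by linarith
  set m : ℕ := ⌊t / T⌋₊ with hm
  set a : M3 := (g : M3) - 1 with ha
  have hm1 : (m : ℝ) ≤ t / T := Nat.floor_le (by positivity)
  have hm2 : t / T < m + 1 := Nat.lt_floor_add_one _
  have hga : ((g ^ m : G3) : M3) = (1 + a) ^ m := by
    rw [Matrix.SpecialLinearGroup.coe_pow, ha]
    congr 1
    abel
  have hta : ‖t • a‖ ≤ ‖Y‖ + 1 := by
    calc ‖t • a‖ = ‖(t • a - Y) + Y‖ := by rw [sub_add_cancel]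
      _ ≤ ‖t • a - Y‖ + ‖Y‖ := norm_add_le _ _
      _ ≤ ‖Y‖ + 1 := by linarith
  have hna : ‖a‖ ≤ (‖Y‖ + 1) / t := by
    rw [norm_smul, Real.norm_of_nonneg ht0.le] at hta
    rw [le_div_iff₀ ht0, mul_comm]
    exact hta
  have hma : m * ‖a‖ ≤ (‖Y‖ + 1) / T := by
    calc (m : ℝ) * ‖a‖ ≤ (t / T) * ((‖Y‖ + 1) / t) :=
          mul_le_mul hm1 hna (norm_nonneg _) (by positivity)
      _ = (‖Y‖ + 1) / T := by field_simp
  refine ⟨g ^ m, H.pow_mem hg m, ?_⟩
  rw [hga]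
  have e1 : T • ((1 + a) ^ m - 1) - Y =
      T • ((1 + a) ^ m - 1 - (m : M3) * a) + (T * m - t) • a + (t • a - Y) := by
    rw [nat_mul_eq_smul, smul_sub T ((1 + a) ^ m - 1), smul_smul, sub_smul]
    abel
  have h1 : ‖T • ((1 + a) ^ m - 1 - (m : M3) * a)‖ ≤ cst ‖Y‖ / T := by
    rw [norm_smul, Real.norm_of_nonneg hT0.le]
    have h2 := pow_sub_lin' a m
    have h3 : (m * ‖a‖) ^ 2 * Real.exp (m * ‖a‖) ≤
        ((‖Y‖ + 1) / T) ^ 2 * Real.exp (‖Y‖ + 1) := by
      have h4 : (‖Y‖ + 1) / T ≤ ‖Y‖ + 1 := div_le_self (by positivity) hT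
      exact mul_le_mul (pow_le_pow_left₀ (by positivity) hma 2)
        (Real.exp_le_exp.mpr (hma.trans h4)) (Real.exp_pos _).le (by positivity)
    calc T * ‖(1 + a) ^ m - 1 - (m : M3) * a‖
        ≤ T * (((‖Y‖ + 1) / T) ^ 2 * Real.exp (‖Y‖ + 1)) :=
          mul_le_mul_of_nonneg_left (h2.trans h3) hT0.le
      _ = cst ‖Y‖ / T := by
          unfold cst
          field_simp
  have h2 : ‖(T * m - t) • a‖ ≤ T * (‖Y‖ + 1) / t := by
    rw [norm_smul]
    have h3 : ‖T * m - t‖ ≤ T := by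
      rw [Real.norm_eq_abs, abs_le]
      have h4 : T * m ≤ t := by
        calc T * m ≤ T * (t / T) := mul_le_mul_of_nonneg_left hm1 hT0.le
          _ = t := by field_simp
      have h5 : t < T * (m + 1) := by
        calc t = T * (t / T) := by field_simp
          _ < T * (m + 1) := mul_lt_mul_of_pos_left hm2 hT0
      constructor
      · nlinarith
      · linarith
    calc ‖T * m - t‖ * ‖a‖ ≤ T * ((‖Y‖ + 1) / t) :=
          mul_le_mul h3 hna (norm_nonneg _) hT0.le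
      _ = T * (‖Y‖ + 1) / t := by ring
  rw [e1]
  calc ‖T • ((1 + a) ^ m - 1 - (m : M3) * a) + (T * m - t) • a + (t • a - Y)‖
      ≤ ‖T • ((1 + a) ^ m - 1 - (m : M3) * a)‖ + ‖(T * m - t) • a‖ + ‖t • a - Y‖ :=
        (norm_add_le _ _).trans (add_le_add (norm_add_le _ _) le_rfl)
    _ ≤ _ := by linarith

/-- `Y` is a tangent vector of `H` at `1`. -/
def IsTan (H : Subgroup G3) (Y : M3) : Prop :=
  ∃ (t : ℕ → ℝ) (g : ℕ → G3), Tendsto t atTop atTop ∧ (∀ n, g n ∈ H) ∧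
    Tendsto (fun n => t n • ((g n : M3) - 1)) atTop (𝓝 Y)

theorem IsTan.bound {H : Subgroup G3} {Y : M3} (h : IsTan H Y) (T : ℝ) (hT : 1 ≤ T) :
    ∃ g ∈ H, ‖T • ((g : M3) - 1) - Y‖ ≤ 2 * cst ‖Y‖ / T := by
  obtain ⟨t, g, ht, hg, hY⟩ := h
  have hT0 : 0 < T := by linarith
  have hc : 0 < cst ‖Y‖ / T := div_pos (cst_pos (norm_nonneg _)) hT0
  -- choose `ε` and `n`
  set ε : ℝ := min 1 (cst ‖Y‖ / T / 2) with hε
  have hε0 : 0 < ε := lt_min one_pos (half_pos hc)
  have h1 : ∀ᶠ n in atTop, ‖t n • ((g n : M3) - 1) - Y‖ < ε := by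
    have := (tendsto_iff_norm_sub_tendsto_zero.mp hY).eventually (gt_mem_nhds hε0)
    exact this
  have h2 : ∀ᶠ n in atTop, T * (‖Y‖ + 1) / t n < cst ‖Y‖ / T / 2 := by
    have h3 : Tendsto (fun n => T * (‖Y‖ + 1) / t n) atTop (𝓝 0) :=
      tendsto_const_nhds.div_atTop ht
    exact h3.eventually (gt_mem_nhds (half_pos hc))
  have h3 : ∀ᶠ n in atTop, T ≤ t n := ht.eventually_ge_atTop T
  obtain ⟨n, hn1, hn2, hn3⟩ := (h1.and (h2.and h3)).exists
  obtain ⟨g', hg', hb⟩ := scale_step H Y (t n) (g n) (hg n) T hT hn3 ε hn1.le (min_le_left _ _)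
  refine ⟨g', hg', hb.trans ?_⟩
  have h4 : ε ≤ cst ‖Y‖ / T / 2 := min_le_right _ _
  have h5 : 2 * cst ‖Y‖ / T = cst ‖Y‖ / T + cst ‖Y‖ / T / 2 + cst ‖Y‖ / T / 2 := by ring
  linarith

/-- A tangent vector is a limit at every scale. -/
theorem IsTan.scale {H : Subgroup G3} {Y : M3} (h : IsTan H Y) (T : ℕ → ℝ)
    (hT : Tendsto T atTop atTop) :
    ∃ g : ℕ → G3, (∀ n, g n ∈ H) ∧ Tendsto (fun n => T n • ((g n : M3) - 1)) atTop (𝓝 Y) := by
  have hex : ∀ n, ∃ g ∈ H, 1 ≤ T n → ‖T n • ((g : M3) - 1) - Y‖ ≤ 2 * cst ‖Y‖ / T n := by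
    intro n
    by_cases hn : 1 ≤ T n
    · obtain ⟨g, hg, hb⟩ := h.bound (T n) hn
      exact ⟨g, hg, fun _ => hb⟩
    · exact ⟨1, H.one_mem, fun hn' => absurd hn' hn⟩
  choose g hg hb using hex
  refine ⟨g, hg, tendsto_iff_norm_sub_tendsto_zero.mpr ?_⟩
  have h1 : Tendsto (fun n => 2 * cst ‖Y‖ / T n) atTop (𝓝 0) := tendsto_const_nhds.div_atTop hT
  refine squeeze_zero' (Eventually.of_forall fun n => norm_nonneg _) ?_ h1
  filter_upwards [hT.eventually_ge_atTop 1] with n hn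
  exact hb n hn

theorem tendsto_nat_cast_atTop : Tendsto (fun n : ℕ => (n : ℝ)) atTop atTop :=
  tendsto_natCast_atTop_atTop

/-- Elements which are close at a large scale tend to `1`. -/
theorem tendsto_one_of_scale {T : ℕ → ℝ} (hT : Tendsto T atTop atTop) {g : ℕ → M3} {Y : M3}
    (h : Tendsto (fun n => T n • (g n - 1)) atTop (𝓝 Y)) : Tendsto g atTop (𝓝 1) := by
  have h1 : Tendsto (fun n => (T n)⁻¹ • (T n • (g n - 1))) atTop (𝓝 ((0 : ℝ) • Y)) :=
    (tendsto_inv_atTop_zero.comp hT).smul h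
  rw [zero_smul] at h1
  have h2 : Tendsto (fun n => g n - 1) atTop (𝓝 0) := by
    refine h1.congr' ?_
    filter_upwards [hT.eventually_gt_atTop 0] with n hn
    rw [smul_smul, inv_mul_cancel₀ hn.ne', one_smul]
  have h3 := h2.add_const (1 : M3)
  rw [zero_add] at h3
  exact h3.congr fun n => sub_add_cancel _ _

theorem IsTan.zero (H : Subgroup G3) : IsTan H 0 := by
  refine ⟨fun n => n, fun _ => 1, tendsto_nat_cast_atTop, fun _ => H.one_mem, ?_⟩
  have : (fun n : ℕ => (n : ℝ) • (((1 : G3) : M3) - 1)) = fun _ => 0 := by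
    funext n
    simp
  rw [this]
  exact tendsto_const_nhds

theorem IsTan.add {H : Subgroup G3} {Y Z : M3} (hY : IsTan H Y) (hZ : IsTan H Z) :
    IsTan H (Y + Z) := by
  obtain ⟨g, hg, hgY⟩ := hY.scale (fun n => n) tendsto_nat_cast_atTop
  obtain ⟨k, hk, hkZ⟩ := hZ.scale (fun n => n) tendsto_nat_cast_atTop
  refine ⟨fun n => n, fun n => g n * k n, tendsto_nat_cast_atTop, fun n => H.mul_mem (hg n) (hk n),
    ?_⟩
  have hk1 := tendsto_one_of_scale tendsto_nat_cast_atTop hkZ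
  have h1 : Tendsto (fun n : ℕ => ((n : ℝ) • ((g n : M3) - 1)) * (k n : M3) +
      (n : ℝ) • ((k n : M3) - 1)) atTop (𝓝 (Y * 1 + Z)) := (hgY.mul hk1).add hkZ
  rw [mul_one] at h1
  refine h1.congr fun n => ?_
  rw [Matrix.SpecialLinearGroup.coe_mul, smul_mul_assoc, ← smul_add]
  congr 1
  rw [sub_mul, one_mul]
  abel

theorem IsTan.neg {H : Subgroup G3} {Y : M3} (hY : IsTan H Y) : IsTan H (-Y) := by
  obtain ⟨g, hg, hgY⟩ := hY.scale (fun n => n) tendsto_nat_cast_atTop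
  refine ⟨fun n => n, fun n => (g n)⁻¹, tendsto_nat_cast_atTop, fun n => H.inv_mem (hg n), ?_⟩
  have hg1 : Tendsto g atTop (𝓝 1) := by
    rw [tendsto_coe]
    exact tendsto_one_of_scale tendsto_nat_cast_atTop hgY
  have hg2 : Tendsto (fun n => (((g n)⁻¹ : G3) : M3)) atTop (𝓝 1) := by
    have := hg1.inv
    rw [inv_one, tendsto_coe] at this
    exact this
  have h1 : Tendsto (fun n : ℕ => -((((g n)⁻¹ : G3) : M3) * ((n : ℝ) • ((g n : M3) - 1)))) atTop
      (𝓝 (-(1 * Y))) := (hg2.mul hgY).neg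
  rw [one_mul] at h1
  refine h1.congr fun n => ?_
  rw [mul_smul_comm, ← smul_neg]
  congr 1
  rw [mul_sub, mul_one, ← Matrix.SpecialLinearGroup.coe_mul, inv_mul_cancel]
  have : ((1 : G3) : M3) = 1 := rfl
  rw [this]
  abel

theorem IsTan.smul_pos {H : Subgroup G3} {Y : M3} (hY : IsTan H Y) {c : ℝ} (hc : 0 < c) :
    IsTan H (c • Y) := by
  obtain ⟨t, g, ht, hg, hgY⟩ := hY
  refine ⟨fun n => c * t n, g, ht.const_mul_atTop hc, hg, ?_⟩
  have := hgY.const_smul c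
  refine this.congr fun n => ?_
  rw [smul_smul]

theorem IsTan.smul {H : Subgroup G3} {Y : M3} (hY : IsTan H Y) (c : ℝ) : IsTan H (c • Y) := by
  rcases lt_trichotomy c 0 with hc | hc | hc
  · have h1 := (hY.smul_pos (neg_pos.mpr hc)).neg
    rwa [neg_smul, neg_neg] at h1
  · rw [hc, zero_smul]
    exact IsTan.zero H
  · exact hY.smul_pos hc

/-- The tangent space of `H`. -/
def tan (H : Subgroup G3) : Submodule ℝ M3 where
  carrier := {Y | IsTan H Y}
  add_mem' := fun h1 h2 => IsTan.add h1 h2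
  zero_mem' := IsTan.zero H
  smul_mem' := fun c _ h => IsTan.smul h c

theorem mem_tan {H : Subgroup G3} {Y : M3} : Y ∈ tan H ↔ IsTan H Y := Iff.rfl

theorem IsTan.trace {H : Subgroup G3} {Y : M3} (hY : IsTan H Y) : Y.trace = 0 := by
  obtain ⟨t, g, ht, hg, hgY⟩ := hY
  have hent : ∀ i j, Tendsto (fun n => t n * ((g n : M3) - 1) i j) atTop (𝓝 (Y i j)) := by
    intro i j
    exact ((continuous_entry i j).tendsto Y).comp hgY
  have hinv : Tendsto (fun n => (t n)⁻¹) atTop (𝓝 0) := tendsto_inv_atTop_zero.comp ht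
  -- `det (1 + a) = 1` gives `tr a = - q(a) - det a`
  have hid : ∀ n, 0 < t n → t n * ((g n : M3) - 1) 0 0 + t n * ((g n : M3) - 1) 1 1 +
      t n * ((g n : M3) - 1) 2 2 =
      -((t n)⁻¹ * (
        (t n * ((g n : M3) - 1) 0 0) * (t n * ((g n : M3) - 1) 1 1)
        - (t n * ((g n : M3) - 1) 0 1) * (t n * ((g n : M3) - 1) 1 0)
        + (t n * ((g n : M3) - 1) 0 0) * (t n * ((g n : M3) - 1) 2 2)
        - (t n * ((g n : M3) - 1) 0 2) * (t n * ((g n : M3) - 1) 2 0)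
        + (t n * ((g n : M3) - 1) 1 1) * (t n * ((g n : M3) - 1) 2 2)
        - (t n * ((g n : M3) - 1) 1 2) * (t n * ((g n : M3) - 1) 2 1)))
      - (t n)⁻¹ * (t n)⁻¹ * (
        (t n * ((g n : M3) - 1) 0 0) * (t n * ((g n : M3) - 1) 1 1) * (t n * ((g n : M3) - 1) 2 2)
        - (t n * ((g n : M3) - 1) 0 0) * (t n * ((g n : M3) - 1) 1 2) * (t n * ((g n : M3) - 1) 2 1)
        - (t n * ((g n : M3) - 1) 0 1) * (t n * ((g n : M3) - 1) 1 0) * (t n * ((g n : M3) - 1) 2 2)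
        + (t n * ((g n : M3) - 1) 0 1) * (t n * ((g n : M3) - 1) 1 2) * (t n * ((g n : M3) - 1) 2 0)
        + (t n * ((g n : M3) - 1) 0 2) * (t n * ((g n : M3) - 1) 1 0) * (t n * ((g n : M3) - 1) 2 1)
        - (t n * ((g n : M3) - 1) 0 2) * (t n * ((g n : M3) - 1) 1 1) *
          (t n * ((g n : M3) - 1) 2 0)) := by
    intro n hn
    have hdet := (g n).det_coe
    have hg' : ∀ i j, (g n : M3) i j = ((g n : M3) - 1) i j + (1 : M3) i j := by
      intro i j
      simp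
    rw [Matrix.det_fin_three] at hdet
    generalize hA : (g n : M3) - 1 = A at *
    simp only [hg'] at hdet
    simp at hdet
    have hne : t n ≠ 0 := hn.ne'
    field_simp
    linear_combination hdet
  have hq : Tendsto (fun n => t n * ((g n : M3) - 1) 0 0 + t n * ((g n : M3) - 1) 1 1 +
      t n * ((g n : M3) - 1) 2 2) atTop (𝓝 (
      -(0 * (Y 0 0 * Y 1 1 - Y 0 1 * Y 1 0 + Y 0 0 * Y 2 2 - Y 0 2 * Y 2 0 + Y 1 1 * Y 2 2
        - Y 1 2 * Y 2 1)) - 0 * 0 * (Y 0 0 * Y 1 1 * Y 2 2 - Y 0 0 * Y 1 2 * Y 2 1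
        - Y 0 1 * Y 1 0 * Y 2 2 + Y 0 1 * Y 1 2 * Y 2 0 + Y 0 2 * Y 1 0 * Y 2 1
        - Y 0 2 * Y 1 1 * Y 2 0))) := by
    refine Tendsto.congr' ((ht.eventually_gt_atTop 0).mono fun n hn => (hid n hn).symm) ?_
    have h00 := hent 0 0
    have h01 := hent 0 1
    have h02 := hent 0 2
    have h10 := hent 1 0
    have h11 := hent 1 1
    have h12 := hent 1 2
    have h20 := hent 2 0
    have h21 := hent 2 1
    have h22 := hent 2 2
    exact ((hinv.mul ((((((h00.mul h11).sub (h01.mul h10)).add (h00.mul h22)).sub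
      (h02.mul h20)).add (h11.mul h22)).sub (h12.mul h21))).neg).sub
      ((hinv.mul hinv).mul (((((((h00.mul h11).mul h22).sub ((h00.mul h12).mul h21)).sub
      ((h01.mul h10).mul h22)).add ((h01.mul h12).mul h20)).add ((h02.mul h10).mul h21)).sub
      ((h02.mul h11).mul h20)))
  have hs : Tendsto (fun n => t n * ((g n : M3) - 1) 0 0 + t n * ((g n : M3) - 1) 1 1 +
      t n * ((g n : M3) - 1) 2 2) atTop (𝓝 (Y 0 0 + Y 1 1 + Y 2 2)) :=
    ((hent 0 0).add (hent 1 1)).add (hent 2 2)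
  have := tendsto_nhds_unique hs hq
  rw [Matrix.trace_fin_three, this]
  ring

/-- Conjugation. -/
theorem IsTan.conj {H H' : Subgroup G3} (g : G3) (hH : ∀ h ∈ H, g * h * g⁻¹ ∈ H') {Y : M3}
    (hY : IsTan H Y) : IsTan H' ((g : M3) * Y * ((g⁻¹ : G3) : M3)) := by
  obtain ⟨t, k, ht, hk, hkY⟩ := hY
  refine ⟨t, fun n => g * k n * g⁻¹, ht, fun n => hH _ (hk n), ?_⟩
  have h1 : Tendsto (fun n => (g : M3) * (t n • ((k n : M3) - 1)) * ((g⁻¹ : G3) : M3)) atTop
      (𝓝 ((g : M3) * Y * ((g⁻¹ : G3) : M3))) := (hkY.const_mul _).mul_const _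
  refine h1.congr fun n => ?_
  have h4 : (g : M3) * ((g⁻¹ : G3) : M3) = 1 := by
    rw [← Matrix.SpecialLinearGroup.coe_mul, mul_inv_cancel]
    rfl
  rw [mul_smul_comm, smul_mul_assoc]
  congr 1
  rw [Matrix.SpecialLinearGroup.coe_mul, Matrix.SpecialLinearGroup.coe_mul, mul_sub, sub_mul,
    mul_one, h4]

/-- The tangent space is a Lie algebra. -/
theorem tan_bracket {H : Subgroup G3} {Y Z : M3} (hY : Y ∈ tan H) (hZ : Z ∈ tan H) :
    Y * Z - Z * Y ∈ tan H := by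
  obtain ⟨t, g, ht, hg, hgY⟩ := hY
  have hg1 : Tendsto g atTop (𝓝 1) := by
    rw [tendsto_coe]
    exact tendsto_one_of_scale ht hgY
  have hg2 : Tendsto (fun n => (((g n)⁻¹ : G3) : M3)) atTop (𝓝 1) := by
    have := hg1.inv
    rw [inv_one, tendsto_coe] at this
    exact this
  have h1 : Tendsto (fun n => ((t n • ((g n : M3) - 1)) * Z - Z * (t n • ((g n : M3) - 1))) *
      (((g n)⁻¹ : G3) : M3)) atTop (𝓝 ((Y * Z - Z * Y) * 1)) :=
    ((hgY.mul_const Z).sub (hgY.const_mul Z)).mul hg2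
  rw [mul_one] at h1
  refine (tan H).closed_of_finiteDimensional.mem_of_tendsto h1 (Eventually.of_forall fun n => ?_)
  have h2 : (g n : M3) * Z * (((g n)⁻¹ : G3) : M3) ∈ tan H :=
    IsTan.conj (g n) (fun h hh => H.mul_mem (H.mul_mem (hg n) hh) (H.inv_mem (hg n))) hZ
  have h3 : ((t n • ((g n : M3) - 1)) * Z - Z * (t n • ((g n : M3) - 1))) *
      (((g n)⁻¹ : G3) : M3) = t n • ((g n : M3) * Z * (((g n)⁻¹ : G3) : M3) - Z) := by
    have h4 : (g n : M3) * (((g n)⁻¹ : G3) : M3) = 1 := by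
      rw [← Matrix.SpecialLinearGroup.coe_mul, mul_inv_cancel]
      rfl
    rw [smul_mul_assoc, mul_smul_comm, ← smul_sub, smul_mul_assoc]
    congr 1
    rw [sub_mul, sub_mul, sub_mul, one_mul, mul_sub, mul_one, sub_mul]
    have h5 : Z * (g n : M3) * (((g n)⁻¹ : G3) : M3) = Z := by rw [mul_assoc, h4, mul_one]
    rw [h5]
    abel
  rw [h3]
  exact (tan H).smul_mem _ ((tan H).sub_mem h2 hZ)

/-- A closed subgroup with a nilpotent tangent vector contains a transvection. -/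
theorem one_add_mem {H : Subgroup G3} (hH : IsClosed (H : Set G3)) {Y : M3} (hY : IsTan H Y)
    (hY2 : Y * Y = 0) (g : G3) (hg : (g : M3) = 1 + Y) : g ∈ H := by
  have hex : ∀ n : ℕ, ∃ k ∈ H, ‖((n : ℝ) + 1) • ((k : M3) - 1) - Y‖ ≤ 2 * cst ‖Y‖ / ((n : ℝ) + 1) :=
    fun n => hY.bound _ (by have : (0 : ℝ) ≤ n := Nat.cast_nonneg n; linarith)
  choose k hk hb using hex
  have hpow : ∀ n : ℕ, (1 + (((n : ℝ) + 1)⁻¹) • Y) ^ (n + 1) = 1 + Y := by
    intro n
    have h1 : ∀ (c : ℝ) (m : ℕ), (1 + c • Y) ^ m = 1 + ((m : ℝ) * c) • Y := by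
      intro c m
      induction m with
      | zero => simp
      | succ m ih =>
        rw [pow_succ, ih, mul_add, mul_one, add_mul, one_mul, smul_mul_smul_comm, hY2, smul_zero,
          add_zero, add_assoc, ← add_smul]
        push_cast
        ring_nf
    rw [h1]
    have h2 : ((n + 1 : ℕ) : ℝ) * ((n : ℝ) + 1)⁻¹ = 1 := by
      push_cast
      exact mul_inv_cancel₀ (by positivity)
    rw [h2, one_smul]
  -- the powers converge
  have hlim : Tendsto (fun n => ((k n ^ (n + 1) : G3) : M3)) atTop (𝓝 (g : M3)) := by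
    refine tendsto_iff_norm_sub_tendsto_zero.mpr ?_
    set C : ℝ := 2 * cst ‖Y‖ with hC
    have hC0 : 0 ≤ C := by
      have := (cst_pos (norm_nonneg Y)).le
      positivity
    have h1 : ∀ n : ℕ, ‖((k n ^ (n + 1) : G3) : M3) - (g : M3)‖ ≤
        C * Real.exp (‖Y‖ + C) * (1 / ((n : ℝ) + 1)) := by
      intro n
      have hn : (0 : ℝ) < (n : ℝ) + 1 := by positivity
      have hn1 : (1 : ℝ) ≤ (n : ℝ) + 1 := by have : (0 : ℝ) ≤ n := Nat.cast_nonneg n; linarith
      have e1 : (k n : M3) - (1 + (((n : ℝ) + 1)⁻¹) • Y) =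
          ((n : ℝ) + 1)⁻¹ • (((n : ℝ) + 1) • ((k n : M3) - 1) - Y) := by
        rw [smul_sub, smul_smul, inv_mul_cancel₀ hn.ne', one_smul]
        abel
      have hd : ‖(k n : M3) - (1 + (((n : ℝ) + 1)⁻¹) • Y)‖ ≤ C / ((n : ℝ) + 1) ^ 2 := by
        rw [e1, norm_smul, norm_inv, Real.norm_of_nonneg hn.le]
        calc ((n : ℝ) + 1)⁻¹ * ‖((n : ℝ) + 1) • ((k n : M3) - 1) - Y‖
            ≤ ((n : ℝ) + 1)⁻¹ * (C / ((n : ℝ) + 1)) :=
              mul_le_mul_of_nonneg_left (hb n) (by positivity)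
          _ = C / ((n : ℝ) + 1) ^ 2 := by field_simp
      set K : ℝ := 1 + (‖Y‖ + C) / ((n : ℝ) + 1) with hK
      have hY' : ‖(((n : ℝ) + 1)⁻¹) • Y‖ = ‖Y‖ / ((n : ℝ) + 1) := by
        rw [norm_smul, norm_inv, Real.norm_of_nonneg hn.le]
        ring
      have hKb : ‖1 + (((n : ℝ) + 1)⁻¹) • Y‖ ≤ K := by
        calc ‖1 + (((n : ℝ) + 1)⁻¹) • Y‖ ≤ ‖(1 : M3)‖ + ‖(((n : ℝ) + 1)⁻¹) • Y‖ := norm_add_le _ _
          _ = 1 + ‖Y‖ / ((n : ℝ) + 1) := by rw [norm_one, hY']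
          _ ≤ K := by
            rw [hK, add_div]
            have : 0 ≤ C / ((n : ℝ) + 1) := by positivity
            linarith
      have hKa : ‖(k n : M3)‖ ≤ K := by
        calc ‖(k n : M3)‖ = ‖((k n : M3) - (1 + (((n : ℝ) + 1)⁻¹) • Y)) +
              (1 + (((n : ℝ) + 1)⁻¹) • Y)‖ := by rw [sub_add_cancel]
          _ ≤ C / ((n : ℝ) + 1) ^ 2 + (1 + ‖Y‖ / ((n : ℝ) + 1)) := by
            refine (norm_add_le _ _).trans (add_le_add hd ?_)
            calc ‖1 + (((n : ℝ) + 1)⁻¹) • Y‖ ≤ ‖(1 : M3)‖ + ‖(((n : ℝ) + 1)⁻¹) • Y‖ :=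
                  norm_add_le _ _
              _ = 1 + ‖Y‖ / ((n : ℝ) + 1) := by rw [norm_one, hY']
          _ ≤ K := by
            rw [hK, add_div]
            have : C / ((n : ℝ) + 1) ^ 2 ≤ C / ((n : ℝ) + 1) := by
              apply div_le_div_of_nonneg_left hC0 hn
              nlinarith
            linarith
      have h2 := norm_pow_sub_pow (k n : M3) (1 + (((n : ℝ) + 1)⁻¹) • Y) K hKa hKb n
      rw [hpow n, ← hg, ← Matrix.SpecialLinearGroup.coe_pow] at h2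
      have hKn : K ^ n ≤ Real.exp (‖Y‖ + C) := by
        have h3 : K ≤ Real.exp ((‖Y‖ + C) / ((n : ℝ) + 1)) := by
          have := Real.add_one_le_exp ((‖Y‖ + C) / ((n : ℝ) + 1))
          linarith
        calc K ^ n ≤ (Real.exp ((‖Y‖ + C) / ((n : ℝ) + 1))) ^ n :=
              pow_le_pow_left₀ (by positivity) h3 n
          _ = Real.exp (n * ((‖Y‖ + C) / ((n : ℝ) + 1))) := by rw [← Real.exp_nat_mul]
          _ ≤ Real.exp (‖Y‖ + C) := by
              apply Real.exp_le_exp.mpr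
              have h4 : 0 ≤ ‖Y‖ + C := by positivity
              calc (n : ℝ) * ((‖Y‖ + C) / ((n : ℝ) + 1)) =
                    (‖Y‖ + C) * (n / ((n : ℝ) + 1)) := by ring
                _ ≤ (‖Y‖ + C) * 1 := by
                    apply mul_le_mul_of_nonneg_left _ h4
                    rw [div_le_one hn]
                    linarith
                _ = ‖Y‖ + C := mul_one _
      calc ‖((k n ^ (n + 1) : G3) : M3) - (g : M3)‖
          ≤ (n + 1) * ‖(k n : M3) - (1 + (((n : ℝ) + 1)⁻¹) • Y)‖ * K ^ n := h2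
        _ ≤ (n + 1) * (C / ((n : ℝ) + 1) ^ 2) * Real.exp (‖Y‖ + C) := by
            apply mul_le_mul (mul_le_mul_of_nonneg_left hd hn.le) hKn (by positivity)
              (by positivity)
        _ = C * Real.exp (‖Y‖ + C) * (1 / ((n : ℝ) + 1)) := by field_simp
    have h2 : Tendsto (fun n : ℕ => C * Real.exp (‖Y‖ + C) * (1 / ((n : ℝ) + 1))) atTop (𝓝 0) := by
      have := (tendsto_one_div_add_atTop_nhds_zero_nat (𝕜 := ℝ)).const_mul
        (C * Real.exp (‖Y‖ + C))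
      rwa [mul_zero] at this
    exact squeeze_zero (fun n => norm_nonneg _) h1 h2
  have h2 : Tendsto (fun n => k n ^ (n + 1)) atTop (𝓝 g) := tendsto_coe.mpr hlim
  exact hH.mem_of_tendsto h2 (Eventually.of_forall fun n => H.pow_mem (hk n) _)

/-- A subgroup is discrete if and only if its tangent space is zero. -/
theorem tan_eq_bot_iff (H : Subgroup G3) : tan H = ⊥ ↔ DiscreteTopology H := by
  constructor
  · intro h
    by_contra hnd
    -- a sequence of nontrivial elements tending to `1`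
    have hne : ∀ n : ℕ, ∃ g ∈ H, g ≠ 1 ∧ ‖(g : M3) - 1‖ < 1 / ((n : ℝ) + 1) := by
      intro n
      by_contra hcon
      push Not at hcon
      apply hnd
      rw [discreteTopology_iff_isOpen_singleton_one]
      have hn : (0 : ℝ) < 1 / ((n : ℝ) + 1) := by positivity
      have ho : IsOpen {g : H | ‖((g : G3) : M3) - 1‖ < 1 / ((n : ℝ) + 1)} := by
        have hc : Continuous fun g : H => ‖((g : G3) : M3) - 1‖ :=
          ((isEmbedding_coe.continuous.comp continuous_subtype_val).sub continuous_const).norm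
        exact isOpen_lt hc continuous_const
      have he : ({1} : Set H) = {g : H | ‖((g : G3) : M3) - 1‖ < 1 / ((n : ℝ) + 1)} := by
        ext g
        constructor
        · rintro rfl
          change ‖((1 : G3) : M3) - 1‖ < _
          have : ((1 : G3) : M3) = 1 := rfl
          rw [this, sub_self, norm_zero]
          exact hn
        · intro hg
          by_contra hg1
          have hg2 : (g : G3) ≠ 1 := fun h => hg1 (Subtype.ext h)
          exact absurd hg (not_lt.mpr (hcon g.1 g.2 hg2))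
      rw [he]
      exact ho
    choose g hg hg1 hgn using hne
    have hpos : ∀ n, 0 < ‖(g n : M3) - 1‖ := by
      intro n
      rw [norm_pos_iff]
      intro h0
      apply hg1 n
      apply Subtype.ext
      exact sub_eq_zero.mp h0
    obtain ⟨Y, φ, hφ, hY, hY1⟩ : ∃ (a : M3) (φ : ℕ → ℕ), StrictMono φ ∧
        Tendsto ((fun n => ‖(g n : M3) - 1‖⁻¹ • ((g n : M3) - 1)) ∘ φ) atTop (𝓝 a) ∧ ‖a‖ = 1 := by
      have : ProperSpace M3 := FiniteDimensional.proper ℝ M3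
      obtain ⟨a, ha, φ, hφ, h⟩ := (isCompact_sphere (0 : M3) 1).tendsto_subseq
        (x := fun n => ‖(g n : M3) - 1‖⁻¹ • ((g n : M3) - 1))
        (fun n => by
          rw [mem_sphere_zero_iff_norm, norm_smul, norm_inv, norm_norm,
            inv_mul_cancel₀ (hpos n).ne'])
      exact ⟨a, φ, hφ, h, by simpa using ha⟩
    have hT : IsTan H Y := by
      refine ⟨fun n => ‖(g (φ n) : M3) - 1‖⁻¹, fun n => g (φ n), ?_, fun n => hg _, hY⟩
      have h1 : Tendsto (fun n => ‖(g n : M3) - 1‖) atTop (𝓝[>] 0) := by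
        rw [tendsto_nhdsWithin_iff]
        refine ⟨squeeze_zero (fun n => norm_nonneg _) (fun n => (hgn n).le)
          tendsto_one_div_add_atTop_nhds_zero_nat, Eventually.of_forall fun n => hpos n⟩
      exact (tendsto_inv_nhdsGT_zero.comp h1).comp hφ.tendsto_atTop
    have h2 : Y ∈ tan H := hT
    rw [h, Submodule.mem_bot] at h2
    rw [h2, norm_zero] at hY1
    exact one_ne_zero hY1.symm
  · intro hd
    rw [eq_bot_iff]
    intro Y hY
    obtain ⟨t, g, ht, hg, hgY⟩ := hY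
    rw [Submodule.mem_bot]
    have hg1 : Tendsto (fun n => (⟨g n, hg n⟩ : H)) atTop (𝓝 1) := by
      rw [tendsto_subtype_rng, tendsto_coe]
      exact tendsto_one_of_scale ht hgY
    have h1 : ∀ᶠ n in atTop, (⟨g n, hg n⟩ : H) = 1 := by
      have : {(1 : H)} ∈ 𝓝 (1 : H) := by
        rw [nhds_discrete]
        exact Filter.mem_pure.mpr rfl
      exact hg1.eventually this
    refine tendsto_nhds_unique hgY ?_
    refine Tendsto.congr' ?_ tendsto_const_nhds
    filter_upwards [h1] with n hn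
    have h2 : g n = 1 := congrArg Subtype.val hn
    rw [h2]
    simp

end Pool.Agent.Helper64.BC
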