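import Pool.Agent.Helper64.BC.Idem

/-!
# The strata where the radical is zero and there are several central idempotents of trace one
-/

set_option autoImplicit false

namespace Pool.Agent.Helper64.BC

open Filter Topology Set
open Pool.Agent.Q27.GS Pool.Agent.Q27.GT
open scoped Matrix.Norms.Operator
attribute [-instance] instTopologicalSpaceMatrix

/-- The diagonal idempotents. -/
def E (i : Fin 3) : M3 := Matrix.diagonal (Pi.single i 1)

theorem E_mul_E (i : Fin 3) : E i * E i = E i := by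
  rw [E, Matrix.diagonal_mul_diagonal]
  congr 1
  funext j
  by_cases h : j = i
  · subst h
    simp
  · simp [Pi.single_eq_of_ne h]

theorem E_mul_ne {i j : Fin 3} (h : i ≠ j) : E i * E j = 0 := by
  rw [E, E, Matrix.diagonal_mul_diagonal, ← Matrix.diagonal_zero]
  congr 1
  funext k
  by_cases hk : k = i
  · subst hk
    simp [Pi.single_eq_of_ne h]
  · simp [Pi.single_eq_of_ne hk]

theorem E_sum : E 0 + E 1 + E 2 = 1 := by
  ext i j
  fin_cases i <;> fin_cases j <;> simp [E, Matrix.diagonal, Pi.single_apply]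

theorem diagonal_eq (d : Fin 3 → ℝ) : Matrix.diagonal d = ∑ i, d i • E i := by
  ext i j
  fin_cases i <;> fin_cases j <;>
    simp [E, Matrix.diagonal, Pi.single_apply, Fin.sum_univ_three, Matrix.add_apply]

theorem cg_comp (g h : G3) (Y : M3) : cg (g * h) Y = cg g (cg h Y) := by
  rw [cg_apply, cg_apply, cg_apply, _root_.mul_inv_rev, Matrix.SpecialLinearGroup.coe_mul,
    Matrix.SpecialLinearGroup.coe_mul]
  noncomm_ring

/-- Complete systems of orthogonal idempotents. -/
def Frame (B : Subalgebra ℝ M3) (e : Fin 3 → M3) : Prop :=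
  (∀ i, e i ∈ idem B) ∧ (∀ i j, i ≠ j → e i * e j = 0) ∧ e 0 + e 1 + e 2 = 1

theorem exists_frame {B : Subalgebra ℝ M3} (h : (idem B).Nontrivial) : ∃ e, Frame B e := by
  obtain ⟨a, ha, b, hb, hab⟩ := h
  have h1 := idem_orth ha hb hab
  have h2 := idem_orth hb ha hab.symm
  have hc : (1 - a - b) ∈ idem B := by
    refine ⟨B.sub_mem (B.sub_mem B.one_mem ha.1) hb.1, fun Z hZ => ?_, ?_, ?_⟩
    · rw [sub_mul, sub_mul, mul_sub, mul_sub, one_mul, mul_one, ha.2.1 Z hZ, hb.2.1 Z hZ]
    · calc (1 - a - b) * (1 - a - b) = 1 - a - b - a + a * a + a * b - b + b * a + b * b := by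
            noncomm_ring
        _ = 1 - a - b := by
            rw [h1, h2, ha.2.2.1, hb.2.2.1]
            abel
    · rw [Matrix.trace_sub, Matrix.trace_sub, Matrix.trace_one, ha.2.2.2, hb.2.2.2]
      norm_num
  have hac : a * (1 - a - b) = 0 := by
    rw [mul_sub, mul_sub, mul_one, ha.2.2.1, h1]
    simp
  have hbc : b * (1 - a - b) = 0 := by
    rw [mul_sub, mul_sub, mul_one, hb.2.2.1, h2]
    simp
  have hca : (1 - a - b) * a = 0 := by
    rw [sub_mul, sub_mul, one_mul, ha.2.2.1, h2]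
    simp
  have hcb : (1 - a - b) * b = 0 := by
    rw [sub_mul, sub_mul, one_mul, hb.2.2.1, h1]
    simp
  refine ⟨![a, b, 1 - a - b], ?_, ?_, ?_⟩
  · intro i
    fin_cases i
    · exact ha
    · exact hb
    · exact hc
  · intro i j hij
    fin_cases i <;> fin_cases j
    · exact absurd rfl hij
    · exact h1
    · exact hac
    · exact h2
    · exact absurd rfl hij
    · exact hbc
    · exact hca
    · exact hcb
    · exact absurd rfl hij
  · simp

theorem Frame.nontrivial {B : Subalgebra ℝ M3} {e : Fin 3 → M3} (h : Frame B e) :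
    (idem B).Nontrivial := by
  refine ⟨e 0, h.1 0, e 1, h.1 1, fun h01 => ?_⟩
  have h1 := h.2.1 0 1 (by decide)
  rw [← h01, (h.1 0).2.2.1] at h1
  exact idem_ne_zero (h.1 0) h1

theorem Frame.all {B : Subalgebra ℝ M3} {e : Fin 3 → M3} (h : Frame B e) {f : M3}
    (hf : f ∈ idem B) : ∃ i, f = e i := by
  by_contra hcon
  push Not at hcon
  have h1 : ∀ i, f * e i = 0 := fun i => idem_orth hf (h.1 i) (hcon i)
  apply idem_ne_zero hf
  calc f = f * (e 0 + e 1 + e 2) := by rw [h.2.2, mul_one]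
    _ = 0 := by rw [mul_add, mul_add, h1, h1, h1]; simp

theorem Frame.exists_cg {B : Subalgebra ℝ M3} {e : Fin 3 → M3} (h : Frame B e) :
    ∃ g : G3, ∀ i, cg g (E i) = e i := by
  have hv : ∀ i, ∃ v : Fin 3 → ℝ, v ≠ 0 ∧ Matrix.mulVec (e i) v = v := by
    intro i
    obtain ⟨v, hv, hv0, -⟩ := exists_mem_ne (finrank_range_idem (h.1 i).2.2.1 (h.1 i).2.2.2)
    exact ⟨v, hv0, (mem_range_idem (h.1 i).2.2.1 v).mp hv⟩
  choose v hv0 hv using hv
  set P : M3 := Matrix.of fun a j => v j a with hP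
  have hcol : ∀ (M : M3) (j : Fin 3) (a : Fin 3), (M * P) a j = Matrix.mulVec M (v j) a := by
    intro M j a
    rfl
  have hPE : ∀ i, e i * P = P * E i := by
    intro i
    ext a j
    rw [hcol, E, Matrix.mul_diagonal]
    by_cases hij : i = j
    · subst hij
      rw [hv, Pi.single_eq_same, mul_one]
      rfl
    · have h1 : Matrix.mulVec (e i) (v j) = 0 := by
        rw [← hv j, Matrix.mulVec_mulVec, h.2.1 i j hij, Matrix.zero_mulVec]
      rw [h1, Pi.single_eq_of_ne (fun h => hij h.symm), mul_zero]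
      rfl
  have hdet : P.det ≠ 0 := by
    intro h0
    obtain ⟨w, hw0, hw⟩ := Matrix.exists_mulVec_eq_zero_iff.mpr h0
    apply hw0
    funext i
    have h1 : Matrix.mulVec (P * E i) w = 0 := by
      rw [← hPE, ← Matrix.mulVec_mulVec, hw, Matrix.mulVec_zero]
    obtain ⟨a, ha⟩ := Function.ne_iff.mp (hv0 i)
    have h2 := congrFun h1 a
    have h3 : Matrix.mulVec (P * E i) w a = v i a * w i := by
      rw [← Matrix.mulVec_mulVec, E]
      have h4 : Matrix.mulVec (Matrix.diagonal (Pi.single i (1 : ℝ))) w = Pi.single i (w i) := by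
        funext k
        rw [Matrix.mulVec_diagonal]
        by_cases hk : k = i
        · subst hk
          simp
        · simp [Pi.single_eq_of_ne hk]
      rw [h4, Matrix.mulVec_single]
      simp [hP]
    rw [h3] at h2
    rcases mul_eq_zero.mp h2 with h5 | h5
    · exact absurd h5 ha
    · exact h5
  set D : M3 := Matrix.diagonal ![1, 1, (P.det)⁻¹] with hD
  have hdet' : (P * D).det = 1 := by
    rw [Matrix.det_mul, hD, Matrix.det_diagonal, Fin.prod_univ_three]
    simp [hdet]
  obtain ⟨g, hg⟩ : ∃ g : G3, (g : M3) = P * D := ⟨⟨P * D, hdet'⟩, rfl⟩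
  refine ⟨g, fun i => ?_⟩
  have h1 : (g : M3) * E i = e i * (g : M3) := by
    rw [hg, ← mul_assoc, hPE, mul_assoc, mul_assoc]
    congr 1
    rw [hD, E, Matrix.diagonal_mul_diagonal, Matrix.diagonal_mul_diagonal]
    congr 1
    funext k
    exact mul_comm _ _
  rw [cg_apply, h1, mul_assoc, coe_mul_inv, mul_one]

variable {A : GSp G3}

/-- Approximation of idempotents. -/
theorem idem_approx {s : Set A.X} (hl : Lsc s (fun x => Subalgebra.toSubmodule (BB A x)))
    (hu : Usc s (fun x => Subalgebra.toSubmodule (BB A x)))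
    (hr : ∀ x ∈ s, rad (BB A x) = ⊥) (hnt : ∀ x ∈ s, (idem (BB A x)).Nontrivial)
    {u : ℕ → A.X} {x : A.X} (hus : ∀ n, u n ∈ s) (hx : x ∈ s)
    (hux : Tendsto u atTop (𝓝 x)) (f : M3) (hf : f ∈ idem (BB A x)) :
    ∃ e : ℕ → M3, (∀ n, e n ∈ idem (BB A (u n))) ∧ Tendsto e atTop (𝓝 f) := by
  choose F hF using fun n => exists_frame (hnt (u n) (hus n))
  have hD : Tendsto (fun n => Metric.infDist f (idem (BB A (u n)))) atTop (𝓝 0) := by
    refine tendsto_of_subseq_tendsto fun ns hns => ?_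
    obtain ⟨f0, φ0, hφ0, hf0, hf0'⟩ := idem_compact hl hu hr (u := fun n => u (ns n))
      (fun n => hus _) hx (hux.comp hns) (fun n => F (ns n) 0) (fun n => (hF _).1 _)
    obtain ⟨f1, φ1, hφ1, hf1, hf1'⟩ := idem_compact hl hu hr (u := fun n => u (ns (φ0 n)))
      (fun n => hus _) hx (hux.comp (hns.comp hφ0.tendsto_atTop)) (fun n => F (ns (φ0 n)) 1)
      (fun n => (hF _).1 _)
    obtain ⟨f2, φ2, hφ2, hf2, hf2'⟩ := idem_compact hl hu hr (u := fun n => u (ns (φ0 (φ1 n))))
      (fun n => hus _) hx (hux.comp (hns.comp (hφ0.tendsto_atTop.comp hφ1.tendsto_atTop)))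
      (fun n => F (ns (φ0 (φ1 n))) 2) (fun n => (hF _).1 _)
    have h0 : Tendsto (fun n => F (ns (φ0 (φ1 (φ2 n)))) 0) atTop (𝓝 f0) :=
      hf0.comp (hφ1.tendsto_atTop.comp hφ2.tendsto_atTop)
    have h1 : Tendsto (fun n => F (ns (φ0 (φ1 (φ2 n)))) 1) atTop (𝓝 f1) :=
      hf1.comp hφ2.tendsto_atTop
    have h2 : Tendsto (fun n => F (ns (φ0 (φ1 (φ2 n)))) 2) atTop (𝓝 f2) := hf2
    have h012 : ∀ i, Tendsto (fun n => F (ns (φ0 (φ1 (φ2 n)))) i) atTop
        (𝓝 ((![f0, f1, f2] : Fin 3 → M3) i)) := by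
      intro i
      fin_cases i
      · exact h0
      · exact h1
      · exact h2
    have hfr : Frame (BB A x) ![f0, f1, f2] := by
      refine ⟨?_, ?_, ?_⟩
      · intro i
        fin_cases i
        · exact hf0'
        · exact hf1'
        · exact hf2'
      · intro i j hij
        have h3 := (h012 i).mul (h012 j)
        have h4 : (fun n => F (ns (φ0 (φ1 (φ2 n)))) i * F (ns (φ0 (φ1 (φ2 n)))) j) =
            fun _ => (0 : M3) := by
          funext n
          exact (hF _).2.1 i j hij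
        rw [h4] at h3
        exact tendsto_nhds_unique h3 tendsto_const_nhds
      · have h3 := (h0.add h1).add h2
        have h4 : (fun n => F (ns (φ0 (φ1 (φ2 n)))) 0 + F (ns (φ0 (φ1 (φ2 n)))) 1 +
            F (ns (φ0 (φ1 (φ2 n)))) 2) = fun _ => (1 : M3) := by
          funext n
          exact (hF _).2.2
        rw [h4] at h3
        exact tendsto_nhds_unique h3 tendsto_const_nhds
    obtain ⟨i, hi⟩ := hfr.all hf
    refine ⟨fun n => φ0 (φ1 (φ2 n)), ?_⟩
    have h3 : Tendsto (fun n => dist f (F (ns (φ0 (φ1 (φ2 n)))) i)) atTop (𝓝 0) := by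
      have h4 := (tendsto_const_nhds (x := f)).dist (h012 i)
      rw [← hi, dist_self] at h4
      exact h4
    refine squeeze_zero (fun n => Metric.infDist_nonneg) (fun n => ?_) h3
    exact Metric.infDist_le_dist_of_mem ((hF _).1 i)
  have hex : ∀ n : ℕ, ∃ e ∈ idem (BB A (u n)),
      dist f e < Metric.infDist f (idem (BB A (u n))) + 1 / ((n : ℝ) + 1) := by
    intro n
    refine (Metric.infDist_lt_iff (hnt _ (hus n)).nonempty).mp ?_
    have : (0 : ℝ) < 1 / ((n : ℝ) + 1) := by positivity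
    linarith
  choose e he hde using hex
  refine ⟨e, he, tendsto_iff_dist_tendsto_zero.mpr ?_⟩
  have h1 := hD.add tendsto_one_div_add_atTop_nhds_zero_nat
  rw [add_zero] at h1
  refine squeeze_zero (fun n => dist_nonneg) (fun n => ?_) h1
  rw [dist_comm]
  exact (hde n).le

theorem frame_of_cg {B : Subalgebra ℝ M3} {g : G3} (h : ∀ i, cg g (E i) ∈ idem B) :
    Frame B (fun i => cg g (E i)) := by
  refine ⟨h, fun i j hij => ?_, ?_⟩
  · rw [← cg_mul, E_mul_ne hij, map_zero]
  · rw [← map_add, ← map_add, E_sum, cg_one]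

theorem cg_diag {B : Subalgebra ℝ M3} {g g' : G3} (h : ∀ i, cg g (E i) ∈ idem B)
    (h' : ∀ i, cg g' (E i) ∈ idem B) (d : Fin 3 → ℝ) :
    ∃ d', ((g⁻¹ * g' : G3) : M3) * Matrix.diagonal d =
      Matrix.diagonal d' * ((g⁻¹ * g' : G3) : M3) := by
  choose σ hσ using fun i => (frame_of_cg h).all (h' i)
  have h1 : ∀ i, ((g⁻¹ * g' : G3) : M3) * E i = E (σ i) * ((g⁻¹ * g' : G3) : M3) := by
    intro i
    have h2 : cg (g⁻¹ * g') (E i) = E (σ i) := by
      rw [cg_comp, hσ i, cg_inv_cg]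
    rw [← h2, cg_apply, mul_assoc, coe_inv_mul, mul_one]
  refine ⟨fun k => ∑ i, d i * (Pi.single (σ i) 1 : Fin 3 → ℝ) k, ?_⟩
  have h3 : (Matrix.diagonal fun k => ∑ i, d i * (Pi.single (σ i) 1 : Fin 3 → ℝ) k) =
      ∑ i, d i • E (σ i) := by
    ext a b
    rw [Matrix.sum_apply]
    by_cases hab : a = b
    · subst hab
      rw [Matrix.diagonal_apply_eq]
      refine Finset.sum_congr rfl fun i _ => ?_
      rw [Matrix.smul_apply, E, Matrix.diagonal_apply_eq, smul_eq_mul]
    · rw [Matrix.diagonal_apply_ne _ hab]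
      symm
      refine Finset.sum_eq_zero fun i _ => ?_
      rw [Matrix.smul_apply, E, Matrix.diagonal_apply_ne _ hab, smul_zero]
  rw [h3, diagonal_eq, Finset.mul_sum, Finset.sum_mul]
  refine Finset.sum_congr rfl fun i _ => ?_
  rw [mul_smul_comm, smul_mul_assoc, h1]

/-- The stratum with three idempotents. -/
theorem good_three {BC : GSp G3 → Prop} (hL : Over BC diagNorm) (A : GSp G3) (s : Set A.X)
    (hl : Lsc s (fun x => Subalgebra.toSubmodule (BB A x)))
    (hu : Usc s (fun x => Subalgebra.toSubmodule (BB A x)))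
    (hr : ∀ x ∈ s, rad (BB A x) = ⊥) (hnt : ∀ x ∈ s, (idem (BB A x)).Nontrivial) :
    Good BC A s := by
  intro hs hi
  refine hL _ (exists_map A s hs hi diagNorm (fun x g => ∀ i, cg g (E i) ∈ idem (BB A x))
    ?_ ?_ ?_ ?_)
  · intro x hx
    obtain ⟨e, he⟩ := exists_frame (hnt x hx)
    obtain ⟨g, hg⟩ := he.exists_cg
    exact ⟨g, fun i => by rw [hg i]; exact he.1 i⟩
  · intro x hx g g' hg hg'
    refine ⟨cg_diag hg hg', ?_⟩
    have h1 : (g⁻¹ * g')⁻¹ = g'⁻¹ * g := by rw [_root_.mul_inv_rev, inv_inv]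
    rw [h1]
    exact cg_diag hg' hg
  · intro x _ g h hg i
    rw [cg_comp]
    exact idem_cg h x (hg i)
  · intro u x hus hx hux g hg
    have hfr := frame_of_cg hg
    set e : Fin 3 → M3 := fun i => cg g (E i) with he
    have hap := fun i => idem_approx hl hu hr hnt hus hx hux (e i) (hg i)
    choose a ha ha' using hap
    have hlim : Tendsto (fun n => a 0 n * e 0 + a 1 n * e 1 + a 2 n * e 2) atTop
        (𝓝 (1 : M3)) := by
      have h1 := (((ha' 0).mul_const (e 0)).add ((ha' 1).mul_const (e 1))).add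
        ((ha' 2).mul_const (e 2))
      rw [(hg 0).2.2.1, (hg 1).2.2.1, (hg 2).2.2.1, hfr.2.2] at h1
      exact h1
    obtain ⟨k, c, hk, hc, hkc⟩ := exists_normalized _ hlim
    refine ⟨k, hk, ?_⟩
    have hne : ∀ i j, i ≠ j → e i ≠ e j := by
      intro i j hij h
      have h1 := hfr.2.1 i j hij
      rw [← h, (hg i).2.2.1] at h1
      exact idem_ne_zero (hg i) h1
    have hev : ∀ i j, i ≠ j → ∀ᶠ n in atTop, a i n * a j n = 0 := by
      intro i j hij
      have h1 : ∀ᶠ n in atTop, a i n - a j n ≠ 0 :=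
        ((ha' i).sub (ha' j)).eventually_ne (sub_ne_zero.mpr (hne i j hij))
      filter_upwards [h1] with n hn
      exact idem_orth (ha i n) (ha j n) (sub_ne_zero.mp hn)
    filter_upwards [hkc, hev 0 1 (by decide), hev 0 2 (by decide), hev 1 0 (by decide),
      hev 1 2 (by decide), hev 2 0 (by decide), hev 2 1 (by decide)] with n hn h01 h02 h10 h12
        h20 h21
    have hm : ∀ i, a i n * (a 0 n * e 0 + a 1 n * e 1 + a 2 n * e 2) =
        (a 0 n * e 0 + a 1 n * e 1 + a 2 n * e 2) * e i := by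
      intro i
      have o := fun i j hij => hfr.2.1 i j hij
      have s0 : e 0 * e 0 = e 0 := (hg 0).2.2.1
      have s1 : e 1 * e 1 = e 1 := (hg 1).2.2.1
      have s2 : e 2 * e 2 = e 2 := (hg 2).2.2.1
      have t0 := (ha 0 n).2.2.1
      have t1 := (ha 1 n).2.2.1
      have t2 := (ha 2 n).2.2.1
      rw [mul_add, mul_add, add_mul, add_mul]
      simp only [mul_assoc]
      fin_cases i
      · simp only [Fin.zero_eta]
        rw [← mul_assoc (a 0 n) (a 0 n), ← mul_assoc (a 0 n) (a 1 n), ← mul_assoc (a 0 n) (a 2 n),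
          t0, h01, h02, s0, o 1 0 (by decide), o 2 0 (by decide)]
        simp
      · simp only [Fin.mk_one]
        rw [← mul_assoc (a 1 n) (a 0 n), ← mul_assoc (a 1 n) (a 1 n), ← mul_assoc (a 1 n) (a 2 n),
          t1, h10, h12, s1, o 0 1 (by decide), o 2 1 (by decide)]
        simp
      · simp only [Fin.reduceFinMk]
        rw [← mul_assoc (a 2 n) (a 0 n), ← mul_assoc (a 2 n) (a 1 n), ← mul_assoc (a 2 n) (a 2 n),
          t2, h20, h21, s2, o 0 2 (by decide), o 1 2 (by decide)]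
        simp
    intro i
    have h1 : cg (k n) (e i) = a i n := by
      rw [cg_apply]
      have h2 : (k n : M3) * e i = a i n * (k n : M3) := by
        rw [hn, smul_mul_assoc, mul_smul_comm, hm i]
      rw [h2, mul_assoc, coe_mul_inv, mul_one]
    rw [cg_comp]
    change cg (k n) (e i) ∈ _
    rw [h1]
    exact ha i n

/-- The strata with idempotents. -/
theorem good_idem {BC : GSp G3 → Prop} (hex : Excision BC) (hL : Over BC lineStab)
    (hD : Over BC diagNorm) (A : GSp G3) (s : Set A.X)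
    (hl : Lsc s (fun x => Subalgebra.toSubmodule (BB A x)))
    (hu : Usc s (fun x => Subalgebra.toSubmodule (BB A x)))
    (hr : ∀ x ∈ s, rad (BB A x) = ⊥)
    (h0 : Good BC A {x | x ∈ s ∧ idem (BB A x) = ∅}) : Good BC A s := by
  intro hs hi
  have hne : ∀ (g : G3) (x : A.X), (idem (BB A x)).Nonempty → (idem (BB A (g • x))).Nonempty := by
    rintro g x ⟨e, he⟩
    exact ⟨_, idem_cg g x he⟩
  have hnt : ∀ (g : G3) (x : A.X), (idem (BB A x)).Nontrivial →
      (idem (BB A (g • x))).Nontrivial := by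
    rintro g x ⟨e, he, f, hf, hef⟩
    exact ⟨_, idem_cg g x he, _, idem_cg g x hf, fun h => hef ((cg g).injective h)⟩
  refine good_of_closed hex A hs hi (t := {x | x ∈ s ∧ (idem (BB A x)).Nonempty})
    (fun x hx => hx.1) (fun g x hx => ⟨hi g x hx.1, hne g x hx.2⟩) ?_ ?_ ?_
  · intro u x hux hx hlim
    choose e he using fun n => (hux n).2
    obtain ⟨f, -, -, -, hf⟩ := idem_compact hl hu hr (fun n => (hux n).1) hx hlim e he
    exact ⟨hx, f, hf⟩
  · intro hs' hi'
    refine good_of_closed hex A hs' hi' (t := {x | x ∈ s ∧ (idem (BB A x)).Nontrivial})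
      (fun x hx => ⟨hx.1, hx.2.nonempty⟩) (fun g x hx => ⟨hi g x hx.1, hnt g x hx.2⟩) ?_ ?_ ?_
    · intro u x hux hx hlim
      choose F hF using fun n => exists_frame (hux n).2
      obtain ⟨f0, φ0, hφ0, hf0, hf0'⟩ := idem_compact hl hu hr (fun n => (hux n).1) hx.1 hlim
        (fun n => F n 0) (fun n => (hF n).1 0)
      obtain ⟨f1, φ1, hφ1, hf1, hf1'⟩ := idem_compact hl hu hr (u := fun n => u (φ0 n))
        (fun n => (hux _).1) hx.1 (hlim.comp hφ0.tendsto_atTop)
        (fun n => F (φ0 n) 1) (fun n => (hF _).1 1)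
      refine ⟨hx.1, f0, hf0', f1, hf1', fun h => ?_⟩
      have h1 : Tendsto (fun n => F (φ0 (φ1 n)) 0 * F (φ0 (φ1 n)) 1) atTop (𝓝 (f0 * f1)) :=
        (hf0.comp hφ1.tendsto_atTop).mul hf1
      have h2 : (fun n => F (φ0 (φ1 n)) 0 * F (φ0 (φ1 n)) 1) = fun _ => (0 : M3) := by
        funext n
        exact (hF _).2.1 0 1 (by decide)
      rw [h2] at h1
      have h3 := tendsto_nhds_unique h1 tendsto_const_nhds
      rw [← h, hf0'.2.2.1] at h3
      exact idem_ne_zero hf0' h3
    · exact good_three hD A _ (hl.mono fun x hx => hx.1) (hu.mono fun x hx => hx.1)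
        (fun x hx => hr x hx.1) (fun x hx => hx.2)
    · refine good_one hL A _ (hl.mono fun x hx => hx.1.1) (hu.mono fun x hx => hx.1.1)
        (fun x hx => hr x hx.1.1) (fun x hx => hx.1.2) ?_
      rintro x ⟨⟨hx, -⟩, hx'⟩
      rw [← Set.not_nontrivial_iff]
      exact fun h => hx' ⟨hx, h⟩
  · have h1 : s \ {x | x ∈ s ∧ (idem (BB A x)).Nonempty} = {x | x ∈ s ∧ idem (BB A x) = ∅} := by
      ext x
      constructor
      · rintro ⟨hx, hx'⟩
        refine ⟨hx, ?_⟩
        rw [← Set.not_nonempty_iff_eq_empty]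
        exact fun h => hx' ⟨hx, h⟩
      · rintro ⟨hx, hx'⟩
        refine ⟨hx, fun h => ?_⟩
        have := h.2
        rw [hx'] at this
        exact Set.not_nonempty_empty this
    rw [h1]
    exact h0

end Pool.Agent.Helper64.BC
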